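import Pool.Agent.P.MP_859560_lc.LiftCore

namespace Pool.Agent.P.MP_859560_lc.Desc

open Classical Pool.Agent.P.MP_859560_lc

section general
variable {T W : Type*} [Monoid T] [MulAction T W]

/-- `t` fixes the finite set `D` pointwise -/
def Fixes (t : T) (D : Finset W) : Prop := ∀ y ∈ D, t • y = y

theorem Fixes.mul {s t : T} {D : Finset W} (hs : Fixes s D) (ht : Fixes t D) :
    Fixes (s * t) D := fun y hy => by rw [mul_smul, ht y hy, hs y hy]

theorem Fixes.one (D : Finset W) : Fixes (1 : T) D := fun y _ => one_smul _ y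

theorem Fixes.mono {t : T} {D D' : Finset W} (h : Fixes t D') (hD : D ⊆ D') : Fixes t D :=
  fun y hy => h y (hD hy)

theorem Fixes.inv {g : Tˣ} {D : Finset W} (h : Fixes (g : T) D) : Fixes ((g⁻¹ : Tˣ) : T) D :=
  fun y hy => by
    conv_lhs => rw [← h y hy]
    exact unit_inv_smul g y

theorem fixes_inv_mul {g : Tˣ} {t : T} {D : Finset W} (h : ∀ y ∈ D, t • y = (g : T) • y) :
    Fixes (((g⁻¹ : Tˣ) : T) * t) D := fun y hy => by
  rw [mul_smul, h y hy, unit_inv_smul]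

/-- adaptive fusion -/
theorem fusion' [Countable W] (h : ClosedAct T W) (Q : ℕ → T → Prop)
    (hQ : ∀ i w (D : Finset W), ∃ u : T, ∃ D' : Finset W, Fixes u D ∧
      ∀ r : T, Fixes r D' → Q i (w * u * r)) :
    ∃ v : T, ∀ i, Q i v := by
  obtain ⟨A, hA, hA'⟩ := exists_exhaust W
  choose c E hc hE using hQ
  let s : ℕ → T × Finset W := fun n => Nat.rec (1, ∅)
    (fun n s => (s.1 * c n s.1 (s.2 ∪ A n), s.2 ∪ E n s.1 (s.2 ∪ A n))) n
  have hs1 : ∀ n, (s (n + 1)).1 = (s n).1 * c n (s n).1 ((s n).2 ∪ A n) := fun n => rfl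
  have hs2 : ∀ n, (s (n + 1)).2 = (s n).2 ∪ E n (s n).1 ((s n).2 ∪ A n) := fun n => rfl
  have hmono : Monotone fun n => (s n).2 := monotone_nat_of_le_succ fun n => by
    simp only [hs2]; exact Finset.subset_union_left
  obtain ⟨r, hr, hr'⟩ := exists_inf_prod h (fun n => c n (s n).1 ((s n).2 ∪ A n)) (by
    intro x
    obtain ⟨n, hn⟩ := hA' x
    exact ⟨n, fun m hm => hc _ _ _ x (Finset.mem_union_right _ (hA hm hn))⟩)
  have hv : ∀ n, r 0 = (s n).1 * r n := by
    intro n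
    induction n with
    | zero => exact (one_mul _).symm
    | succ n ih => rw [hs1, mul_assoc, ← hr n, ih]
  refine ⟨r 0, fun i => ?_⟩
  rw [hv (i + 1), hs1]
  refine hE _ _ _ _ fun y hy => hr' _ _ fun m hm => hc _ _ _ y (Finset.mem_union_left _ ?_)
  exact hmono hm (by simp only [hs2]; exact Finset.mem_union_right _ hy)

/-- continuity of a self-map of `T` for pointwise convergence on `W` -/
def Cts (W : Type*) [MulAction T W] (Φ : T → T) : Prop :=
  ∀ (u : T) (D : Finset W), ∃ D' : Finset W, ∀ u' : T, (∀ y ∈ D', u' • y = u • y) →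
    ∀ y ∈ D, Φ u' • y = Φ u • y

theorem Cts.id : Cts W (fun u : T => u) := fun _ D => ⟨D, fun _ h => h⟩

theorem Cts.comp {Φ Ψ : T → T} (h1 : Cts W Φ) (h2 : Cts W Ψ) : Cts W fun u => Φ (Ψ u) := by
  intro u D
  obtain ⟨D1, hD1⟩ := h1 (Ψ u) D
  obtain ⟨D2, hD2⟩ := h2 u D1
  exact ⟨D2, fun u' hu' => hD1 _ (hD2 u' hu')⟩

theorem cts_pow (m : ℕ) : Cts W fun u : T => u ^ m := by
  induction m with
  | zero => exact fun _ D => ⟨D, fun _ _ y _ => by simp⟩
  | succ m ih =>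
    intro u D
    obtain ⟨D1, hD1⟩ := ih u (D.image fun y => u • y)
    refine ⟨D1 ∪ D, fun u' hu' y hy => ?_⟩
    simp only [pow_succ, mul_smul]
    rw [hu' y (Finset.mem_union_right _ hy)]
    exact hD1 u' (fun z hz => hu' z (Finset.mem_union_left _ hz)) _
      (Finset.mem_image_of_mem _ hy)

theorem cts_mul_pow (h : T) (m : ℕ) : Cts W fun u : T => h * u ^ m := by
  intro u D
  obtain ⟨D1, hD1⟩ := cts_pow (W := W) m u D
  exact ⟨D1, fun u' hu' y hy => by
    have := hD1 u' hu' y hy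
    simp only at this
    simp only [mul_smul, this]⟩

/-- towers: solutions of `x i = h i * x (i + 1) ^ m i` -/
theorem exists_tower [Countable W] (h : ClosedAct T W) (P : T → Prop)
    (hP : ∀ D : Finset W, ∃ u : T, Fixes u D ∧ P u) (ν : T → ℕ) :
    ∃ (u x : ℕ → T) (B : ℕ → ℕ), (∀ i, P (u i)) ∧ B 0 = 0 ∧ (∀ i, B (i + 1) = B i + ν (u i)) ∧
      ∀ i, x i = u i * x (i + 1) ^ (i + 1 + B (i + 1)) := by
  obtain ⟨A, hA, hA'⟩ := exists_exhaust W
  have h0 : ∀ (k : ℕ) (Φ : ℕ → T → T), ∃ u : T, P u ∧ ((∀ i, Cts W (Φ i)) →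
      ∀ i ≤ k, ∀ y ∈ A k, Φ i u • y = Φ i 1 • y) := by
    intro k Φ
    by_cases hΦ : ∀ i, Cts W (Φ i)
    · choose D hD using fun i => hΦ i 1 (A k)
      obtain ⟨u, hu, hu'⟩ := hP ((Finset.range (k + 1)).biUnion D)
      refine ⟨u, hu', fun _ i hi => hD i u fun y hy => ?_⟩
      rw [one_smul]
      exact hu y (Finset.mem_biUnion.2 ⟨i, Finset.mem_range.2 (by omega), hy⟩)
    · obtain ⟨u, -, hu'⟩ := hP ∅
      exact ⟨u, hu', fun h' => absurd h' hΦ⟩
  choose c hc hc' using h0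
  let s : ℕ → (ℕ → T → T) × ℕ := fun n => Nat.rec (fun _ v => v, 0)
    (fun k s => (fun i v => if i ≤ k then s.1 i (c k s.1 * v ^ (k + 1 + (s.2 + ν (c k s.1))))
      else v, s.2 + ν (c k s.1))) n
  let u : ℕ → T := fun k => c k (s k).1
  let B : ℕ → ℕ := fun k => (s k).2
  have hB : ∀ k, B (k + 1) = B k + ν (u k) := fun k => rfl
  have hs1 : ∀ k i v, (s (k + 1)).1 i v =
      if i ≤ k then (s k).1 i (u k * v ^ (k + 1 + B (k + 1))) else v := fun k i v => rfl
  have hcts : ∀ k i, Cts W ((s k).1 i) := by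
    intro k
    induction k with
    | zero => exact fun _ => Cts.id
    | succ k ih =>
      intro i
      by_cases hi : i ≤ k
      · have : (s (k + 1)).1 i = fun v => (s k).1 i (u k * v ^ (k + 1 + B (k + 1))) :=
          funext fun v => by rw [hs1, if_pos hi]
        rw [this]
        exact (ih i).comp (cts_mul_pow _ _)
      · have : (s (k + 1)).1 i = fun v => v := funext fun v => by rw [hs1, if_neg hi]
        rw [this]
        exact Cts.id
  have hid : ∀ k i v, k ≤ i → (s k).1 i v = v := by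
    intro k i v hk
    cases k with
    | zero => rfl
    | succ k => rw [hs1, if_neg (by omega)]
  have hrel : ∀ i k, i < k → ∀ v, (s k).1 i v = u i * ((s k).1 (i + 1) v) ^ (i + 1 + B (i + 1)) := by
    intro i k hk
    induction k, hk using Nat.le_induction with
    | base =>
      intro v
      rw [hs1, if_pos le_rfl, hid i i _ le_rfl, hid (i + 1) (i + 1) v le_rfl]
    | succ k hk ih =>
      intro v
      rw [hs1, if_pos (by omega), hs1, if_pos (by omega), ih]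
  have hlim : ∀ i, ∃ x : T, ∀ y : W, ∃ n, ∀ m, n ≤ m → x • y = (s m).1 i 1 • y := by
    intro i
    apply exists_limit h
    intro y
    obtain ⟨n, hn⟩ := hA' y
    refine ⟨n + i, fun m hm => ?_⟩
    rw [hs1, if_pos (by omega), one_pow, mul_one]
    exact hc' m (s m).1 (hcts m) i (by omega) y (hA (by omega : n ≤ m) hn)
  choose x hx using hlim
  refine ⟨u, x, B, fun i => hc _ _, rfl, hB, fun i => h.faith _ _ fun y => ?_⟩
  obtain ⟨D, hD⟩ := cts_mul_pow (W := W) (u i) (i + 1 + B (i + 1)) (x (i + 1)) {y}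
  choose N hN using hx (i + 1)
  obtain ⟨n, hn⟩ := hx i y
  let m := n + D.sup N + i + 1
  rw [hn m (by omega), hrel i m (by omega)]
  refine hD _ (fun z hz => (hN z m ?_).symm) y (Finset.mem_singleton_self y)
  have := Finset.le_sup (f := N) hz
  omega

theorem norm_pow_ge {α : Type*} [DecidableEq α] (g : FreeGroup α) (hg : g ≠ 1) (n : ℕ) :
    n + 1 ≤ (g ^ (n + 1)).norm ∧ g.norm ≤ (g ^ (n + 1)).norm := by
  have h1 : (g ^ (n + 1)).norm = (FreeGroup.reduceCyclically.conjugator g.toWord).length +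
      ((n + 1) * (FreeGroup.reduceCyclically g.toWord).length +
      (FreeGroup.reduceCyclically.conjugator g.toWord).length) := by
    rw [FreeGroup.norm, FreeGroup.toWord_pow,
      FreeGroup.reduceCyclically.reduce_flatten_replicate_succ FreeGroup.isReduced_toWord]
    simp
  have h2 : g.norm = (FreeGroup.reduceCyclically.conjugator g.toWord).length +
      ((FreeGroup.reduceCyclically g.toWord).length +
      (FreeGroup.reduceCyclically.conjugator g.toWord).length) := by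
    rw [FreeGroup.norm]
    conv_lhs => rw [← FreeGroup.reduceCyclically.conj_conjugator_reduceCyclically g.toWord]
    simp
  have h3 : (FreeGroup.reduceCyclically g.toWord).length ≠ 0 := by
    intro h0
    apply hg
    rw [List.length_eq_zero_iff] at h0
    have := congrArg FreeGroup.mk
      (FreeGroup.reduceCyclically.conj_conjugator_reduceCyclically g.toWord)
    rw [h0, List.append_nil, FreeGroup.mk_toWord, ← FreeGroup.mul_mk, ← FreeGroup.inv_mk,
      mul_inv_cancel] at this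
    exact this.symm
  rw [h1, h2]
  constructor
  · have : (n + 1) * 1 ≤ (n + 1) * (FreeGroup.reduceCyclically g.toWord).length :=
      Nat.mul_le_mul_left _ (Nat.one_le_iff_ne_zero.2 h3)
    omega
  · have : 1 * (FreeGroup.reduceCyclically g.toWord).length ≤
        (n + 1) * (FreeGroup.reduceCyclically g.toWord).length :=
      Nat.mul_le_mul_right _ (by omega)
    omega

/-- Dudley's theorem for closed transformation monoids -/
theorem dudley [Countable W] (h : ClosedAct T W) {α : Type*} (ψ : T →* FreeGroup α) :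
    ∃ D : Finset W, ∀ t : T, Fixes t D → ψ t = 1 := by
  by_contra hcon
  push Not at hcon
  obtain ⟨u, x, B, hu, hB0, hB, hx⟩ :=
    exists_tower h (fun t => ψ t ≠ 1) hcon (fun t => (ψ t).norm)
  have hrel : ∀ i, ψ (x (i + 1)) ^ (i + B (i + 1) + 1) = (ψ (u i))⁻¹ * ψ (x i) := by
    intro i
    rw [hx i, map_mul, map_pow, inv_mul_cancel_left]
    congr 1
    omega
  have hle : ∀ i, (ψ (x (i + 1)) ^ (i + B (i + 1) + 1)).norm ≤ (ψ (u i)).norm + (ψ (x i)).norm := by
    intro i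
    rw [hrel]
    exact (FreeGroup.norm_mul_le _ _).trans (by rw [FreeGroup.norm_inv_eq])
  have hb : ∀ i, (ψ (x i)).norm ≤ (ψ (x 0)).norm + B i := by
    intro i
    induction i with
    | zero => omega
    | succ i ih =>
      by_cases h1 : ψ (x (i + 1)) = 1
      · rw [h1, FreeGroup.norm_one]; omega
      · have := (norm_pow_ge _ h1 (i + B (i + 1))).2
        have := hle i
        have := hB i
        omega
  have hone : ∀ i, (ψ (x 0)).norm ≤ i → ψ (x (i + 1)) = 1 := by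
    intro i hi
    by_contra h1
    have := (norm_pow_ge _ h1 (i + B (i + 1))).1
    have := hle i
    have := hB i
    have := hb i
    omega
  have h1 := hrel ((ψ (x 0)).norm + 1)
  rw [hone _ le_rfl, hone _ (by omega), one_pow, mul_one, eq_comm, inv_eq_one] at h1
  exact hu _ h1

theorem unit_of_surj (h : ClosedAct T W) (hd : DenseUnits T W) (s : T)
    (hs : ∀ x : W, ∃ y : W, s • y = x) : ∃ g : Tˣ, s = g := by
  choose θ hθ using hs
  obtain ⟨s', hs'⟩ := h.closed θ (by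
    intro F
    obtain ⟨g, hg⟩ := hd s (F.image θ)
    refine ⟨(g⁻¹ : Tˣ), fun a ha => ?_⟩
    have := hg _ (Finset.mem_image_of_mem θ ha)
    rw [hθ] at this
    conv_rhs => rw [this]
    rw [unit_inv_smul])
  have h1 : s * s' = 1 := h.faith _ _ fun a => by rw [mul_smul, ← hs', hθ, one_smul]
  have h2 : s' * s = 1 := by
    apply left_cancel h hd (v := s)
    rw [← mul_assoc, h1, one_mul, mul_one]
  exact ⟨⟨s, s', h1, h2⟩, rfl⟩

theorem baire_step {M : Type*} [MulAction T M] [Countable M] [Countable W]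
    (hM : ClosedAct T M) (hd : DenseUnits T M) (D : Finset W) :
    ∃ F : Finset M, ∀ t : T, Fixes t F → ∀ F' : Finset M, ∃ g : Tˣ, Fixes (g : T) D ∧
      ∀ a ∈ F', (g : T) • a = t • a := by
  obtain ⟨i, e₀, F₀, h⟩ := baire_maps (E := T) (W := M) (ι := M ⊕ Finset (W × W))
    (fun t a => t • a) hM.closed
    (fun i s => match i with
      | Sum.inl x => ∀ y : M, s • y ≠ x
      | Sum.inr Z => ∃ g : Tˣ, s = g ∧ Z = D.image fun y => (y, (g : T) • y)) (by
      intro s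
      by_cases hs : ∀ x : M, ∃ y : M, s • y = x
      · obtain ⟨g, hg⟩ := unit_of_surj hM hd s hs
        exact ⟨Sum.inr _, g, hg, rfl⟩
      · push Not at hs
        obtain ⟨x, hx⟩ := hs
        exact ⟨Sum.inl x, hx⟩)
  rcases i with x | Z
  · obtain ⟨g, hg⟩ := hd e₀ F₀
    obtain ⟨k, hk, hk'⟩ := h g (fun y hy => (hg y hy).symm) {((g⁻¹ : Tˣ) : T) • x}
    have := hk' _ (Finset.mem_singleton_self _)
    simp only [unit_smul_inv] at this
    exact absurd this (hk _)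
  · obtain ⟨k₀, ⟨g₀, rfl, hZ₀⟩, hk₀⟩ := h e₀ (fun _ _ => rfl) F₀
    refine ⟨F₀, fun t ht F' => ?_⟩
    obtain ⟨k, ⟨g, rfl, hZ⟩, hk⟩ := h (g₀ * t) (fun y hy => by
      simp only [mul_smul]
      rw [ht y hy]
      exact hk₀ y hy) F'
    refine ⟨g₀⁻¹ * g, ?_, fun a ha => ?_⟩
    · rw [Units.val_mul]
      refine fixes_inv_mul fun y hy => ?_
      have : (y, (g : T) • y) ∈ D.image fun y => (y, (g₀ : T) • y) := by
        rw [← hZ₀, hZ]; exact Finset.mem_image_of_mem _ hy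
      obtain ⟨y', -, hy'⟩ := Finset.mem_image.1 this
      obtain ⟨rfl, h2⟩ := Prod.mk.inj hy'
      exact h2.symm
    · have := hk a ha
      simp only [mul_smul] at this
      rw [Units.val_mul, mul_smul, this, unit_inv_smul]

/-- the open mapping argument -/
theorem open_mapping {M : Type*} [MulAction T M] [Countable M] [Countable W]
    (hM : ClosedAct T M) (hd : DenseUnits T M) (hW : ClosedAct T W) (D : Finset W) :
    ∃ F : Finset M, ∀ t : T, Fixes t F → ∃ r : T, Fixes r D ∧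
      ∀ a : M, (∃ D' : Finset W, ∀ s : T, Fixes s D' → s • a = a) → r • a = t • a := by
  obtain ⟨A, hA, hA'⟩ := exists_exhaust M
  obtain ⟨B, hB, hB'⟩ := exists_exhaust W
  choose N hN using fun n => baire_step hM hd (D ∪ B n)
  refine ⟨N 0, fun t ht => ?_⟩
  have hstep : ∀ (n : ℕ) (s : T), ∃ g : Tˣ, Fixes s (N n) → Fixes (g : T) (D ∪ B n) ∧
      ∀ a ∈ N (n + 1) ∪ A n, (g : T) • a = s • a := by
    intro n s
    by_cases h : Fixes s (N n)
    · obtain ⟨g, hg⟩ := hN n s h (N (n + 1) ∪ A n)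
      exact ⟨g, fun _ => hg⟩
    · exact ⟨1, fun h' => absurd h' h⟩
  choose c hc using hstep
  let s : ℕ → T := fun n => Nat.rec t (fun n s => ((c n s)⁻¹).val * s) n
  have hs : ∀ n, s (n + 1) = ((c n (s n))⁻¹).val * s n := fun n => rfl
  have hinv : ∀ n, Fixes (s n) (N n) := by
    intro n
    induction n with
    | zero => exact ht
    | succ n ih =>
      exact fixes_inv_mul fun a ha => ((hc n (s n) ih).2 a (Finset.mem_union_left _ ha)).symm
  have hfix : ∀ n, Fixes (c n (s n) : T) (D ∪ B n) := fun n => (hc n (s n) (hinv n)).1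
  obtain ⟨r, hr, hr'⟩ := exists_inf_prod hW (fun n => (c n (s n) : T)) (by
    intro x
    obtain ⟨n, hn⟩ := hB' x
    exact ⟨n, fun m hm => hfix m x (Finset.mem_union_right _ (hB hm hn))⟩)
  refine ⟨r 0, fun y hy => hr' 0 y fun m _ => hfix m y (Finset.mem_union_left _ hy), ?_⟩
  rintro a ⟨D', hD'⟩
  have hdown : ∀ m : ℕ, r m • a = s m • a → r 0 • a = t • a := by
    intro m
    induction m with
    | zero => exact id
    | succ m ih =>
      intro h
      apply ih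
      rw [hr m, mul_smul, h, hs, mul_smul, unit_smul_inv]
  choose n hn using hB'
  obtain ⟨k, hk⟩ := hA' a
  apply hdown (D'.sup n + k + 1)
  rw [hD' _ fun y hy => hr' _ y fun m hm => hfix m y (Finset.mem_union_right _ (hB ?_ (hn y))), hs]
  · exact (fixes_inv_mul (D := {a}) (fun b hb => by
      rw [Finset.mem_singleton.1 hb]
      exact ((hc _ _ (hinv _)).2 a (Finset.mem_union_right _
        (hA (by omega : k ≤ D'.sup n + k) hk))).symm) a (Finset.mem_singleton_self a)).symm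
  · have := Finset.le_sup (f := n) hy
    omega

/-- extension of a character from the units -/
theorem ext_hom (hd : DenseUnits T W) (D : Finset W) (χ : T → ZMod 2)
    (hχ : ∀ s t, χ (s * t) = χ s + χ t) (hχD : ∀ t, Fixes t D → χ t = 0) (c : Tˣ → ZMod 2)
    (hc : ∀ g g' : Tˣ, χ g = 0 → χ g' = 0 → c (g * g') = c g + c g')
    (hcD : ∀ g : Tˣ, Fixes (g : T) D → c g = 0) :
    ∃ c' : T → ZMod 2, (∀ s t, χ s = 0 → χ t = 0 → c' (s * t) = c' s + c' t) ∧
      (∀ t, Fixes t D → c' t = 0) ∧ ∀ g : Tˣ, χ g = 0 → c' g = c g := by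
  have h1 : ∀ (t : T) (g : Tˣ), (∀ y ∈ D, t • y = (g : T) • y) → χ t = χ g := by
    intro t g h
    have := hχ g (((g⁻¹ : Tˣ) : T) * t)
    rw [← mul_assoc, Units.mul_inv, one_mul, hχD _ (fixes_inv_mul h), add_zero] at this
    exact this
  have h2 : ∀ g g' : Tˣ, χ g = 0 → (∀ y ∈ D, (g' : T) • y = (g : T) • y) → c g' = c g := by
    intro g g' hg h
    have h3 : Fixes ((g⁻¹ * g' : Tˣ) : T) D := by rw [Units.val_mul]; exact fixes_inv_mul h
    have := hc g (g⁻¹ * g') hg (hχD _ h3)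
    rw [mul_inv_cancel_left, hcD _ h3, add_zero] at this
    exact this
  choose a ha using fun t => hd t D
  have h3 : ∀ (t : T) (g : Tˣ), χ t = 0 → (∀ y ∈ D, t • y = (g : T) • y) → c (a t) = c g := by
    intro t g ht h
    exact h2 g (a t) (by rw [← h1 t g h, ht]) fun y hy => by rw [← ha t y hy, h y hy]
  refine ⟨fun t => c (a t), fun s t hs ht => ?_, fun t ht => ?_, fun g hg => ?_⟩
  · obtain ⟨g, hg⟩ := hd s (D ∪ D.image fun y => t • y)
    have e1 := h3 s g hs fun y hy => hg y (Finset.mem_union_left _ hy)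
    have e2 := h3 (s * t) (g * a t) (by rw [hχ, hs, ht, add_zero]) fun y hy => by
      rw [Units.val_mul, mul_smul, mul_smul, ← ha t y hy,
        hg _ (Finset.mem_union_right _ (Finset.mem_image_of_mem _ hy))]
    simp only
    rw [e1, e2, hc g (a t) (by rw [← h1 s g fun y hy => hg y (Finset.mem_union_left _ hy), hs])
      (by rw [← h1 t _ (ha t), ht])]
  · exact hcD _ fun y hy => by rw [← ha t y hy, ht y hy]
  · exact h3 g g hg fun _ _ => rfl

end general

section groups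
variable {P : Type*} [Group P]

/-- `d` is additive on the subgroup `V` -/
def AddOn (d : P → ZMod 2) (V : Subgroup P) : Prop :=
  ∀ a ∈ V, ∀ b ∈ V, d (a * b) = d a + d b

theorem AddOn.one {d : P → ZMod 2} {V : Subgroup P} (h : AddOn d V) : d 1 = 0 := by
  have := h 1 V.one_mem 1 V.one_mem
  rw [mul_one] at this
  exact left_eq_add.1 this

theorem AddOn.mono {d : P → ZMod 2} {V V' : Subgroup P} (h : AddOn d V) (hV : V' ≤ V) :
    AddOn d V' := fun a ha b hb => h a (hV ha) b (hV hb)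

theorem AddOn.conj {d : P → ZMod 2} {V : Subgroup P} (h : AddOn d V) {k w : P} (hk : k ∈ V)
    (hw : w ∈ V) : d (k⁻¹ * w * k) = d w := by
  have h1 := h k⁻¹ (V.inv_mem hk) k hk
  rw [inv_mul_cancel, h.one] at h1
  rw [h _ (V.mul_mem (V.inv_mem hk) hw) k hk, h _ (V.inv_mem hk) w hw, add_right_comm, ← h1,
    zero_add]

/-- gluing three characters along a triangle of subgroups -/
theorem triangle (W W0 W1 W2 : Subgroup P) (c0 c1 c2 : P → ZMod 2)
    (h0 : AddOn c0 W0) (h1 : AddOn c1 W1) (h2 : AddOn c2 W2)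
    (h01 : ∀ a ∈ W0, a ∈ W1 → c0 a = c1 a) (h02 : ∀ a ∈ W0, a ∈ W2 → c0 a = c2 a)
    (h12 : ∀ a ∈ W1, a ∈ W2 → c1 a = c2 a)
    (g : ∀ a ∈ W, ∃ e ∈ W2, e⁻¹ * a ∈ W0 ∧ e⁻¹ * a ∈ W1)
    (g0 : ∀ a ∈ W0, ∃ e ∈ W2, e ∈ W0 ∧ e⁻¹ * a ∈ W1)
    (g1 : ∀ a ∈ W1, ∃ e ∈ W2, e ∈ W1 ∧ e⁻¹ * a ∈ W0)
    (g2 : ∀ a ∈ W2, ∃ e ∈ W2, e ∈ W0 ∧ e⁻¹ * a ∈ W1) :
    ∃ c : P → ZMod 2, AddOn c W ∧ ∀ a ∈ W, a ∈ W2 → c a = c2 a := by
  -- the relation `R a ε`: some decomposition gives the value `ε`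
  let R : P → ZMod 2 → Prop := fun a ε =>
    ∃ e ∈ W2, ∃ s ∈ W0, s ∈ W1 ∧ a = e * s ∧ ε = c2 e + c0 s
  have huniq : ∀ a ε ε', R a ε → R a ε' → ε = ε' := by
    rintro a ε ε' ⟨e, he, s, hs0, hs1, ha, rfl⟩ ⟨e', he', s', hs0', hs1', ha', rfl⟩
    have hx : e'⁻¹ * e = s' * s⁻¹ := by
      rw [inv_mul_eq_iff_eq_mul, ← mul_assoc, ← ha', ha, mul_inv_cancel_right]
    have hx2 : e'⁻¹ * e ∈ W2 := W2.mul_mem (W2.inv_mem he') he
    have hx0 : e'⁻¹ * e ∈ W0 := hx ▸ W0.mul_mem hs0' (W0.inv_mem hs0)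
    have e1 := h2 e' he' _ hx2
    have e2 := h0 _ hx0 s hs0
    rw [mul_inv_cancel_left] at e1
    rw [h02 _ hx0 hx2] at e2
    rw [hx, inv_mul_cancel_right, ← hx] at e2
    rw [e1, e2, add_assoc]
  have hS : ∀ a ε s, R a ε → s ∈ W0 → s ∈ W1 → R (a * s) (ε + c0 s) := by
    rintro a ε s' ⟨e, he, s, hs0, hs1, rfl, rfl⟩ h0' h1'
    exact ⟨e, he, s * s', W0.mul_mem hs0 h0', W1.mul_mem hs1 h1', mul_assoc _ _ _, by
      rw [h0 s hs0 s' h0', add_assoc]⟩
  have hA : ∀ a ε b, R a ε → b ∈ W0 → b ∈ W2 → R (a * b) (ε + c2 b) := by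
    rintro a ε b ⟨e, he, s, hs0, hs1, rfl, rfl⟩ h0' h2'
    obtain ⟨e', he2, he0, he1⟩ := g0 _ (W0.mul_mem hs0 h0')
    have hx0 : e'⁻¹ * (s * b) ∈ W0 := W0.mul_mem (W0.inv_mem he0) (W0.mul_mem hs0 h0')
    refine ⟨e * e', W2.mul_mem he he2, _, hx0, he1, by group, ?_⟩
    have e1 := h0 e' he0 _ hx0
    rw [mul_inv_cancel_left, h0 s hs0 b h0', h02 b h0' h2', h02 e' he0 he2] at e1
    rw [h2 e he e' he2, add_assoc, add_assoc, e1]
  have hB : ∀ a ε b, R a ε → b ∈ W1 → b ∈ W2 → R (a * b) (ε + c2 b) := by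
    rintro a ε b ⟨e, he, s, hs0, hs1, rfl, rfl⟩ h1' h2'
    obtain ⟨e', he2, he1, he0⟩ := g1 _ (W1.mul_mem hs1 h1')
    have hx1 : e'⁻¹ * (s * b) ∈ W1 := W1.mul_mem (W1.inv_mem he1) (W1.mul_mem hs1 h1')
    refine ⟨e * e', W2.mul_mem he he2, _, he0, hx1, by group, ?_⟩
    have e1 := h1 e' he1 _ hx1
    rw [mul_inv_cancel_left, h1 s hs1 b h1', h12 b h1' h2', h12 e' he1 he2, ← h01 s hs0 hs1,
      ← h01 _ he0 hx1] at e1
    rw [h2 e he e' he2, add_assoc, add_assoc, e1]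
  have hex : ∀ a ∈ W, ∃ ε, R a ε := by
    intro a ha
    obtain ⟨e, he, h0', h1'⟩ := g a ha
    exact ⟨_, e, he, _, h0', h1', by group, rfl⟩
  have hmul : ∀ a ε b ε', R a ε → R b ε' → R (a * b) (ε + ε') := by
    rintro a ε b ε' ha ⟨e, he, s, hs0, hs1, rfl, rfl⟩
    obtain ⟨e', he2, he0, he1⟩ := g2 e he
    have hx2 : e'⁻¹ * e ∈ W2 := W2.mul_mem (W2.inv_mem he2) he
    have := hS _ _ s (hB _ _ _ (hA _ _ e' ha he0 he2) he1 hx2) hs0 hs1
    have e1 := h2 e' he2 _ hx2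
    rw [mul_inv_cancel_left] at e1
    rw [e1]
    convert this using 1
    · group
    · ring
  choose! c hc using hex
  refine ⟨c, fun a ha b hb => huniq _ _ _ (hc _ (W.mul_mem ha hb))
    (hmul _ _ _ _ (hc a ha) (hc b hb)), fun a ha ha2 => huniq _ _ _ (hc a ha)
    ⟨a, ha2, 1, W0.one_mem, W1.one_mem, (mul_one a).symm, by rw [h0.one, add_zero]⟩⟩

/-- extension of a character from a submonoid to the ambient group -/
theorem chunk (S : Submonoid P) (d : P → ZMod 2) (hd : ∀ a ∈ S, ∀ b ∈ S, d (a * b) = d a + d b)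
    (hU2 : ∀ p q u : P, u * p ∈ S → u * q ∈ S → ∃ w : P, w⁻¹ * p ∈ S ∧ w⁻¹ * q ∈ S ∧
      ∀ u' : P, u' * p ∈ S → u' * q ∈ S → u' * w ∈ S)
    (hU3 : ∀ p q r : P, (∃ u, u * p ∈ S ∧ u * q ∈ S) → (∃ u, u * q ∈ S ∧ u * r ∈ S) →
      (∃ u, u * p ∈ S ∧ u * r ∈ S) → ∃ u, u * p ∈ S ∧ u * q ∈ S ∧ u * r ∈ S)
    (hFr : ∀ p q r s : P, ∃ c : P, (∃ u, u * p ∈ S ∧ u * c ∈ S) ∧ (∃ u, u * q ∈ S ∧ u * c ∈ S) ∧
      (∃ u, u * r ∈ S ∧ u * c ∈ S) ∧ ∃ u, u * s ∈ S ∧ u * c ∈ S) :
    ∃ δ : P → ZMod 2, (∀ a b, δ (a * b) = δ a + δ b) ∧ ∀ a ∈ S, δ a = d a := by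
  have two : ∀ x : ZMod 2, x + x = 0 := by decide
  let C : P → P → Prop := fun p q => ∃ u, u * p ∈ S ∧ u * q ∈ S
  have Csymm : ∀ p q, C p q → C q p := fun p q ⟨u, h1, h2⟩ => ⟨u, h2, h1⟩
  have h0 : ∀ p q : P, ∃ ε : ZMod 2, ∀ u, u * p ∈ S → u * q ∈ S → ε = d (u * p) + d (u * q) := by
    intro p q
    by_cases h : C p q
    · obtain ⟨u, h1, h2⟩ := h
      obtain ⟨w, hp, hq, hw⟩ := hU2 p q u h1 h2
      refine ⟨d (w⁻¹ * p) + d (w⁻¹ * q), fun u' h1' h2' => ?_⟩
      have e1 := hd _ (hw u' h1' h2') _ hp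
      have e2 := hd _ (hw u' h1' h2') _ hq
      rw [mul_assoc, mul_inv_cancel_left] at e1 e2
      rw [e1, e2]
      linear_combination (exp := 1) - two (d (u' * w))
    · exact ⟨0, fun u h1 h2 => absurd ⟨u, h1, h2⟩ h⟩
  choose j hj using h0
  have jtri : ∀ p q r, C p q → C q r → C p r → j p q + j q r = j p r := by
    intro p q r h1 h2 h3
    obtain ⟨u, hp, hq, hr⟩ := hU3 p q r h1 h2 h3
    rw [hj p q u hp hq, hj q r u hq hr, hj p r u hp hr]
    linear_combination (exp := 1) two (d (u * q))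
  have jsymm : ∀ p q, C p q → j p q = j q p := by
    rintro p q ⟨u, hp, hq⟩
    rw [hj p q u hp hq, hj q p u hq hp, add_comm]
  have jinv : ∀ g p q, C p q → C (g * p) (g * q) ∧ j (g * p) (g * q) = j p q := by
    rintro g p q ⟨u, hp, hq⟩
    have hp' : u * g⁻¹ * (g * p) ∈ S := by rwa [mul_assoc, inv_mul_cancel_left]
    have hq' : u * g⁻¹ * (g * q) ∈ S := by rwa [mul_assoc, inv_mul_cancel_left]
    refine ⟨⟨_, hp', hq'⟩, ?_⟩
    rw [hj _ _ _ hp' hq', hj p q u hp hq, mul_assoc, mul_assoc, inv_mul_cancel_left,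
      inv_mul_cancel_left]
  have h1 : ∀ p q : P, ∃ ε : ZMod 2, ∀ c, C p c → C q c → ε = j p c + j q c := by
    intro p q
    obtain ⟨c, hp, hq, -⟩ := hFr p q p q
    refine ⟨j p c + j q c, fun c' hp' hq' => ?_⟩
    obtain ⟨c'', a1, a2, a3, a4⟩ := hFr p q c c'
    rw [← jtri p c'' c a1 (Csymm _ _ a3) hp, ← jtri q c'' c a2 (Csymm _ _ a3) hq,
      ← jtri p c'' c' a1 (Csymm _ _ a4) hp', ← jtri q c'' c' a2 (Csymm _ _ a4) hq']
    linear_combination (exp := 1) two (j c'' c) - two (j c'' c')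
  choose J hJ using h1
  refine ⟨fun g => J 1 g, fun a b => ?_, fun a ha => ?_⟩
  · obtain ⟨c, a1, a2, a3, -⟩ := hFr 1 a (a * b) 1
    have b1 := jinv a⁻¹ _ _ a2
    have b2 := jinv a⁻¹ _ _ a3
    rw [inv_mul_cancel] at b1
    rw [inv_mul_cancel_left] at b2
    simp only
    rw [hJ 1 (a * b) c a1 a3, hJ 1 a c a1 a2, hJ 1 b _ b1.1 b2.1, b1.2, b2.2]
    linear_combination (exp := 1) - two (j a c)
  · obtain ⟨c, a1, a2, -⟩ := hFr 1 a 1 1
    have h1S : (1 : P) * 1 ∈ S := by rw [one_mul]; exact S.one_mem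
    have haS : 1 * a ∈ S := by rwa [one_mul]
    have hd1 := hd 1 S.one_mem 1 S.one_mem
    rw [mul_one] at hd1
    simp only
    rw [hJ 1 a c a1 a2, jsymm a c a2, jtri 1 c a a1 (Csymm _ _ a2) ⟨1, h1S, haS⟩,
      hj 1 a 1 h1S haS, one_mul, one_mul, left_eq_add.1 hd1, zero_add]

end groups

end Pool.Agent.P.MP_859560_lc.Desc
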