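import Mathlib

namespace Pool.Agent.P.MP_859560_lc.Desc

open Classical

/-- free groups are residually finite -/
theorem res_finite {α : Type} (w : FreeGroup α) (hw : w ≠ 1) :
    ∃ (Q : Type) (_ : Group Q) (_ : Finite Q) (f : FreeGroup α →* Q), f w ≠ 1 := by
  obtain ⟨L, rfl⟩ := Quot.exists_rep w
  let S : Set (FreeGroup α) := FreeGroup.mk '' {L' | L' <:+ L}
  have hS : S.Finite := by
    refine Set.Finite.image _ ((L.tails.finite_toSet).subset fun L' h => ?_)
    simpa using h
  have : Finite S := hS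
  have h0 : ∀ a : α, ∃ σ : Equiv.Perm S, ∀ s s' : S, s'.1 = FreeGroup.of a * s.1 → σ s = s' := by
    intro a
    let e : {s : S // FreeGroup.of a * s.1 ∈ S} ≃ {s : S // (FreeGroup.of a)⁻¹ * s.1 ∈ S} :=
      { toFun := fun s => ⟨⟨_, s.2⟩, by simp⟩
        invFun := fun s => ⟨⟨_, s.2⟩, by simp⟩
        left_inv := fun s => by ext; simp
        right_inv := fun s => by ext; simp }
    refine ⟨e.extendSubtype, fun s s' h => ?_⟩
    rw [e.extendSubtype_apply_of_mem s (h ▸ s'.2)]
    exact Subtype.ext h.symm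
  choose σ hσ using h0
  have h1 : (1 : FreeGroup α) ∈ S := ⟨[], List.nil_suffix, rfl⟩
  have key : ∀ (L' : List (α × Bool)) (h : L' <:+ L),
      FreeGroup.lift σ (FreeGroup.mk L') ⟨1, h1⟩ = ⟨FreeGroup.mk L', L', h, rfl⟩ := by
    intro L'
    induction L' with
    | nil =>
      intro h
      conv_lhs => rw [← FreeGroup.one_eq_mk, map_one]
      rfl
    | cons x L'' ih =>
      intro h
      have h' : L'' <:+ L := (List.suffix_cons x L'').trans h
      obtain ⟨a, b⟩ := x
      cases b with
      | true =>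
        have e : FreeGroup.mk ((a, true) :: L'') = FreeGroup.of a * FreeGroup.mk L'' := rfl
        conv_lhs => rw [e]
        rw [map_mul, Equiv.Perm.mul_apply, ih h', FreeGroup.lift_apply_of]
        exact hσ a _ _ e
      | false =>
        have e : FreeGroup.mk ((a, false) :: L'') = (FreeGroup.of a)⁻¹ * FreeGroup.mk L'' := rfl
        conv_lhs => rw [e]
        rw [map_mul, Equiv.Perm.mul_apply, ih h', map_inv, FreeGroup.lift_apply_of,
          Equiv.Perm.inv_eq_iff_eq]
        exact (hσ a _ _ (by simp only [e, mul_inv_cancel_left])).symm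
  refine ⟨Equiv.Perm S, inferInstance, inferInstance, FreeGroup.lift σ, fun h => hw ?_⟩
  have := key L List.suffix_rfl
  rw [FreeGroup.quot_mk_eq_mk] at h
  rw [h] at this
  exact (congrArg Subtype.val this).symm

/-- the free group on the finite binary strings -/
abbrev F := FreeGroup (List Bool)

instance : Countable F := by
  have : Function.Surjective (FreeGroup.mk : List (List Bool × Bool) → F) := Quot.exists_rep
  exact this.countable

/-- kill the generators of length at least `n` -/
noncomputable def π (n : ℕ) : F →* F :=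
  FreeGroup.lift fun v => if v.length < n then FreeGroup.of v else 1

theorem π_of (n : ℕ) (v : List Bool) :
    π n (FreeGroup.of v) = if v.length < n then FreeGroup.of v else 1 :=
  FreeGroup.lift_apply_of

theorem π_π {n m : ℕ} (h : n ≤ m) (φ : F) : π n (π m φ) = π n φ := by
  have : (π n).comp (π m) = π n := by
    ext v
    simp only [MonoidHom.comp_apply, π_of]
    split_ifs with h1 h2 h2
    · rw [π_of, if_pos h2]
    · rw [π_of, if_neg h2]
    · omega
    · exact map_one _
  exact DFunLike.congr_fun this φ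

/-- the inverse limit of the finitely generated free groups -/
def P0 : Subgroup (ℕ → F) where
  carrier := {g | ∀ n m, n ≤ m → π n (g m) = g n}
  one_mem' := fun n _ _ => map_one (π n)
  mul_mem' := fun {a b} ha hb n m h => by
    rw [Pi.mul_apply, Pi.mul_apply, map_mul, ha n m h, hb n m h]
  inv_mem' := fun {a} ha n m h => by rw [Pi.inv_apply, Pi.inv_apply, map_inv, ha n m h]

/-- the level `n` coordinate -/
def ev (n : ℕ) : P0 →* F := (Pi.evalMonoidHom (fun _ : ℕ => F) n).comp P0.subtype

theorem π_ev {n m : ℕ} (h : n ≤ m) (g : P0) : π n (ev m g) = ev n g := g.2 n m h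

theorem ev_ext {g h : P0} (e : ∀ n, ev n g = ev n h) : g = h := Subtype.ext (funext e)

theorem ev_mono {n m : ℕ} (h : n ≤ m) {g g' : P0} (e : ev m g = ev m g') : ev n g = ev n g' := by
  rw [← π_ev h, e, π_ev h]

theorem ev_one_mono {n m : ℕ} (h : n ≤ m) {g : P0} (e : ev m g = 1) : ev n g = 1 := by
  rw [← π_ev h, e, map_one]

/-- the free group inside the inverse limit -/
noncomputable def ι : F →* P0 where
  toFun φ := ⟨fun n => π n φ, fun _ _ h => π_π h φ⟩
  map_one' := Subtype.ext (funext fun n => map_one (π n))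
  map_mul' a b := Subtype.ext (funext fun n => map_mul (π n) a b)

theorem ev_ι (n : ℕ) (φ : F) : ev n (ι φ) = π n φ := rfl

theorem eq_one_of_sq {g : P0} (h : g * g = 1) : g = 1 := by
  refine ev_ext fun n => ?_
  have h1 : ev n g ^ 2 = 1 ^ 2 := by rw [sq, ← map_mul, h, map_one, one_pow]
  rw [map_one]
  exact pow_left_injective (by norm_num : (2 : ℕ) ≠ 0) h1

theorem finite_hom (Γ Q : Type*) [Group Γ] [Group.FG Γ] [Group Q] [Finite Q] :
    Finite (Γ →* Q) := by
  obtain ⟨S, hS, hfin⟩ := Group.fg_iff.1 ‹Group.FG Γ›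
  have : Finite S := hfin
  refine Finite.of_injective (fun (f : Γ →* Q) (s : S) => f s.1) fun f g h => ?_
  exact MonoidHom.eq_of_eqOn_dense hS fun s hs => congrFun h ⟨s, hs⟩

/-- a finitely generated subgroup of the inverse limit embeds at a finite level -/
theorem exists_level_injective {Γ : Type} [Group Γ] [Group.FG Γ] (i : Γ →* P0)
    (hi : Function.Injective i) : ∃ n, Function.Injective ((ev n).comp i) := by
  let R : ℕ → Subgroup F := fun n => ((ev n).comp i).range
  have hfin : ∀ n, Finite (IsFreeGroup.Generators (R n)) := by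
    intro n
    have h1 := finite_hom (R n) (Multiplicative (ZMod 2))
    have h2 : Finite (IsFreeGroup.Generators (R n) → Multiplicative (ZMod 2)) :=
      Finite.of_equiv _ IsFreeGroup.lift.symm
    by_contra h3
    rw [not_finite_iff_infinite] at h3
    exact not_finite (IsFreeGroup.Generators (R n) → Multiplicative (ZMod 2))
  let r : ℕ → ℕ := fun n => Nat.card (IsFreeGroup.Generators (R n))
  have hcard : ∀ (n : ℕ) (Q : Type) [Group Q], Nat.card (R n →* Q) = Nat.card Q ^ r n := by
    intro n Q _
    have := hfin n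
    rw [← Nat.card_congr IsFreeGroup.lift, Nat.card_fun]
  have hbdd : ∀ n, r n ≤ Nat.card (Γ →* Multiplicative (ZMod 2)) := by
    intro n
    have h1 := finite_hom Γ (Multiplicative (ZMod 2))
    have h2 : Nat.card (R n →* Multiplicative (ZMod 2)) ≤
        Nat.card (Γ →* Multiplicative (ZMod 2)) :=
      Nat.card_le_card_of_injective (fun f => f.comp ((ev n).comp i).rangeRestrict)
        fun f g h => (MonoidHom.cancel_right ((ev n).comp i).rangeRestrict_surjective).1 h
    rw [hcard] at h2
    have h3 : Nat.card (Multiplicative (ZMod 2)) = 2 := by simp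
    rw [h3] at h2
    exact (Nat.lt_two_pow_self).le.trans h2
  obtain ⟨n0, hn0⟩ : ∃ n0, ∀ m, r m ≤ r n0 := by
    have hb : BddAbove (Set.range r) := ⟨_, by rintro _ ⟨n, rfl⟩; exact hbdd n⟩
    obtain ⟨n0, h⟩ := Nat.sSup_mem (Set.range_nonempty r) hb
    exact ⟨n0, fun m => h ▸ le_csSup hb ⟨m, rfl⟩⟩
  refine ⟨n0, (injective_iff_map_eq_one _).2 fun γ hγ => ?_⟩
  by_contra hne
  have h1 : ∃ m, n0 ≤ m ∧ ev m (i γ) ≠ 1 := by
    by_contra h
    push Not at h
    apply hne
    apply hi
    rw [map_one]
    refine ev_ext fun n => ?_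
    rw [map_one]
    exact ev_one_mono (le_max_left n n0) (h _ (le_max_right n n0))
  obtain ⟨m, hm, h1⟩ := h1
  obtain ⟨Q, _, _, f, hf⟩ := res_finite _ h1
  let p : R m →* R n0 := ((π n0).comp (R m).subtype).codRestrict (R n0) (by
    rintro ⟨_, γ', rfl⟩
    exact ⟨γ', (π_ev hm _).symm⟩)
  have hp : Function.Surjective p := by
    rintro ⟨_, γ', rfl⟩
    exact ⟨⟨_, γ', rfl⟩, Subtype.ext (π_ev hm _)⟩
  have h2 := finite_hom (R m) Q
  have h3 : Function.Injective fun g : R n0 →* Q => g.comp p :=
    fun g g' h => (MonoidHom.cancel_right hp).1 h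
  have h4 : Nat.card (R m →* Q) ≤ Nat.card (R n0 →* Q) := by
    rw [hcard, hcard]
    exact Nat.pow_le_pow_right Nat.card_pos (hn0 m)
  obtain ⟨g, hg⟩ := (h3.bijective_of_nat_card_le h4).2 (f.comp (R m).subtype)
  have h5 := DFunLike.congr_fun hg ⟨_, γ, rfl⟩
  have h6 : p ⟨_, γ, rfl⟩ = 1 := Subtype.ext ((π_ev hm _).trans hγ)
  rw [MonoidHom.comp_apply, h6, map_one] at h5
  exact hf h5.symm

/-- reduction from `ZMod 4` to `ZMod 2` -/
def red : ZMod 4 →+ ZMod 2 := (ZMod.castHom (by norm_num : 2 ∣ 4) (ZMod 2)).toAddMonoidHom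

theorem red_surj : Function.Surjective red := by
  intro x
  revert x
  decide

theorem lift_fg {Γ : Type} [Group Γ] [Group.FG Γ] (i : Γ →* P0) (hi : Function.Injective i)
    (χ : Γ →* Multiplicative (ZMod 2)) :
    ∃ l : Γ →* Multiplicative (ZMod 4), ∀ a, red (l a).toAdd = (χ a).toAdd := by
  obtain ⟨n, hn⟩ := exists_level_injective i hi
  let e : Γ ≃* ((ev n).comp i).range := MonoidHom.ofInjective hn
  choose s hs using red_surj
  let l := IsFreeGroup.lift (G := ((ev n).comp i).range) fun b =>
    Multiplicative.ofAdd (s (χ (e.symm (IsFreeGroup.of b))).toAdd)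
  have h1 : (AddMonoidHom.toMultiplicative red).comp l = χ.comp e.symm.toMonoidHom := by
    refine IsFreeGroup.ext_hom fun b => ?_
    simp only [MonoidHom.comp_apply, l, IsFreeGroup.lift_of]
    exact congrArg Multiplicative.ofAdd (hs _)
  refine ⟨l.comp e.toMonoidHom, fun a => ?_⟩
  have := DFunLike.congr_fun h1 (e a)
  simp only [MonoidHom.comp_apply, MulEquiv.coe_toMonoidHom, MulEquiv.symm_apply_apply] at this
  exact congrArg Multiplicative.toAdd this

/-- characters of order two of subgroups of the inverse limit lift to `ZMod 4` -/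
theorem lift_four {H : Type} [Group H] (i : H →* P0) (hi : Function.Injective i)
    (χ : H →* Multiplicative (ZMod 2)) :
    ∃ l : H → ZMod 4, (∀ a b, l (a * b) = l a + l b) ∧ ∀ a, red (l a) = (χ a).toAdd := by
  have h0 : ∀ s : Finset H, ∃ l : H → ZMod 4, (∀ a ∈ s, ∀ b ∈ s, l (a * b) = l a + l b) ∧
      ∀ a ∈ s, red (l a) = (χ a).toAdd := by
    intro s
    obtain ⟨l, hl⟩ := lift_fg (i.comp (Subgroup.closure (s : Set H)).subtype)
      (hi.comp Subtype.val_injective) (χ.comp (Subgroup.closure (s : Set H)).subtype)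
    refine ⟨fun a => if h : a ∈ Subgroup.closure (s : Set H) then (l ⟨a, h⟩).toAdd else 0,
      fun a ha b hb => ?_, fun a ha => ?_⟩
    · have ha' : a ∈ Subgroup.closure (s : Set H) := Subgroup.subset_closure ha
      have hb' : b ∈ Subgroup.closure (s : Set H) := Subgroup.subset_closure hb
      simp only [dif_pos ha', dif_pos hb', dif_pos (Subgroup.mul_mem _ ha' hb')]
      rw [← toAdd_mul, ← map_mul]
      rfl
    · have ha' : a ∈ Subgroup.closure (s : Set H) := Subgroup.subset_closure ha
      simp only [dif_pos ha']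
      exact hl _
  choose l hl hl' using h0
  let U : Ultrafilter (Finset H) := Ultrafilter.of Filter.atTop
  have hU : ∀ a : H, ∀ᶠ s in (U : Filter (Finset H)), a ∈ s := fun a =>
    (Ultrafilter.of_le _) (Filter.mem_of_superset (Filter.mem_atTop ({a} : Finset H)) fun s hs =>
      Finset.singleton_subset_iff.1 (show {a} ⊆ s from hs))
  have h1 : ∀ a : H, ∃ c : ZMod 4, ∀ᶠ s in (U : Filter (Finset H)), l s a = c := by
    intro a
    obtain ⟨c, hc⟩ := Ultrafilter.eq_pure_of_finite (U.map fun s => l s a)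
    refine ⟨c, ?_⟩
    have : {c} ∈ U.map fun s => l s a := by rw [hc]; exact rfl
    exact this
  choose c hc using h1
  refine ⟨c, fun a b => ?_, fun a => ?_⟩
  · obtain ⟨s, h1, h2, h3, h4, h5⟩ :=
      ((hc (a * b)).and ((hc a).and ((hc b).and ((hU a).and (hU b))))).exists
    rw [← h1, ← h2, ← h3, hl s a h4 b h5]
  · obtain ⟨s, h1, h2⟩ := ((hc a).and (hU a)).exists
    rw [← h1, hl' s a h2]

end Pool.Agent.P.MP_859560_lc.Desc
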