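import Mathlib

namespace Pool.Agent.P.MP_859560_lc

open Classical

/-- faithful action whose image is closed for pointwise convergence -/
structure ClosedAct (T X : Type*) [Monoid T] [MulAction T X] : Prop where
  faith : ∀ s t : T, (∀ a : X, s • a = t • a) → s = t
  closed : ∀ f : X → X, (∀ F : Finset X, ∃ t : T, ∀ a ∈ F, f a = t • a) →
    ∃ t : T, ∀ a, f a = t • a

/-- the units are dense -/
def DenseUnits (T X : Type*) [Monoid T] [MulAction T X] : Prop :=
  ∀ (t : T) (F : Finset X), ∃ g : Tˣ, ∀ a ∈ F, t • a = (g : T) • a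

theorem exists_exhaust (X : Type*) [Countable X] :
    ∃ A : ℕ → Finset X, Monotone A ∧ ∀ a, ∃ n, a ∈ A n := by
  obtain ⟨f, hf⟩ := Countable.exists_injective_nat X
  have hfin : ∀ n : ℕ, (f ⁻¹' (Set.Iio n)).Finite := fun n =>
    (Set.finite_Iio n).preimage hf.injOn
  refine ⟨fun n => (hfin n).toFinset, ?_, ?_⟩
  · intro m n hmn a ha
    simp only [Set.Finite.mem_toFinset, Set.mem_preimage, Set.mem_Iio] at ha ⊢
    omega
  · intro a
    exact ⟨f a + 1, by simp⟩

section general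
variable {T X : Type*} [Monoid T] [MulAction T X]

theorem unit_inv_smul (g : Tˣ) (a : X) : ((g⁻¹ : Tˣ) : T) • (g : T) • a = a := by
  rw [← mul_smul, Units.inv_mul, one_smul]

theorem unit_smul_inv (g : Tˣ) (a : X) : (g : T) • ((g⁻¹ : Tˣ) : T) • a = a := by
  rw [← mul_smul, Units.mul_inv, one_smul]

theorem exists_limit (h : ClosedAct T X) (p : ℕ → T)
    (hp : ∀ x : X, ∃ n, ∀ m, n ≤ m → p (m + 1) • x = p m • x) :
    ∃ s : T, ∀ x : X, ∃ n, ∀ m, n ≤ m → s • x = p m • x := by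
  choose N hN using hp
  have key : ∀ x m, N x ≤ m → p m • x = p (N x) • x := by
    intro x m hm
    induction m, hm using Nat.le_induction with
    | base => rfl
    | succ k hk ih => rw [hN x k hk, ih]
  obtain ⟨s, hs⟩ := h.closed (fun x => p (N x) • x) (by
    intro F
    refine ⟨p (F.sup N), fun a ha => ?_⟩
    exact (key a _ (Finset.le_sup (f := N) ha)).symm)
  exact ⟨s, fun x => ⟨N x, fun m hm => by rw [← hs x, key x m hm]⟩⟩

/-- partial products -/
def pprod (u : ℕ → T) (k : ℕ) : ℕ → T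
  | 0 => 1
  | m + 1 => pprod u k m * u (k + m)

theorem pprod_succ' (u : ℕ → T) (k m : ℕ) : pprod u k (m + 1) = u k * pprod u (k + 1) m := by
  induction m with
  | zero => simp [pprod]
  | succ m ih =>
    rw [pprod, ih, pprod, mul_assoc]
    congr 3
    omega

theorem exists_inf_prod (h : ClosedAct T X) (u : ℕ → T)
    (hu : ∀ x : X, ∃ n, ∀ m, n ≤ m → u m • x = x) :
    ∃ r : ℕ → T, (∀ k, r k = u k * r (k + 1)) ∧
      ∀ k (x : X), (∀ m, k ≤ m → u m • x = x) → r k • x = x := by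
  have h1 : ∀ k, ∃ s : T, ∀ x : X, ∃ n, ∀ m, n ≤ m → s • x = pprod u k m • x := by
    intro k
    apply exists_limit h
    intro x
    obtain ⟨n, hn⟩ := hu x
    refine ⟨n, fun m hm => ?_⟩
    rw [pprod, mul_smul, hn _ (by omega)]
  choose r hr using h1
  refine ⟨r, fun k => h.faith _ _ fun x => ?_, fun k x hx => ?_⟩
  · obtain ⟨n, hn⟩ := hr k x
    obtain ⟨n', hn'⟩ := hr (k + 1) x
    rw [hn (n + n' + 1) (by omega), pprod_succ', mul_smul, mul_smul, hn' (n + n') (by omega)]
  · obtain ⟨n, hn⟩ := hr k x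
    rw [hn n le_rfl]
    clear hn
    induction n with
    | zero => simp [pprod]
    | succ n ih => rw [pprod, mul_smul, hx _ (by omega), ih]

theorem smul_inj (hd : DenseUnits T X) (t : T) {a b : X} (hab : t • a = t • b) : a = b := by
  obtain ⟨g, hg⟩ := hd t {a, b}
  rw [hg a (by simp), hg b (by simp)] at hab
  have := congrArg (fun x => ((g⁻¹ : Tˣ) : T) • x) hab
  simpa only [unit_inv_smul] using this

theorem left_cancel (h : ClosedAct T X) (hd : DenseUnits T X) {v s t : T} (hst : v * s = v * t) :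
    s = t :=
  h.faith _ _ fun a => smul_inj hd v (by rw [← mul_smul, ← mul_smul, hst])

/-- products growing to the left -/
def dprod (t : ℕ → T) (k : ℕ) : ℕ → T
  | 0 => 1
  | n + 1 => if k ≤ n then t n * dprod t k n else 1

theorem dprod_self (t : ℕ → T) (k : ℕ) : dprod t k k = 1 := by
  cases k with
  | zero => rfl
  | succ k => simp [dprod]

theorem dprod_shift (t : ℕ → T) (k n : ℕ) (hn : k + 1 ≤ n) :
    dprod t k n = dprod t (k + 1) n * t k := by
  induction n, hn using Nat.le_induction with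
  | base => rw [dprod, if_pos le_rfl, dprod_self, dprod_self, mul_one, one_mul]
  | succ n hn ih => rw [dprod, dprod, if_pos (by omega), if_pos hn, ih, mul_assoc]

/-- direct limits -/
theorem exists_direct_limit [Countable X] (h : ClosedAct T X) (hd : DenseUnits T X) (t : ℕ → T) :
    ∃ e : ℕ → T, ∀ k, e k = e (k + 1) * t k := by
  obtain ⟨A, hA, hA'⟩ := exists_exhaust X
  have h0 := fun n => hd (t n)
    ((Finset.range (n + 1)).biUnion fun k => (A n).image fun x => dprod t k n • x)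
  choose c hc using h0
  let g : ℕ → Tˣ := fun n => Nat.rec 1 (fun n g => g * (c n)⁻¹) n
  have hg : ∀ n, g (n + 1) = g n * (c n)⁻¹ := fun n => rfl
  have h1 : ∀ k, ∃ s : T, ∀ x : X, ∃ n, ∀ m, n ≤ m → s • x = ((g m).val * dprod t k m) • x := by
    intro k
    apply exists_limit h
    intro x
    obtain ⟨n, hn⟩ := hA' x
    refine ⟨n + k, fun m hm => ?_⟩
    have hx : x ∈ A m := hA (by omega : n ≤ m) hn
    rw [dprod, if_pos (by omega), hg, Units.val_mul, mul_smul, mul_smul, mul_smul, mul_smul,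
      hc m (dprod t k m • x), unit_inv_smul]
    simp only [Finset.mem_biUnion, Finset.mem_range, Finset.mem_image]
    exact ⟨k, by omega, x, hx, rfl⟩
  choose e he using h1
  refine ⟨e, fun k => h.faith _ _ fun x => ?_⟩
  obtain ⟨n, hn⟩ := he k x
  obtain ⟨n', hn'⟩ := he (k + 1) (t k • x)
  rw [hn (n + n' + k + 1) (by omega), mul_smul (e (k + 1)), hn' (n + n' + k + 1) (by omega),
    dprod_shift t k _ (by omega), ← mul_smul, mul_assoc]

/-- fusion for the conditions `w * (pointwise stabiliser of F)` -/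
theorem fusion [Countable X] (h : ClosedAct T X) {ι : Type*} [Countable ι] [Nonempty ι]
    (D : ι → T → Finset X → Prop)
    (hD : ∀ i w F, ∃ u : T, (∀ a ∈ F, u • a = a) ∧ D i (w * u) F) :
    ∃ v : T, ∀ i, ∃ w F, ∃ u : T, D i w F ∧ (∀ a ∈ F, u • a = a) ∧ v = w * u := by
  obtain ⟨A, hA, hA'⟩ := exists_exhaust X
  obtain ⟨σ, hσ⟩ := exists_surjective_nat ι
  choose c hc hc' using hD
  let w : ℕ → T := fun n => Nat.rec 1 (fun n w => w * c (σ n) w (A n)) n
  have hw : ∀ n, w (n + 1) = w n * c (σ n) (w n) (A n) := fun n => rfl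
  obtain ⟨r, hr, hr'⟩ := exists_inf_prod h (fun n => c (σ n) (w n) (A n)) (by
    intro x
    obtain ⟨n, hn⟩ := hA' x
    exact ⟨n, fun m hm => hc _ _ _ x (hA hm hn)⟩)
  have hv : ∀ n, r 0 = w n * r n := by
    intro n
    induction n with
    | zero => exact (one_mul _).symm
    | succ n ih => rw [hw, mul_assoc, ← hr n, ih]
  refine ⟨r 0, fun i => ?_⟩
  obtain ⟨n, rfl⟩ := hσ i
  refine ⟨w (n + 1), A n, r (n + 1), hc' _ _ _, fun a ha => hr' _ _ fun m hm => ?_, hv (n + 1)⟩
  exact hc _ _ _ a (hA (by omega : n ≤ m) ha)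

end general

/-- Baire category for a closed family of maps -/
theorem baire_maps {E W ι : Type*} [Countable W] [Countable ι] [Nonempty E] (π : E → W → W)
    (hcl : ∀ f : W → W, (∀ F : Finset W, ∃ e, ∀ y ∈ F, f y = π e y) → ∃ e, ∀ y, f y = π e y)
    (K : ι → E → Prop) (hK : ∀ e, ∃ i, K i e) :
    ∃ i e₀, ∃ F₀ : Finset W, ∀ e, (∀ y ∈ F₀, π e y = π e₀ y) →
      ∀ F : Finset W, ∃ k, K i k ∧ ∀ y ∈ F, π k y = π e y := by
  by_contra hcon
  push Not at hcon
  choose c hc Fn hFn using hcon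
  obtain ⟨A, hA, hA'⟩ := exists_exhaust W
  obtain ⟨e0⟩ := ‹Nonempty E›
  have : Nonempty ι := ⟨(hK e0).choose⟩
  obtain ⟨σ, hσ⟩ := exists_surjective_nat ι
  let s : ℕ → E × Finset W := fun n => Nat.rec (e0, ∅)
    (fun n s => (c (σ n) s.1 s.2, s.2 ∪ Fn (σ n) s.1 s.2 ∪ A n)) n
  have hs1 : ∀ n, (s (n + 1)).1 = c (σ n) (s n).1 (s n).2 := fun n => rfl
  have hs2 : ∀ n, (s (n + 1)).2 = (s n).2 ∪ Fn (σ n) (s n).1 (s n).2 ∪ A n := fun n => rfl
  have key : ∀ n m, n ≤ m → (s n).2 ⊆ (s m).2 ∧ ∀ y ∈ (s n).2, π (s m).1 y = π (s n).1 y := by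
    intro n m hm
    induction m, hm using Nat.le_induction with
    | base => exact ⟨subset_rfl, fun _ _ => rfl⟩
    | succ m hm ih =>
      refine ⟨fun y hy => ?_, fun y hy => ?_⟩
      · rw [hs2]; simp [ih.1 hy]
      · rw [hs1, hc _ _ _ y (ih.1 hy), ih.2 y hy]
  choose N hN using hA'
  have hN' : ∀ y, y ∈ (s (N y + 1)).2 := fun y => by rw [hs2]; simp [hN y]
  obtain ⟨e, he⟩ := hcl (fun y => π (s (N y + 1)).1 y) (by
    intro F
    refine ⟨(s (F.sup N + 1)).1, fun y hy => ?_⟩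
    exact ((key _ _ (Nat.succ_le_succ (Finset.le_sup (f := N) hy))).2 y (hN' y)).symm)
  obtain ⟨i, hi⟩ := hK e
  obtain ⟨n, rfl⟩ := hσ i
  obtain ⟨y, hy, hne⟩ := hFn (σ n) (s n).1 (s n).2 e hi
  apply hne
  have hy' : y ∈ (s (n + 1)).2 := by rw [hs2]; simp [hy]
  rw [← hs1, ← he y, ← (key (n + 1) (n + 1 + (N y + 1)) (by omega)).2 y hy',
    ← (key (N y + 1) (n + 1 + (N y + 1)) (by omega)).2 y (hN' y)]

section main
variable {T : Type*} (W : Type*) [Monoid T] [MulAction T W]

/-- `r` lies in the closure of the left ideal generated by `v` -/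
def Loc (r v : T) : Prop := ∀ F : Finset W, ∃ u : T, ∀ y ∈ F, r • y = u • v • y

/-- `r` generates a minimal closed left ideal -/
def InR (r : T) : Prop := ∀ t : T, Loc W r (t * r)

variable {W}

theorem Loc.refl (v : T) : Loc W v v := fun _ => ⟨1, fun _ _ => (one_smul _ _).symm⟩

theorem Loc.trans {r s v : T} (h1 : Loc W r s) (h2 : Loc W s v) : Loc W r v := by
  intro F
  obtain ⟨u, hu⟩ := h1 F
  obtain ⟨u', hu'⟩ := h2 F
  exact ⟨u * u', fun y hy => by rw [hu y hy, hu' y hy, mul_smul]⟩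

theorem Loc.left (t v : T) : Loc W (t * v) v := fun _ => ⟨t, fun _ _ => mul_smul _ _ _⟩

theorem Loc.left' (t : T) : Loc W (1 * t) 1 := fun _ =>
  ⟨t, fun _ _ => by rw [one_mul, one_smul]⟩

theorem Loc.right {r v : T} (h : Loc W r v) (s : T) : Loc W (r * s) (v * s) := by
  intro F
  obtain ⟨u, hu⟩ := h (F.image fun y => s • y)
  exact ⟨u, fun y hy => by
    rw [mul_smul, mul_smul, hu _ (Finset.mem_image_of_mem _ hy)]⟩

theorem Loc.symm {r v : T} (hv : InR W v) (h : Loc W r v) : Loc W v r := by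
  intro F
  obtain ⟨u, hu⟩ := h F
  obtain ⟨u', hu'⟩ := hv u F
  exact ⟨u', fun y hy => by rw [hu' y hy, hu y hy, mul_smul]⟩

theorem Loc.ker {r v : T} (h : Loc W r v) {x y : W} (hxy : v • x = v • y) : r • x = r • y := by
  obtain ⟨u, hu⟩ := h {x, y}
  rw [hu x (by simp), hu y (by simp), hxy]

theorem InR.left {r : T} (h : InR W r) (s : T) : InR W (s * r) := fun t =>
  (Loc.left s r).trans (by simpa only [mul_assoc] using h (t * s))

theorem InR.right {r : T} (h : InR W r) (s : T) : InR W (r * s) := fun t => by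
  simpa only [mul_assoc] using (h t).right s

theorem exists_InR {M : Type*} [MulAction T M] [Countable M] [Countable W]
    (hM : ClosedAct T M) (hd : DenseUnits T M) : ∃ e : T, InR W e := by
  obtain ⟨σ, hσ⟩ := exists_surjective_nat (Finset (W × W))
  have h0 : ∀ (Z : Finset (W × W)) (p : T), ∃ t : T, (∃ u : T, ∀ q ∈ Z, u • t • p • q.1 = q.2) →
      ∀ t' : T, ∃ u : T, ∀ q ∈ Z, u • t' • p • q.1 = q.2 := by
    intro Z p
    by_cases h : ∀ t' : T, ∃ u : T, ∀ q ∈ Z, u • t' • p • q.1 = q.2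
    · exact ⟨1, fun _ => h⟩
    · obtain ⟨t, ht⟩ := not_forall.1 h
      exact ⟨t, fun h' => absurd h' ht⟩
  choose c hc using h0
  let p : ℕ → T := fun n => Nat.rec 1 (fun n p => c (σ n) p * p) n
  have hp : ∀ n, p (n + 1) = c (σ n) (p n) * p n := fun n => rfl
  obtain ⟨e, he⟩ := exists_direct_limit hM hd fun n => c (σ n) (p n)
  have hv : ∀ n, e 0 = e n * p n := by
    intro n
    induction n with
    | zero => exact (mul_one _).symm
    | succ n ih => rw [hp, ← mul_assoc, ← he n, ih]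
  refine ⟨e 0, fun t F => ?_⟩
  obtain ⟨n, hn⟩ := hσ (F.image fun y => (y, e 0 • y))
  obtain ⟨u, hu⟩ := hc (σ n) (p n) ⟨e (n + 1), by
    intro q hq
    rw [hn, Finset.mem_image] at hq
    obtain ⟨y, -, rfl⟩ := hq
    rw [← mul_smul, ← mul_smul, ← he n, ← hv n]⟩ (t * e n)
  refine ⟨u, fun y hy => ?_⟩
  have h1 : u • (t * e n) • p n • y = e 0 • y :=
    hu (y, e 0 • y) (by rw [hn]; exact Finset.mem_image_of_mem _ hy)
  rw [← h1, hv n]
  simp only [mul_smul]

theorem exists_InR_fix {M : Type*} [MulAction T M] [Countable M] [Countable W]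
    (hM : ClosedAct T M) (hd : DenseUnits T M) (F : Finset M) :
    ∃ r : T, InR W r ∧ ∀ a ∈ F, r • a = a := by
  obtain ⟨e, he⟩ := exists_InR (W := W) hM hd
  obtain ⟨g, hg⟩ := hd e F
  exact ⟨(g⁻¹).val * e, he.left _, fun a ha => by rw [mul_smul, hg a ha, unit_inv_smul]⟩

/-- `v` lies in the closure of `v T v` -/
def Reg (W : Type*) [MulAction T W] (v : T) : Prop :=
  ∀ F : Finset W, ∃ t : T, ∀ y ∈ F, v • t • v • y = v • y

theorem exists_generic {M : Type*} [MulAction T M] [Countable M] [Countable W]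
    (hM : ClosedAct T M) (hd : DenseUnits T M) (φ : T → T)
    (hφ : ∀ t v, InR W v → φ (t * v) = t * φ v) :
    ∃ v : T, InR W v ∧ Reg W v ∧ ∃ t, φ v = v * t := by
  let D : Option (W ⊕ M) → T → Finset M → Prop := fun i w F =>
    match i with
    | none => InR W w
    | some (Sum.inl z) => (∀ y : W, w • y ≠ z) ∨
        ∀ u : T, (∀ a ∈ F, u • a = a) → ∃ y : W, (w * u) • y = z
    | some (Sum.inr x) => ∀ u : T, (∀ a ∈ F, u • a = a) →
        (∀ a : M, φ (w * u) • a ≠ x) ∨ ∃ b : M, (w * u) • b = x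
  obtain ⟨v, hv⟩ := fusion hM D (by
    rintro (_ | z | x) w F
    · obtain ⟨r, hr, hr'⟩ := exists_InR_fix (W := W) hM hd F
      exact ⟨r, hr', hr.left w⟩
    · by_cases h : ∀ u : T, (∀ a ∈ F, u • a = a) → ∃ y : W, (w * u) • y = z
      · refine ⟨1, fun a _ => one_smul _ _, Or.inr ?_⟩
        rw [mul_one]; exact h
      · push Not at h
        obtain ⟨u, hu, hu'⟩ := h
        exact ⟨u, hu, Or.inl hu'⟩
    · by_cases h : ∀ u : T, (∀ a ∈ F, u • a = a) → ∃ b : M, (w * u) • b = x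
      · refine ⟨1, fun a _ => one_smul _ _, fun u hu => Or.inr ?_⟩
        rw [mul_one]; exact h u hu
      · push Not at h
        obtain ⟨u, hu, hu'⟩ := h
        obtain ⟨r, hr, hr'⟩ := exists_InR_fix (W := W) hM hd F
        refine ⟨u * r, fun a ha => by rw [mul_smul, hr' a ha, hu a ha], fun u' _ => Or.inl ?_⟩
        intro a ha
        rw [show w * (u * r) * u' = (w * u) * (r * u') by simp only [mul_assoc],
          hφ _ _ (hr.right u'), mul_smul] at ha
        exact hu' _ ha)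
  have hR : InR W v := by
    obtain ⟨w, F, u, h1, -, rfl⟩ := hv none
    exact InR.right h1 u
  refine ⟨v, hR, ?_, ?_⟩
  · have h1 : ∀ y : W, ∃ F : Finset M, ∀ u : T, (∀ a ∈ F, u • a = a) →
        ∃ y' : W, (v * u) • y' = v • y := by
      intro y
      obtain ⟨w, F, u, h1, h2, h3⟩ := hv (some (Sum.inl (v • y)))
      rcases h1 with h1 | h1
      · exact absurd (by rw [h3, mul_smul]) (h1 (u • y))
      · refine ⟨F, fun u' hu' => ?_⟩
        obtain ⟨y', hy'⟩ := h1 (u * u') fun a ha => by rw [mul_smul, hu' a ha, h2 a ha]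
        exact ⟨y', by rw [← hy', ← mul_assoc, ← h3]⟩
    choose S hS using h1
    intro F
    obtain ⟨r, hr, hr'⟩ := exists_InR_fix (W := W) hM hd (F.biUnion S)
    have h2 : ∀ y : W, ∃ y' : W, y ∈ F → (v * r) • y' = v • y := by
      intro y
      by_cases hy : y ∈ F
      · obtain ⟨y', hy'⟩ := hS y r fun a ha => hr' a (Finset.mem_biUnion.2 ⟨y, hy, ha⟩)
        exact ⟨y', fun _ => hy'⟩
      · exact ⟨y, fun h => absurd h hy⟩
    choose η hη using h2
    obtain ⟨t, ht⟩ := hr v (F.image η)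
    refine ⟨t, fun y hy => ?_⟩
    rw [← hη y hy, ← ht _ (Finset.mem_image_of_mem _ hy), mul_smul]
  · have h1 : ∀ a : M, ∃ b : M, v • b = φ v • a := by
      intro a
      obtain ⟨w, F, u, h1, h2, h3⟩ := hv (some (Sum.inr (φ v • a)))
      rcases h1 u h2 with h | h
      · exact absurd (by rw [← h3]) (h a)
      · rw [← h3] at h; exact h
    choose f hf using h1
    obtain ⟨t, ht⟩ := hM.closed f (by
      intro F
      obtain ⟨g, hg⟩ := hd v (F.image f)
      refine ⟨(g⁻¹).val * φ v, fun a ha => ?_⟩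
      rw [mul_smul, ← hf, hg _ (Finset.mem_image_of_mem _ ha), unit_inv_smul])
    exact ⟨t, hM.faith _ _ fun a => by rw [mul_smul, ← ht, hf]⟩

/-- every member of the closed left ideal of `v` with image inside that of `v` is in `v T` -/
def Good (W : Type*) [MulAction T W] (v : T) : Prop :=
  ∀ r : T, Loc W r v → (∀ y : W, ∃ x : W, v • x = r • y) → ∃ t, r = v * t

theorem exists_good {M : Type*} [MulAction T M] [Countable M] [Countable W]
    (hM : ClosedAct T M) (hd : DenseUnits T M) (hW : ClosedAct T W) :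
    ∃ v : T, InR W v ∧ Reg W v ∧ Good W v := by
  let Bad : Set T → (W → W) → Prop := fun C η =>
    ∀ v ∈ C, (∃ r : T, ∀ y, r • y = v • η y) ∧ ∀ t : T, ¬ ∀ y, v • η y = (v * t) • y
  have h0 : ∀ C : Set T, ∃ η : W → W, (∀ v ∈ C, ∃ r : T, ∀ y, r • y = v • η y) ∧
      ((∃ η', Bad C η') → Bad C η) := by
    intro C
    by_cases h : ∃ η', Bad C η'
    · obtain ⟨η, hη⟩ := h
      exact ⟨η, fun v hv => (hη v hv).1, fun _ => hη⟩
    · exact ⟨id, fun v _ => ⟨v, fun _ => rfl⟩, fun h' => absurd h' h⟩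
  choose η hη hη' using h0
  have h1 : ∀ v : T, ∃ r : T, ∀ y, r • y = v • η {s | Loc W s v} y := fun v =>
    hη _ v (Loc.refl v)
  choose φ hφ using h1
  obtain ⟨v, hR, hreg, t, ht⟩ := exists_generic (W := W) hM hd φ (by
    intro t v hv
    have hC : {s | Loc W s (t * v)} = {s | Loc W s v} := by
      ext s
      exact ⟨fun h => Loc.trans h (Loc.left t v), fun h => Loc.trans h (hv t)⟩
    exact hW.faith _ _ fun y => by rw [hφ, hC, mul_smul, mul_smul, hφ])
  refine ⟨v, hR, hreg, fun r hr hr' => ?_⟩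
  by_contra hcon
  choose θ hθ using hr'
  have hbad : Bad {s | Loc W s v} θ := by
    intro v' hv'
    refine ⟨?_, fun t' ht' => hcon ⟨t', hW.faith _ _ fun y => ?_⟩⟩
    · obtain ⟨s, hs⟩ := hW.closed (fun y => v' • θ y) (by
        intro F
        obtain ⟨u, hu⟩ := hv' (F.image θ)
        exact ⟨u * r, fun y hy => by
          rw [hu _ (Finset.mem_image_of_mem _ hy), hθ, mul_smul]⟩)
      exact ⟨s, fun y => (hs y).symm⟩
    · rw [← hθ, mul_smul]
      exact (Loc.symm hR hv').ker (by rw [ht' y, mul_smul])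
  exact (hη' _ ⟨θ, hbad⟩ v (Loc.refl v)).2 t fun y => by rw [← hφ, ht]

theorem main_step {M : Type*} [MulAction T M] [Countable W]
    (hM : ClosedAct T M) (hd : DenseUnits T M) (hW : ClosedAct T W) {v : T}
    (hR : InR W v) (hreg : Reg W v) (hgood : Good W v) (t : T) (ht : Loc W (v * t) v)
    (F : Finset W) : ∃ g : Tˣ, ∀ y ∈ F, t • y = (g : T) • y := by
  -- members of the stabiliser respect the kernel of `v`
  have hker : ∀ s : T, Loc W (v * s) v → ∀ x y : W, v • x = v • y → v • s • x = v • s • y := by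
    intro s hs x y hxy
    simpa only [mul_smul] using hs.ker hxy
  have hmul : ∀ s s' : T, Loc W (v * s) v → Loc W (v * s') v → Loc W (v * (s * s')) v := by
    intro s s' hs hs'
    rw [← mul_assoc]
    exact (hs.right s').trans hs'
  have hinv : ∀ g : Tˣ, Loc W (v * g) v → Loc W (v * (g⁻¹).val) v := by
    intro g hg
    simpa only [mul_assoc, Units.mul_inv, mul_one] using (Loc.symm hR hg).right (g⁻¹).val
  -- surjective members are units
  have hunit : ∀ s : T, Loc W (v * s) v → (∀ x : W, ∃ y : W, v • s • y = v • x) →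
      ∃ g : Tˣ, s = g := by
    intro s hs hsurj
    choose θ hθ using hsurj
    have hloc : ∀ F : Finset W, ∃ u : T, ∀ y ∈ F, v • θ y = u • v • y := by
      intro F
      obtain ⟨u, hu⟩ := Loc.symm hR hs (F.image θ)
      exact ⟨u, fun y hy => by rw [hu _ (Finset.mem_image_of_mem _ hy), mul_smul, hθ]⟩
    obtain ⟨r, hr⟩ := hW.closed (fun y => v • θ y) (by
      intro F
      obtain ⟨u, hu⟩ := hloc F
      exact ⟨u * v, fun y hy => by rw [hu y hy, mul_smul]⟩)
    obtain ⟨s', hs'⟩ := hgood r (by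
      intro F
      obtain ⟨u, hu⟩ := hloc F
      exact ⟨u, fun y hy => by rw [← hr, hu y hy]⟩) (fun y => ⟨θ y, hr y⟩)
    have h1 : s * s' = 1 := by
      apply left_cancel hM hd (v := v)
      refine hW.faith _ _ fun y => ?_
      rw [mul_one, mul_smul, mul_smul, ← hθ y]
      exact hker s hs _ _ (by rw [← mul_smul, ← hs', hr])
    have h2 : s' * s = 1 := by
      apply left_cancel hM hd (v := s)
      rw [← mul_assoc, h1, one_mul, mul_one]
    exact ⟨⟨s, s', h1, h2⟩, rfl⟩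
  -- one step back
  have hback : ∀ s : T, Loc W (v * s) v → ∀ (F : Finset W) (x : W), ∃ s' : T, Loc W (v * s') v ∧
      (∀ y ∈ F, v • s' • y = v • s • y) ∧ ∃ x' : W, v • s' • x' = v • x := by
    intro s hs F x
    obtain ⟨u, hu⟩ := Loc.symm hR hs F
    obtain ⟨t1, ht1⟩ := hreg F
    obtain ⟨u', hu'⟩ := hR (v * t1 * u) (insert x (F.image fun y => s • y))
    obtain ⟨t2, ht2⟩ := hreg (insert x (F.image fun y => s • y))
    refine ⟨t2 * u' * v, ?_, fun y hy => ?_, t1 • u • v • x, ?_⟩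
    · rw [← mul_assoc]; exact Loc.left _ _
    · have hy' : s • y ∈ insert x (F.image fun y => s • y) :=
        Finset.mem_insert_of_mem (Finset.mem_image_of_mem _ hy)
      have e1 := hu' _ hy'
      have e2 := hu y hy
      simp only [mul_smul] at e1 e2 ⊢
      rw [← e2, ht1 y hy] at e1
      rw [← e1, ht2 _ hy']
    · have e1 := hu' x (Finset.mem_insert_self _ _)
      simp only [mul_smul] at e1 ⊢
      rw [← e1, ht2 x (Finset.mem_insert_self _ _)]
  -- Baire category
  have hP : ∀ (F : Finset W) (s₁ : T), Loc W (v * s₁) v → ∀ F₁ : Finset W,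
      ∃ F₀ : Finset W, ∃ g₀ : Tˣ, Loc W (v * g₀) v ∧
      (∀ y ∈ F₁, v • (g₀ : T) • y = v • s₁ • y) ∧
      ∀ s : T, Loc W (v * s) v → (∀ y ∈ F₀, v • s • y = v • (g₀ : T) • y) →
      ∀ F' : Finset W, ∃ g : Tˣ, Loc W (v * g) v ∧ (∀ y ∈ F, (g : T) • y = (g₀ : T) • y) ∧
        ∀ y ∈ F', v • (g : T) • y = v • s • y := by
    intro F s₁ hs₁ F₁
    have : Nonempty {s : T // Loc W (v * s) v ∧ ∀ y ∈ F₁, v • s • y = v • s₁ • y} :=
      ⟨⟨s₁, hs₁, fun _ _ => rfl⟩⟩
    obtain ⟨i, e₀, F₀, h⟩ := baire_maps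
      (E := {s : T // Loc W (v * s) v ∧ ∀ y ∈ F₁, v • s • y = v • s₁ • y})
      (ι := W ⊕ Finset (W × W)) (fun s y => v • s.1 • y) (by
        intro f hf
        obtain ⟨r, hr⟩ := hW.closed f (by
          intro F
          obtain ⟨e, he⟩ := hf F
          exact ⟨v * e.1, fun y hy => by rw [he y hy, mul_smul]⟩)
        have hrv : Loc W r v := by
          intro F
          obtain ⟨e, he⟩ := hf F
          obtain ⟨u, hu⟩ := e.2.1 F
          exact ⟨u, fun y hy => by rw [← hr, he y hy, ← hu y hy, mul_smul]⟩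
        obtain ⟨s, hs⟩ := hgood r hrv (by
          intro y
          obtain ⟨e, he⟩ := hf {y}
          exact ⟨e.1 • y, by rw [← hr, he y (by simp)]⟩)
        have hfs : ∀ y, f y = v • s • y := fun y => by rw [hr, hs, mul_smul]
        refine ⟨⟨s, hs ▸ hrv, fun y hy => ?_⟩, hfs⟩
        obtain ⟨e, he⟩ := hf {y}
        rw [← hfs, he y (by simp), e.2.2 y hy])
      (fun i s => match i with
        | Sum.inl x => ∀ y : W, v • s.1 • y ≠ v • x
        | Sum.inr Z => ∃ g : Tˣ, s.1 = g ∧ Z = F.image fun y => (y, (g : T) • y)) (by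
        intro s
        by_cases hs : ∀ x : W, ∃ y : W, v • s.1 • y = v • x
        · obtain ⟨g, hg⟩ := hunit s.1 s.2.1 hs
          exact ⟨Sum.inr _, g, hg, rfl⟩
        · push Not at hs
          obtain ⟨x, hx⟩ := hs
          exact ⟨Sum.inl x, hx⟩)
    rcases i with x | Z
    · obtain ⟨s', h1, h2, x', h3⟩ := hback e₀.1 e₀.2.1 (F₀ ∪ F₁) x
      obtain ⟨k, hk, hk'⟩ := h ⟨s', h1, fun y hy =>
        (h2 y (Finset.mem_union_right _ hy)).trans (e₀.2.2 y hy)⟩
        (fun y hy => h2 y (Finset.mem_union_left _ hy)) {x'}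
      exact absurd ((hk' x' (by simp)).trans h3) (hk x')
    · obtain ⟨k₀, ⟨g₀, hg₀, hZ₀⟩, hk₀⟩ := h e₀ (fun _ _ => rfl) F₀
      have hg₀' : ∀ y ∈ F₁, v • (g₀ : T) • y = v • s₁ • y := hg₀ ▸ k₀.2.2
      refine ⟨F₀ ∪ F₁, g₀, hg₀ ▸ k₀.2.1, hg₀', fun s hs hs' F' => ?_⟩
      obtain ⟨k, ⟨g, hg, hZ⟩, hk⟩ := h ⟨s, hs, fun y hy =>
        (hs' y (Finset.mem_union_right _ hy)).trans (hg₀' y hy)⟩ (fun y hy => by
        have := hk₀ y hy
        rw [hg₀] at this
        exact (hs' y (Finset.mem_union_left _ hy)).trans this) F'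
      refine ⟨g, hg ▸ k.2.1, fun y hy => ?_, fun y hy => hg ▸ hk y hy⟩
      have : (y, (g : T) • y) ∈ F.image fun y => (y, (g₀ : T) • y) := by
        rw [← hZ₀, hZ]; exact Finset.mem_image_of_mem _ hy
      obtain ⟨y', -, hy'⟩ := Finset.mem_image.1 this
      obtain ⟨rfl, h2⟩ := Prod.mk.inj hy'
      exact h2.symm
  have hP' : ∀ F : Finset W, ∃ F₀ : Finset W,
      ∀ s : T, Loc W (v * s) v → (∀ y ∈ F₀, v • s • y = v • y) →
      ∀ F' : Finset W, ∃ g : Tˣ, Loc W (v * g) v ∧ (∀ y ∈ F, (g : T) • y = y) ∧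
        ∀ y ∈ F', v • (g : T) • y = v • s • y := by
    intro F
    obtain ⟨F₀, g₀, hg₀, -, h⟩ := hP F 1 (by rw [mul_one]; exact Loc.refl v) ∅
    refine ⟨F₀, fun s hs hs' F' => ?_⟩
    obtain ⟨g, h1, h2, h3⟩ := h (g₀ * s) (hmul _ _ hg₀ hs) (fun y hy => by
      rw [mul_smul]; exact hker _ hg₀ _ _ (hs' y hy)) F'
    refine ⟨g₀⁻¹ * g, by rw [Units.val_mul]; exact hmul _ _ (hinv _ hg₀) h1, fun y hy => ?_,
      fun y hy => ?_⟩
    · rw [Units.val_mul, mul_smul, h2 y hy, unit_inv_smul]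
    · have := hker _ (hinv _ hg₀) _ _ (h3 y hy)
      rw [mul_smul, unit_inv_smul] at this
      rw [Units.val_mul, mul_smul, this]
  -- dividing by an approximating unit
  have hdiv : ∀ (s : T) (g : Tˣ), Loc W (v * g) v → ∀ y : W, v • (g : T) • y = v • s • y →
      v • ((g⁻¹).val * s) • y = v • y := by
    intro s g hg y hy
    have := hker _ (hinv _ hg) _ _ hy
    rw [unit_inv_smul] at this
    rw [mul_smul, ← this]
  obtain ⟨A, hA, hA'⟩ := exists_exhaust W
  choose N hN using fun n => hP' (F ∪ A n)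
  obtain ⟨-, k₀, hk₀, hk₀', -⟩ := hP ∅ t ht (N 0)
  have hstep : ∀ (n : ℕ) (s : T), ∃ g : Tˣ,
      (Loc W (v * s) v ∧ ∀ y ∈ N n, v • s • y = v • y) →
      Loc W (v * g) v ∧ (∀ y ∈ F ∪ A n, (g : T) • y = y) ∧
        ∀ y ∈ N (n + 1) ∪ A n, v • (g : T) • y = v • s • y := by
    intro n s
    by_cases h : Loc W (v * s) v ∧ ∀ y ∈ N n, v • s • y = v • y
    · obtain ⟨g, hg⟩ := hN n s h.1 h.2 (N (n + 1) ∪ A n)
      exact ⟨g, fun _ => hg⟩
    · exact ⟨1, fun h' => absurd h' h⟩
  choose c hc using hstep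
  let s : ℕ → T := fun n => Nat.rec ((k₀⁻¹).val * t) (fun n s => ((c n s)⁻¹).val * s) n
  have hs0 : s 0 = (k₀⁻¹).val * t := rfl
  have hs : ∀ n, s (n + 1) = ((c n (s n))⁻¹).val * s n := fun n => rfl
  have hinvt : ∀ n, Loc W (v * s n) v ∧ ∀ y ∈ N n, v • s n • y = v • y := by
    intro n
    induction n with
    | zero => exact ⟨hmul _ _ (hinv _ hk₀) ht, fun y hy => hdiv _ _ hk₀ y (hk₀' y hy)⟩
    | succ n ih =>
      obtain ⟨h1, -, h3⟩ := hc n (s n) ih
      exact ⟨hmul _ _ (hinv _ h1) ih.1, fun y hy =>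
        hdiv _ _ h1 y (h3 y (Finset.mem_union_left _ hy))⟩
  have hfix : ∀ n, ∀ y ∈ F ∪ A n, (c n (s n) : T) • y = y := fun n => (hc n (s n) (hinvt n)).2.1
  obtain ⟨r, hr, hr'⟩ := exists_inf_prod hW (fun n => (c n (s n) : T)) (by
    intro x
    obtain ⟨n, hn⟩ := hA' x
    exact ⟨n, fun m hm => hfix m x (Finset.mem_union_right _ (hA hm hn))⟩)
  have hdown : ∀ (x : W) (m : ℕ), v • s m • x = v • r m • x → v • s 0 • x = v • r 0 • x := by
    intro x m
    induction m with
    | zero => exact id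
    | succ m ih =>
      intro h
      apply ih
      have := hker _ (hc m (s m) (hinvt m)).1 _ _ h
      rw [hs, mul_smul, unit_smul_inv] at this
      rw [this, hr m, mul_smul]
  have hsr : s 0 = r 0 := by
    apply left_cancel hM hd (v := v)
    refine hW.faith _ _ fun x => ?_
    obtain ⟨n, hn⟩ := hA' x
    rw [mul_smul, mul_smul]
    apply hdown x (n + 1)
    obtain ⟨h1, -, h3⟩ := hc n (s n) (hinvt n)
    rw [hr' (n + 1) x fun m hm => hfix m x (Finset.mem_union_right _ (hA (by omega : n ≤ m) hn)),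
      hs]
    exact hdiv _ _ h1 x (h3 x (Finset.mem_union_right _ hn))
  refine ⟨k₀, fun y hy => ?_⟩
  have := hr' 0 y fun m _ => hfix m y (Finset.mem_union_left _ hy)
  rw [← hsr, hs0, mul_smul] at this
  rw [← unit_smul_inv k₀ (t • y), this]

/-- Main theorem: a monoid which is the closure of its group of units in one closed faithful
action on a countable set has dense units in every closed faithful action on a countable set. -/
theorem dense_units {M : Type*} [MulAction T M] [Countable M] [Countable W]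
    (hM : ClosedAct T M) (hd : DenseUnits T M) (hW : ClosedAct T W) : DenseUnits T W := by
  obtain ⟨v, hR, hreg, hgood⟩ := exists_good hM hd hW
  have h1 : InR W (1 : T) := by
    intro t F
    obtain ⟨g, hg⟩ := main_step hM hd hW hR hreg hgood v (Loc.left v v) F
    obtain ⟨u, hu⟩ := hR (t * (g⁻¹).val) F
    refine ⟨(g⁻¹).val * u, fun y hy => ?_⟩
    have := hu y hy
    rw [mul_smul, mul_smul, hg y hy, unit_inv_smul] at this
    rw [one_smul, mul_one, mul_smul, ← this, unit_inv_smul]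
  intro t F
  exact main_step hM hd hW h1 (fun _ => ⟨1, fun y _ => by simp only [one_smul]⟩)
    (fun r _ _ => ⟨r, (one_mul r).symm⟩) t (Loc.left' t) F

end main

end Pool.Agent.P.MP_859560_lc
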