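import Pool.Agent.P.MP_859560_lc.LiftDefs
import Pool.Agent.P.MP_859560_lc.LiftCore

namespace Pool.Agent.P.MP_859560_lc

open Classical

set_option linter.style.haveILetI false

section units
variable {Ω : Type*}

/-- a permutation as a transformation -/
def toEnd (g : Equiv.Perm Ω) : Function.End Ω := fun x => g x

theorem toEnd_mul (g h : Equiv.Perm Ω) : toEnd (g * h) = toEnd g * toEnd h := rfl

/-- the invertible elements of a transformation monoid, as a permutation group -/
def unitGroup (T : Submonoid (Function.End Ω)) : Subgroup (Equiv.Perm Ω) where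
  carrier := {g | toEnd g ∈ T ∧ toEnd g⁻¹ ∈ T}
  one_mem' := ⟨T.one_mem, T.one_mem⟩
  mul_mem' := by
    rintro g h ⟨hg, hg'⟩ ⟨hh, hh'⟩
    refine ⟨by rw [toEnd_mul]; exact T.mul_mem hg hh, ?_⟩
    rw [mul_inv_rev, toEnd_mul]
    exact T.mul_mem hh' hg'
  inv_mem' := by
    rintro g ⟨hg, hg'⟩
    exact ⟨hg', by rw [inv_inv]; exact hg⟩

/-- the permutation group of invertible elements is the group of units -/
def unitEquiv (T : Submonoid (Function.End Ω)) : unitGroup T ≃* (T)ˣ where
  toFun g := ⟨⟨_, g.2.1⟩, ⟨_, g.2.2⟩,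
    Subtype.ext (funext fun x => g.1.apply_symm_apply x),
    Subtype.ext (funext fun x => g.1.symm_apply_apply x)⟩
  invFun u := ⟨⟨u.val.1, u.inv.1, fun x => congrFun (congrArg Subtype.val u.inv_val) x,
    fun x => congrFun (congrArg Subtype.val u.val_inv) x⟩, u.val.2, u.inv.2⟩
  left_inv _ := rfl
  right_inv _ := rfl
  map_mul' _ _ := Units.ext rfl

end units

variable {Ω : Type*} [TopologicalSpace Ω] [DiscreteTopology Ω]

theorem mem_closureMonoid (G : Subgroup (Equiv.Perm Ω)) (f : Function.End Ω) :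
    f ∈ closureMonoid G ↔ ∀ F : Finset Ω, ∃ g ∈ G, ∀ a ∈ F, f a = g a := by
  change f ∈ closureSet G ↔ _
  rw [closureSet, mem_closure_iff_finset]
  constructor
  · intro h F
    obtain ⟨_, ⟨g, hg, rfl⟩, h'⟩ := h F
    exact ⟨g, hg, h'⟩
  · intro h F
    obtain ⟨g, hg, h'⟩ := h F
    exact ⟨_, ⟨g, hg, rfl⟩, h'⟩

theorem isClosedMonoid_iff (T : Submonoid (Function.End Ω)) :
    IsClosedMonoid T ↔
      ∀ f : Function.End Ω, (∀ F : Finset Ω, ∃ t ∈ T, ∀ a ∈ F, f a = t a) → f ∈ T := by
  rw [IsClosedMonoid, ← @closure_subset_iff_isClosed _ (endTop Ω)]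
  exact forall_congr' fun f => by rw [mem_closure_iff_finset]; rfl

theorem mem_closure_perm (A : Set (Equiv.Perm Ω)) (f : Equiv.Perm Ω) :
    f ∈ @closure _ (permTop Ω) A ↔ ∀ F : Finset Ω, ∃ g ∈ A, ∀ a ∈ F, f a = g a := by
  rw [permTop, closure_induced, mem_closure_iff_finset']
  constructor
  · intro h F
    obtain ⟨_, ⟨g, hg, rfl⟩, h'⟩ := h F
    exact ⟨g, hg, h'⟩
  · intro h F
    obtain ⟨g, hg, h'⟩ := h F
    exact ⟨_, ⟨g, hg, rfl⟩, h'⟩

theorem isClosedGroup_iff (G : Subgroup (Equiv.Perm Ω)) :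
    IsClosedGroup G ↔
      ∀ f : Equiv.Perm Ω, (∀ F : Finset Ω, ∃ g ∈ G, ∀ a ∈ F, f a = g a) → f ∈ G := by
  rw [IsClosedGroup, ← @closure_subset_iff_isClosed _ (permTop Ω)]
  exact forall_congr' fun f => by rw [mem_closure_perm]; rfl

theorem isClosedMonoid_closureMonoid (G : Subgroup (Equiv.Perm Ω)) :
    IsClosedMonoid (closureMonoid G) :=
  @isClosed_closure _ (endTop Ω) _

theorem closedAct_of_closed {T : Submonoid (Function.End Ω)} (hT : IsClosedMonoid T) :
    ClosedAct T Ω where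
  faith _ _ h := Subtype.ext (funext h)
  closed f hf := ⟨⟨f, (isClosedMonoid_iff T).1 hT f fun F => by
    obtain ⟨t, ht⟩ := hf F
    exact ⟨t.1, t.2, ht⟩⟩, fun _ => rfl⟩

theorem isClosedGroup_unitGroup {T : Submonoid (Function.End Ω)} (hT : IsClosedMonoid T) :
    IsClosedGroup (unitGroup T) := by
  rw [isClosedGroup_iff]
  intro f hf
  refine ⟨(isClosedMonoid_iff T).1 hT _ fun F => ?_, (isClosedMonoid_iff T).1 hT _ fun F => ?_⟩
  · obtain ⟨g, hg, h⟩ := hf F
    exact ⟨_, hg.1, h⟩
  · obtain ⟨g, hg, h⟩ := hf (F.image fun a => f⁻¹ a)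
    refine ⟨_, hg.2, fun a ha => ?_⟩
    have h1 := h _ (Finset.mem_image_of_mem _ ha)
    rw [show f (f⁻¹ a) = a from f.apply_symm_apply a] at h1
    change f⁻¹ a = g⁻¹ a
    rw [Equiv.Perm.eq_inv_iff_eq]
    exact h1.symm

theorem coe_mem_closureMonoid {G : Subgroup (Equiv.Perm Ω)} {g : Equiv.Perm Ω} (hg : g ∈ G) :
    toEnd g ∈ closureMonoid G :=
  (mem_closureMonoid G _).2 fun _ => ⟨g, hg, fun _ _ => rfl⟩

theorem unitGroup_closureMonoid {G : Subgroup (Equiv.Perm Ω)} (hG : IsClosedGroup G) :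
    unitGroup (closureMonoid G) = G := by
  ext g
  exact ⟨fun h => (isClosedGroup_iff G).1 hG g ((mem_closureMonoid G _).1 h.1),
    fun h => ⟨coe_mem_closureMonoid h, coe_mem_closureMonoid (G.inv_mem h)⟩⟩

theorem denseUnits_closureMonoid (G : Subgroup (Equiv.Perm Ω)) :
    DenseUnits (closureMonoid G) Ω := by
  intro t F
  obtain ⟨g, hg, h⟩ := (mem_closureMonoid G t.1).1 t.2 F
  exact ⟨unitEquiv _ ⟨g, coe_mem_closureMonoid hg, coe_mem_closureMonoid (G.inv_mem hg)⟩, h⟩

/-- a closed monoid abstractly isomorphic to the closure of a group is the closure of its units -/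
theorem eq_closureMonoid_unitGroup [Countable Ω] {G : Subgroup (Equiv.Perm Ω)}
    {T : Submonoid (Function.End Ω)} (hT : IsClosedMonoid T) (ξ : closureMonoid G ≃* T) :
    T = closureMonoid (unitGroup T) := by
  have hS := closedAct_of_closed (isClosedMonoid_closureMonoid G)
  have hd := denseUnits_closureMonoid G
  let inst : MulAction T Ω := MulAction.compHom Ω ξ.symm.toMonoidHom
  have h1 : @ClosedAct T Ω _ inst := by
    refine @ClosedAct.mk T Ω _ inst (fun s t h => ξ.symm.injective (hS.faith _ _ h)) fun f hf => ?_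
    obtain ⟨t, ht⟩ := hS.closed f fun F => by
      obtain ⟨t, ht⟩ := hf F
      exact ⟨ξ.symm t, ht⟩
    refine ⟨ξ t, fun a => ?_⟩
    change f a = ξ.symm (ξ t) • a
    rw [ξ.symm_apply_apply, ht]
  have h2 : @DenseUnits T Ω _ inst := by
    intro t F
    obtain ⟨g, hg⟩ := hd (ξ.symm t) F
    refine ⟨Units.map ξ.toMonoidHom g, fun a ha => ?_⟩
    change ξ.symm t • a = ξ.symm (ξ g) • a
    rw [ξ.symm_apply_apply, hg a ha]
  have h3 := @dense_units T Ω _ T.mulAction Ω inst _ _ h1 h2 (closedAct_of_closed hT)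
  ext f
  rw [mem_closureMonoid]
  constructor
  · intro hf F
    obtain ⟨g, hg⟩ := h3 ⟨f, hf⟩ F
    exact ⟨((unitEquiv T).symm g).1, ((unitEquiv T).symm g).2, hg⟩
  · intro hf
    exact (isClosedMonoid_iff T).1 hT f fun F => by
      obtain ⟨g, hg, h⟩ := hf F
      exact ⟨_, hg.1, h⟩

theorem exists_support {G H : Subgroup (Equiv.Perm Ω)} (β : G →* H)
    (hβ : @Continuous _ _ (groupTop G) (groupTop H) β) (y : Ω) :
    ∃ F : Finset Ω, ∀ g : G, (∀ a ∈ F, g.1 a = a) → (β g).1 y = y := by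
  by_contra hcon
  push Not at hcon
  letI := groupTop G
  letI := groupTop H
  letI := permTop Ω
  have hc : Continuous fun g : G => (β g).1 y :=
    ((continuous_apply y).comp
      (continuous_induced_dom (f := fun g : Equiv.Perm Ω => (g : Ω → Ω)))).comp
      ((continuous_induced_dom (f := (Subtype.val : H → Equiv.Perm Ω))).comp hβ)
  have hcl : IsClosed {g : G | (β g).1 y ≠ y} :=
    (isClosed_discrete {x : Ω | x ≠ y}).preimage hc
  have h1 : (1 : G) ∈ closure {g : G | (β g).1 y ≠ y} := by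
    rw [closure_induced, mem_closure_perm]
    intro F
    obtain ⟨g, hg, hg'⟩ := hcon F
    exact ⟨g.1, ⟨g, hg', rfl⟩, fun a ha => (hg a ha).symm⟩
  rw [hcl.closure_eq] at h1
  exact h1 (by rw [map_one]; rfl)

theorem exists_extension {G H : Subgroup (Equiv.Perm Ω)} (β : G →* H)
    (hβ : @Continuous _ _ (groupTop G) (groupTop H) β) :
    ∃ (b : closureMonoid G → closureMonoid H) (S : Ω → Finset Ω),
      ∀ (m : closureMonoid G) (y : Ω) (g : G), (∀ a ∈ S y, m.1 a = g.1 a) →
        (b m).1 y = (β g).1 y := by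
  choose S hS using exists_support β hβ
  have key : ∀ (y : Ω) (g g' : G), (∀ a ∈ S y, g.1 a = g'.1 a) → (β g).1 y = (β g').1 y := by
    intro y g g' h
    have h1 := hS y (g'⁻¹ * g) fun a ha => by
      change g'.1⁻¹ (g.1 a) = a
      rw [h a ha]
      exact g'.1.symm_apply_apply a
    rw [map_mul, map_inv] at h1
    change (β g').1⁻¹ ((β g).1 y) = y at h1
    rw [Equiv.Perm.inv_eq_iff_eq] at h1
    exact h1
  have h0 : ∀ (m : closureMonoid G) (F : Finset Ω), ∃ g : G, ∀ a ∈ F, m.1 a = g.1 a := by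
    intro m F
    obtain ⟨g, hg, h⟩ := (mem_closureMonoid G m.1).1 m.2 F
    exact ⟨⟨g, hg⟩, h⟩
  choose c hc using h0
  have h1 : ∀ (m : closureMonoid G) (y : Ω) (g : G), (∀ a ∈ S y, m.1 a = g.1 a) →
      (β (c m (S y))).1 y = (β g).1 y := fun m y g h =>
    key y _ _ fun a ha => by rw [← hc m _ a ha, h a ha]
  refine ⟨fun m => ⟨fun y => (β (c m (S y))).1 y, (mem_closureMonoid H _).2 fun F => ?_⟩, S, h1⟩
  refine ⟨(β (c m (F.biUnion S))).1, (β _).2, fun y hy => h1 m y _ fun a ha => ?_⟩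
  exact hc m _ a (Finset.mem_biUnion.2 ⟨y, hy, ha⟩)

theorem continuous_of_support {S T : Submonoid (Function.End Ω)} (b : S → T) (A : Ω → Finset Ω)
    (h : ∀ (m m' : S) (y : Ω), (∀ a ∈ A y, m.1 a = m'.1 a) → (b m).1 y = (b m').1 y) :
    @Continuous _ _ (monoidTop S) (monoidTop T) b := by
  letI := monoidTop S
  letI := endTop Ω
  refine continuous_induced_rng.2 (continuous_pi fun y => continuous_iff_continuousAt.2 fun m => ?_)
  have h1 : ∀ a ∈ A y, ∀ᶠ m' : S in nhds m, m'.1 a = m.1 a := by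
    intro a _
    have hc : Continuous fun m' : S => m'.1 a :=
      (continuous_apply a).comp (continuous_induced_dom (f := (Subtype.val : S → Function.End Ω)))
    exact hc.continuousAt.eventually (p := fun x => x = m.1 a)
      ((isOpen_discrete {m.1 a}).mem_nhds rfl)
  refine continuousAt_const.congr (f := fun _ => (b m).1 y) ?_
  filter_upwards [(Filter.eventually_all_finset _).2 h1] with m' hm'
  exact (h m' m y hm').symm

theorem extend_homeomorph {G H : Subgroup (Equiv.Perm Ω)} (e : G ≃* H)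
    (he : @IsHomeomorph _ _ (groupTop G) (groupTop H) e) :
    ∃ E : closureMonoid G ≃* closureMonoid H,
      @IsHomeomorph _ _ (monoidTop (closureMonoid G)) (monoidTop (closureMonoid H)) E := by
  have hc : @Continuous _ _ (groupTop G) (groupTop H) e := @IsHomeomorph.continuous _ _
    (groupTop G) (groupTop H) _ he
  have hc' : @Continuous _ _ (groupTop H) (groupTop G) e.symm := by
    letI := groupTop G
    letI := groupTop H
    exact (e.toEquiv.continuous_symm_iff).2 he.isOpenMap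
  obtain ⟨b, S, hb⟩ := exists_extension e.toMonoidHom hc
  obtain ⟨b', S', hb'⟩ := exists_extension e.symm.toMonoidHom hc'
  have happ : ∀ {K : Subgroup (Equiv.Perm Ω)} (m : closureMonoid K) (F : Finset Ω),
      ∃ g : K, ∀ a ∈ F, m.1 a = g.1 a := by
    intro K m F
    obtain ⟨g, hg, h⟩ := (mem_closureMonoid K m.1).1 m.2 F
    exact ⟨⟨g, hg⟩, h⟩
  have hl : Function.LeftInverse b' b := by
    intro m
    refine Subtype.ext (funext fun y => ?_)
    obtain ⟨g, hg⟩ := happ m (insert y ((S' y).biUnion S))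
    rw [hb' (b m) y (e g) fun a ha => hb m a g fun a' ha' =>
      hg a' (Finset.mem_insert_of_mem (Finset.mem_biUnion.2 ⟨a, ha, ha'⟩)),
      hg y (Finset.mem_insert_self _ _)]
    change (e.symm (e g)).1 y = _
    rw [e.symm_apply_apply]
  have hr : Function.RightInverse b' b := by
    intro m
    refine Subtype.ext (funext fun y => ?_)
    obtain ⟨g, hg⟩ := happ m (insert y ((S y).biUnion S'))
    rw [hb (b' m) y (e.symm g) fun a ha => hb' m a g fun a' ha' =>
      hg a' (Finset.mem_insert_of_mem (Finset.mem_biUnion.2 ⟨a, ha, ha'⟩)),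
      hg y (Finset.mem_insert_self _ _)]
    change (e (e.symm g)).1 y = _
    rw [e.apply_symm_apply]
  have hmul : ∀ m m', b (m * m') = b m * b m' := by
    intro m m'
    refine Subtype.ext (funext fun y => ?_)
    obtain ⟨g', hg'⟩ := happ m' (S y)
    obtain ⟨g, hg⟩ := happ m ((S y).image m'.1 ∪ S ((b m').1 y))
    change _ = (b m).1 ((b m').1 y)
    rw [hb m _ g fun a ha => hg a (Finset.mem_union_right _ ha), hb m' y g' hg',
      hb (m * m') y (g * g') fun a ha => by
        change m.1 (m'.1 a) = g.1 (g'.1 a)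
        rw [hg _ (Finset.mem_union_left _ (Finset.mem_image_of_mem _ ha)), hg' a ha], map_mul]
    rfl
  have hcb := continuous_of_support b S fun m m' y h => by
    obtain ⟨g, hg⟩ := happ m' (S y)
    rw [hb m' y g hg, hb m y g fun a ha => (h a ha).trans (hg a ha)]
  have hcb' := continuous_of_support b' S' fun m m' y h => by
    obtain ⟨g, hg⟩ := happ m' (S' y)
    rw [hb' m' y g hg, hb' m y g fun a ha => (h a ha).trans (hg a ha)]
  letI := monoidTop (closureMonoid G)
  letI := monoidTop (closureMonoid H)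
  exact ⟨⟨⟨b, b', hl, hr⟩, hmul⟩, (Homeomorph.mk ⟨b, b', hl, hr⟩ hcb hcb').isHomeomorph⟩

theorem lifting [Countable Ω] (G : Subgroup (Equiv.Perm Ω)) (hG : IsClosedGroup G)
    (hrec : GroupReconstructible G) : MonoidReconstructible (closureMonoid G) := by
  rintro T hT ⟨ξ⟩
  have e0 : G ≃* unitGroup T :=
    (((MulEquiv.subgroupCongr (unitGroup_closureMonoid hG).symm).trans (unitEquiv _)).trans
      (Units.mapEquiv ξ)).trans (unitEquiv T).symm
  obtain ⟨e, he⟩ := hrec _ (isClosedGroup_unitGroup hT) ⟨e0⟩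
  have h := extend_homeomorph e he
  rw [← eq_closureMonoid_unitGroup hT ξ] at h
  exact h

end Pool.Agent.P.MP_859560_lc
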