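import Pool.Agent.P.MP_859560_lc.DescRec
import Pool.Agent.P.MP_859560_lc.LiftMain

namespace Pool.Agent.P.MP_859560_lc.Desc

open Classical Pool.Agent.P.MP_859560_lc

set_option linter.style.haveILetI false

theorem mem_GE_congr {E E' : Type} [AddCommGroup E] [AddCommGroup E'] {q : E →+ ZMod 2}
    {q' : E' →+ ZMod 2} {e : Multiplicative E} {e' : Multiplicative E'} {g : P0}
    (h : q' e'.toAdd = q e.toAdd) (hg : (e, g) ∈ GE q) : (e', g) ∈ GE q' := by
  obtain ⟨h1, h2⟩ := hg
  change Maps g A (sh (q e.toAdd)) at h1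
  change Maps g⁻¹ A (sh (q (-e.toAdd))) at h2
  refine ⟨?_, ?_⟩
  · change Maps g A (sh (q' e'.toAdd))
    rwa [h]
  · change Maps g⁻¹ A (sh (q' (-e'.toAdd)))
    rwa [map_neg, h, ← map_neg]

theorem mem_GE_iff {E : Type} [AddCommGroup E] {q : E →+ ZMod 2} {e : Multiplicative E} {g : P0}
    (h : q e.toAdd = 0) : (e, g) ∈ GE q ↔ g ∈ H0 := by
  change Maps g A (sh (q e.toAdd)) ∧ Maps g⁻¹ A (sh (q (-e.toAdd))) ↔ _
  rw [map_neg, h, neg_zero, sh_zero]
  rfl

/-- doubling from `ZMod 2` to `ZMod 4` -/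
def dbl (x : ZMod 2) : ZMod 4 := if x = 0 then 0 else 2

theorem abstract_iso : Nonempty (GE q2 ≃* GE red) := by
  obtain ⟨l, hl, hl'⟩ := lift_four (H := GE (AddMonoidHom.id (ZMod 2)))
    ((MonoidHom.snd _ _).comp (GE _).subtype) ((injective_iff_map_eq_one _).2 fun p hp => by
      refine Subtype.ext (Prod.ext ?_ hp)
      have h : p.1.2 = 1 := hp
      exact shift_zero_of (t := ⟨p.1, p.2.1⟩) (by rw [h]; exact N0.one_mem))
    ((MonoidHom.fst _ _).comp (GE _).subtype)
  let pr : GE q2 → GE (AddMonoidHom.id (ZMod 2)) := fun p =>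
    ⟨(Multiplicative.ofAdd p.1.1.toAdd.1, p.1.2), mem_GE_congr rfl p.2⟩
  have h1 : ∀ x y, dbl (x + y) = dbl x + dbl y := by decide
  have h2 : ∀ x, red (dbl x) = 0 := by decide
  have h3 : ∀ x, dbl x = 0 → x = 0 := by decide
  have h4 : ∀ y, red y = 0 → ∃ x, dbl x = y := by decide
  let Φ : GE q2 →* GE red := MonoidHom.mk' (fun p =>
    ⟨(Multiplicative.ofAdd (l (pr p) + dbl p.1.1.toAdd.2), p.1.2), mem_GE_congr (by
      rw [toAdd_ofAdd, map_add, hl', h2, add_zero]; rfl) p.2⟩) (fun a b => by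
      refine Subtype.ext (Prod.ext ?_ rfl)
      change l (pr a * pr b) + dbl (a.1.1.toAdd.2 + b.1.1.toAdd.2) =
        l (pr a) + dbl a.1.1.toAdd.2 + (l (pr b) + dbl b.1.1.toAdd.2)
      rw [hl, h1]
      ring)
  refine ⟨MulEquiv.ofBijective Φ ⟨(injective_iff_map_eq_one _).2 fun p hp => ?_, fun p => ?_⟩⟩
  · have a1 : p.1.2 = 1 := congrArg (fun x : GE red => x.1.2) hp
    have a2 : l (pr p) + dbl p.1.1.toAdd.2 = 0 := congrArg (fun x : GE red => x.1.1.toAdd) hp
    have a3 : p.1.1.toAdd.1 = 0 :=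
      shift_zero_of (t := ⟨p.1, p.2.1⟩) (by rw [a1]; exact N0.one_mem)
    have a4 : pr p = 1 := Subtype.ext (Prod.ext a3 a1)
    have a5 : l 1 = 0 := by
      have := hl 1 1
      rw [mul_one] at this
      exact left_eq_add.1 this
    rw [a4, a5, zero_add] at a2
    exact Subtype.ext (Prod.ext (Prod.ext a3 (h3 _ a2)) a1)
  · let p' : GE (AddMonoidHom.id (ZMod 2)) :=
      ⟨(Multiplicative.ofAdd (red p.1.1.toAdd), p.1.2),
        mem_GE_congr (q := red) (e := p.1.1) rfl p.2⟩
    obtain ⟨x, hx⟩ := h4 (p.1.1.toAdd - l p') (by rw [map_sub, hl']; exact sub_self _)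
    refine ⟨⟨(Multiplicative.ofAdd (red p.1.1.toAdd, x), p.1.2),
      mem_GE_congr (q := red) (e := p.1.1) rfl p.2⟩,
      Subtype.ext (Prod.ext ?_ rfl)⟩
    change l p' + dbl x = p.1.1.toAdd
    rw [hx, add_sub_cancel]

theorem no_iso (Ψ : GE red ≃* GE q2) (D : Finset (Pt (ZMod 4)))
    (hD : ∀ p : GE red, Fixes (unitsGE red p : NE red) D → (Ψ p).1.1 = 1) : False := by
  have two : ∀ x : ZMod 2, x + x = 0 := by decide
  let r : GE red → ZMod 2 := fun p => (Ψ p).1.1.toAdd.2
  have hr : ∀ a b, r (a * b) = r a + r b := fun a b => by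
    simp only [r, map_mul]; rfl
  let z : GE red := ⟨(Multiplicative.ofAdd 2, 1), (mem_GE_iff (by decide)).2 H0.one_mem⟩
  have hz : r z = 1 := by
    have a1 : z * z = 1 := Subtype.ext (Prod.ext (by decide) (mul_one 1))
    have a2 : Ψ z ≠ 1 := fun h =>
      absurd (congrArg (fun x : GE red => x.1.1.toAdd) (Ψ.map_eq_one_iff.1 h)) (by decide)
    have a3 : (Ψ z).1.2 = 1 := eq_one_of_sq (by
      have := congrArg (fun x : GE q2 => x.1.2) (map_mul Ψ z z)
      simp only [a1, map_one] at this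
      exact this.symm)
    have a4 : (Ψ z).1.1.toAdd.1 = 0 :=
      shift_zero_of (t := ⟨(Ψ z).1, (Ψ z).2.1⟩) (by rw [a3]; exact N0.one_mem)
    have a5 : r z ≠ 0 := fun h => a2 (Subtype.ext (Prod.ext (Prod.ext a4 h) a3))
    revert a5
    generalize r z = x
    revert x
    decide
  let j : ∀ h ∈ H0, GE red := fun h hh => ⟨(1, h), (mem_GE_iff (map_zero red)).2 hh⟩
  obtain ⟨S, n, hS, h⟩ := exists_supp (q := red) D
  obtain ⟨m, -, hm⟩ := nc (w := ∅) (n0 := 0) (n' := n) InA.empty hS
    (d := fun g => if hg : g ∈ H0 then r (j g hg) else 0) (fun a ha b hb => by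
      simp only [dif_pos ha.1, dif_pos hb.1, dif_pos (H0.mul_mem ha.1 hb.1)]
      rw [← hr]
      rfl) (fun g hg hg' => by
      simp only [dif_pos hg.1, r]
      rw [hD _ fun a ha => by
        rw [h (unitsGE red (j g hg.1) : NE red) 1 rfl (hg'.2.1.trans (map_one _).symm)
          (fun x hx => (hg'.2.2 x hx).trans (one_smul _ x).symm) a ha, one_smul]]
      rfl)
  obtain ⟨g, g1, g2, g3⟩ := hom0 hA (model_sh 1) m 1
  rw [map_one] at g1
  let p : GE red := ⟨(Multiplicative.ofAdd 1, g), g2, inv_mem_NE g3⟩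
  have hgg : g * g ∈ H0 := (mem_GE_iff (q := red) (e := (p * p).1.1)
    (show red (1 + 1) = 0 by decide)).1 (p * p).2
  have e : p * p = z * j _ hgg := Subtype.ext (Prod.ext
    (show (1 + 1 : ZMod 4) = 2 + 0 by decide) (one_mul _).symm)
  have a1 := hm (g * g) ⟨hgg, by rw [map_mul, g1, mul_one], by simp⟩
  simp only [dif_pos hgg] at a1
  have a2 := hr p p
  rw [e, hr, hz, a1, two] at a2
  exact absurd a2 (by decide)

theorem agree {T M W : Type*} [Monoid T] [MulAction T M] [MulAction T W] (hd : DenseUnits T M)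
    (σ : T ≃* T) (D : Finset M) (y : W) (h : ∀ t : T, Fixes t D → σ t • y = y) (s t : T)
    (hst : ∀ a ∈ D, s • a = t • a) : σ s • y = σ t • y := by
  obtain ⟨u, hu⟩ := hd s D
  have h1 : ∀ s' : T, (∀ a ∈ D, s' • a = (u : T) • a) → σ s' • y = σ u • y := by
    intro s' hs'
    conv_rhs => rw [← h _ (fixes_inv_mul hs')]
    rw [← mul_smul, ← map_mul, ← mul_assoc, Units.mul_inv, one_mul]
  rw [h1 s hu, h1 t fun a ha => by rw [← hst a ha, hu a ha]]

section realise
variable {T M Ω : Type} [Monoid T] [MulAction T M] (e : Ω ≃ M)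

variable (T) in
/-- the action transported to `Ω` -/
def rep : T →* Function.End Ω where
  toFun t := fun x => e.symm (t • e x)
  map_one' := funext fun x => by
    rw [one_smul, e.symm_apply_apply]; rfl
  map_mul' s t := funext fun x => by
    change _ = e.symm (s • e (e.symm (t • e x)))
    rw [e.apply_symm_apply, mul_smul]

theorem rep_inj (h : ClosedAct T M) : Function.Injective (rep T e) := fun s t hst =>
  h.faith s t fun a => by
    have := congrFun hst (e.symm a)
    change e.symm (s • e (e.symm a)) = e.symm (t • e (e.symm a)) at this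
    rw [e.apply_symm_apply] at this
    exact e.symm.injective this

variable [TopologicalSpace Ω] [DiscreteTopology Ω]

theorem rep_closed (h : ClosedAct T M) : IsClosedMonoid (MonoidHom.mrange (rep T e)) := by
  rw [isClosedMonoid_iff]
  intro f hf
  obtain ⟨t, ht⟩ := h.closed (fun a => e (f (e.symm a))) (by
    intro D
    obtain ⟨_, ⟨t, rfl⟩, ht⟩ := hf (D.image e.symm)
    refine ⟨t, fun a ha => ?_⟩
    rw [ht _ (Finset.mem_image_of_mem _ ha)]
    change e (e.symm (t • e (e.symm a))) = _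
    rw [e.apply_symm_apply, e.apply_symm_apply])
  refine ⟨t, funext fun x => ?_⟩
  change e.symm (t • e x) = f x
  rw [← ht, e.symm_apply_apply, e.symm_apply_apply]

theorem exists_realise (h : ClosedAct T M) (hd : DenseUnits T M) :
    ∃ G : Subgroup (Equiv.Perm Ω), IsClosedGroup G ∧
      (∃ ξ : T ≃* closureMonoid G, ∀ t x, (ξ t).1 x = e.symm (t • e x)) ∧
      ∃ φ : Tˣ ≃* G, ∀ u x, (φ u).1 x = e.symm ((u : T) • e x) := by
  let ξ0 : T ≃* MonoidHom.mrange (rep T e) :=
    MulEquiv.ofBijective (rep T e).mrangeRestrict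
      ⟨fun s t hst => rep_inj e h (congrArg Subtype.val hst), (rep T e).mrangeRestrict_surjective⟩
  let φ : Tˣ ≃* unitGroup (MonoidHom.mrange (rep T e)) :=
    (Units.mapEquiv ξ0).trans (unitEquiv _).symm
  have hφ : ∀ u x, (φ u).1 x = e.symm ((u : T) • e x) := fun _ _ => rfl
  have heq : MonoidHom.mrange (rep T e) =
      closureMonoid (unitGroup (MonoidHom.mrange (rep T e))) := by
    ext f
    rw [mem_closureMonoid]
    constructor
    · rintro ⟨t, rfl⟩ D
      obtain ⟨u, hu⟩ := hd t (D.image e)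
      refine ⟨(φ u).1, (φ u).2, fun a ha => ?_⟩
      rw [hφ, ← hu _ (Finset.mem_image_of_mem _ ha)]
      rfl
    · intro hf
      exact (isClosedMonoid_iff _).1 (rep_closed e h) f fun D => by
        obtain ⟨g, hg, h⟩ := hf D
        exact ⟨_, hg.1, h⟩
  exact ⟨_, isClosedGroup_unitGroup (rep_closed e h),
    ⟨ξ0.trans (MulEquiv.submonoidCongr heq), fun _ _ => rfl⟩, φ, hφ⟩

end realise

theorem descent_fails (Ω : Type) [Countable Ω] [Infinite Ω] [TopologicalSpace Ω]
    [DiscreteTopology Ω] :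
    ∃ G : Subgroup (Equiv.Perm Ω), IsClosedGroup G ∧ MonoidReconstructible (closureMonoid G) ∧
      ¬ GroupReconstructible G := by
  obtain ⟨e2⟩ : Nonempty (Ω ≃ Pt (ZMod 2 × ZMod 2)) := nonempty_equiv_of_countable
  obtain ⟨e1⟩ : Nonempty (Ω ≃ Pt (ZMod 4)) := nonempty_equiv_of_countable
  obtain ⟨G, hG, ⟨ξ, hξ⟩, φ, hφ⟩ := exists_realise e2 (closedAct (q := q2)) denseUnits
  obtain ⟨G', hG', -, φ', hφ'⟩ := exists_realise e1 (closedAct (q := red)) denseUnits
  refine ⟨G, hG, ?_, fun hrec => ?_⟩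
  · rintro T hT ⟨η0⟩
    let η : NE q2 ≃* T := ξ.trans η0
    letI inst : MulAction (NE q2) Ω := MulAction.compHom Ω η.toMonoidHom
    have hsm : ∀ (t : NE q2) (y : Ω), t • y = (η t).1 y := fun _ _ => rfl
    have hW : ClosedAct (NE q2) Ω := by
      have h0 := closedAct_of_closed hT
      refine ⟨fun s t h => η.injective (h0.faith _ _ h), fun f hf => ?_⟩
      obtain ⟨t, ht⟩ := h0.closed f fun D => by
        obtain ⟨t, ht⟩ := hf D
        exact ⟨η t, ht⟩
      refine ⟨η.symm t, fun a => ?_⟩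
      rw [hsm, η.apply_symm_apply, ht]
      rfl
    have hd : DenseUnits (NE q2) Ω := dense_units (closedAct (q := q2)) denseUnits hW
    obtain ⟨σ, h1, h2⟩ := exists_twist hW hd
    choose D1 hD1 using h1
    choose D2 hD2 using h2
    let E := ξ.symm.trans (σ.trans η)
    have c1 := continuous_of_support E (fun y => (D1 y).image e2.symm) fun m m' y h => by
      refine agree (denseUnits (q := q2)) σ (D1 y) y (hD1 y) (ξ.symm m) (ξ.symm m')
        fun a ha => ?_
      have := h _ (Finset.mem_image_of_mem _ ha)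
      rw [← ξ.apply_symm_apply m, ← ξ.apply_symm_apply m', hξ, hξ, e2.apply_symm_apply] at this
      exact e2.symm.injective this
    have c2 := continuous_of_support E.symm (fun y => D2 (e2 y)) fun m m' y h => by
      change (ξ (σ.symm (η.symm m))).1 y = (ξ (σ.symm (η.symm m'))).1 y
      rw [hξ, hξ, agree hd σ.symm (D2 (e2 y)) (e2 y) (fun t ht => hD2 _ _ (by
        rwa [σ.apply_symm_apply])) (η.symm m) (η.symm m') fun a ha => by
          rw [hsm, hsm, η.apply_symm_apply, η.apply_symm_apply, h a ha]]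
    letI := monoidTop (closureMonoid G)
    letI := monoidTop T
    exact ⟨E, (Homeomorph.mk E.toEquiv c1 c2).isHomeomorph⟩
  · obtain ⟨Φ⟩ := abstract_iso
    obtain ⟨f, hf⟩ := hrec G' hG' ⟨φ.symm.trans ((unitsGE q2).symm.trans
      (Φ.trans ((unitsGE red).trans φ')))⟩
    have hc : @Continuous _ _ (groupTop G') (groupTop G) f.symm := by
      letI := groupTop G
      letI := groupTop G'
      exact (f.toEquiv.continuous_symm_iff).2 hf.isOpenMap
    obtain ⟨D, hD⟩ := exists_support f.symm.toMonoidHom hc (e2.symm (Pt.cen 0))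
    refine no_iso ((unitsGE red).trans (φ'.trans (f.symm.trans
      (φ.symm.trans (unitsGE q2).symm)))) (D.image e1) fun p hp => ?_
    have h1 := hD (φ' (unitsGE red p)) fun a ha => by
      rw [hφ', hp _ (Finset.mem_image_of_mem _ ha), e1.symm_apply_apply]
    change (f.symm (φ' (unitsGE red p))).1 _ = _ at h1
    rw [← φ.apply_symm_apply (f.symm _), hφ, e2.apply_symm_apply] at h1
    have h2 := Pt.cen.inj (e2.symm.injective h1)
    rw [add_zero] at h2
    exact h2

end Pool.Agent.P.MP_859560_lc.Desc
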