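import Pool.Agent.P.MP_859560_lc.DescFree
import Pool.Agent.P.MP_859560_lc.DescAbstract

namespace Pool.Agent.P.MP_859560_lc.Desc

open Classical

/-- Cantor space -/
abbrev X := ℕ → Bool

/-- agreement below level `n` -/
def Agr (n : ℕ) (x y : X) : Prop := ∀ i < n, x i = y i

theorem Agr.refl (n : ℕ) (x : X) : Agr n x x := fun _ _ => rfl

theorem Agr.symm {n : ℕ} {x y : X} (h : Agr n x y) : Agr n y x := fun i hi => (h i hi).symm

theorem Agr.trans {n : ℕ} {x y z : X} (h : Agr n x y) (h' : Agr n y z) : Agr n x z :=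
  fun i hi => (h i hi).trans (h' i hi)

theorem Agr.mono {n m : ℕ} {x y : X} (h : Agr m x y) (hn : n ≤ m) : Agr n x y :=
  fun i hi => h i (by omega)

theorem agr_iff_res {n : ℕ} {x y : X} : Agr n x y ↔ PiNat.res x n = PiNat.res y n :=
  PiNat.res_eq_res.symm

/-- flip the coordinate following the string `v` -/
noncomputable def flip (v : List Bool) (x : X) : X :=
  if PiNat.res x v.length = v then Function.update x v.length (!x v.length) else x

theorem flip_ne (v : List Bool) (x : X) {i : ℕ} (hi : i ≠ v.length) : flip v x i = x i := by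
  unfold flip
  split_ifs
  · exact Function.update_of_ne hi _ _
  · rfl

theorem flip_agr_self (v : List Bool) (x : X) : Agr v.length (flip v x) x :=
  fun _ hi => flip_ne v x hi.ne

theorem flip_flip (v : List Bool) : Function.Involutive (flip v) := by
  intro x
  have h := agr_iff_res.1 (flip_agr_self v x)
  by_cases hx : PiNat.res x v.length = v
  · rw [flip, if_pos (h.trans hx), flip, if_pos hx]
    simp
  · rw [flip, if_neg (fun h' => hx (h.symm.trans h')), flip, if_neg hx]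

theorem flip_agr (v : List Bool) {n : ℕ} {x y : X} (h : Agr n x y) :
    Agr n (flip v x) (flip v y) := by
  intro i hi
  by_cases hv : i = v.length
  · subst hv
    have h1 := agr_iff_res.1 (h.mono hi.le)
    unfold flip
    rw [h1]
    split_ifs
    · simp [h _ hi]
    · exact h _ hi
  · rw [flip_ne v x hv, flip_ne v y hv, h i hi]

/-- the action of the free group on Cantor space -/
noncomputable def ρ : F →* Equiv.Perm X := FreeGroup.lift fun v => (flip_flip v).toPerm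

theorem ρ_of (v : List Bool) (x : X) : ρ (FreeGroup.of v) x = flip v x := by
  rw [ρ, FreeGroup.lift_apply_of]; rfl

theorem ρ_of_inv (v : List Bool) (x : X) : ρ (FreeGroup.of v)⁻¹ x = flip v x := by
  rw [map_inv, Equiv.Perm.inv_eq_iff_eq, ρ_of, flip_flip]

theorem ρ_agr (n : ℕ) (φ : F) : ∀ x y : X, Agr n x y → Agr n (ρ φ x) (ρ φ y) := by
  refine FreeGroup.induction_on φ ?_ ?_ ?_ ?_
  · intro x y h; rw [map_one]; exact h
  · intro v x y h; rw [ρ_of, ρ_of]; exact flip_agr v h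
  · intro v _ x y h; rw [ρ_of_inv, ρ_of_inv]; exact flip_agr v h
  · intro a b ha hb x y h
    rw [map_mul]
    exact ha _ _ (hb _ _ h)

theorem ρ_π (n : ℕ) (φ : F) : ∀ x : X, Agr n (ρ φ x) (ρ (π n φ) x) := by
  refine FreeGroup.induction_on φ ?_ ?_ ?_ ?_
  · intro x; rw [map_one (π n)]; exact Agr.refl _ _
  · intro v x
    rw [π_of]
    split_ifs with h
    · exact Agr.refl _ _
    · rw [ρ_of, map_one]; exact (flip_agr_self v x).mono (by omega)
  · intro v _ x
    rw [map_inv (π n), π_of]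
    split_ifs with h
    · exact Agr.refl _ _
    · rw [ρ_of_inv, inv_one, map_one]; exact (flip_agr_self v x).mono (by omega)
  · intro a b ha hb x
    rw [map_mul, map_mul, map_mul]
    exact (ρ_agr n a _ _ (hb x)).trans (ha _)

theorem pre_agr (n : ℕ) (g : P0) (x : X) :
    Agr n (fun i => ρ (ev (i + 1) g) x i) (ρ (ev n g) x) := by
  intro i hi
  simp only
  rw [← π_ev (show i + 1 ≤ n from hi) g]
  exact (ρ_π (i + 1) _ x i (by omega)).symm

noncomputable instance actX : MulAction P0 X where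
  smul g x := fun i => ρ (ev (i + 1) g) x i
  one_smul x := funext fun i => by
    change ρ (ev (i + 1) 1) x i = x i
    rw [map_one, map_one]; rfl
  mul_smul g h x := funext fun i => by
    change ρ (ev (i + 1) (g * h)) x i = ρ (ev (i + 1) g) (fun j => ρ (ev (j + 1) h) x j) i
    rw [map_mul, map_mul]
    exact (ρ_agr (i + 1) _ _ _ (pre_agr (i + 1) h x) i (by omega)).symm

theorem smul_agr_ev (n : ℕ) (g : P0) (x : X) : Agr n (g • x) (ρ (ev n g) x) := pre_agr n g x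

theorem Agr.smul {n : ℕ} {x y : X} (h : Agr n x y) (g : P0) : Agr n (g • x) (g • y) :=
  ((smul_agr_ev n g x).trans (ρ_agr n _ _ _ h)).trans (smul_agr_ev n g y).symm

theorem Agr.of_smul {n : ℕ} {x y : X} {g : P0} (h : Agr n (g • x) (g • y)) : Agr n x y := by
  simpa only [inv_smul_smul] using h.smul g⁻¹

theorem agr_of_ev {n : ℕ} {g g' : P0} (h : ev n g = ev n g') (x : X) :
    Agr n (g • x) (g' • x) :=
  (smul_agr_ev n g x).trans (by rw [h]; exact (smul_agr_ev n g' x).symm)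

theorem agr_of_ev_one {n : ℕ} {g : P0} (h : ev n g = 1) (x : X) : Agr n (g • x) x := by
  simpa only [one_smul] using agr_of_ev (g' := 1) (by rw [h, map_one]) x

theorem ι_smul (φ : F) (x : X) : ι φ • x = ρ φ x :=
  funext fun i => (ρ_π (i + 1) φ x i (by omega)).symm

theorem exists_flips {I : Type*} (n : ℕ) (f : I → X) (b : I → Bool) (S : Finset I)
    (hS : ∀ p ∈ S, ∀ q ∈ S, Agr n (f p) (f q) → p = q) :
    ∃ k : P0, ev n k = 1 ∧ ∀ p ∈ S, (k • f p) n = b p := by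
  induction S using Finset.induction_on with
  | empty => exact ⟨1, map_one _, by simp⟩
  | insert p S hp ih =>
    obtain ⟨k, hk, hk'⟩ := ih fun q hq q' hq' =>
      hS q (Finset.mem_insert_of_mem hq) q' (Finset.mem_insert_of_mem hq')
    by_cases h : (k • f p) n = b p
    · refine ⟨k, hk, fun q hq => ?_⟩
      rcases Finset.mem_insert.1 hq with rfl | hq
      · exact h
      · exact hk' q hq
    · have hl : (PiNat.res (f p) n).length = n := PiNat.res_length _ _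
      refine ⟨ι (FreeGroup.of (PiNat.res (f p) n)) * k, ?_, fun q hq => ?_⟩
      · rw [map_mul, hk, ev_ι, π_of, if_neg (by omega), mul_one]
      · rw [mul_smul, ι_smul, ρ_of, flip, hl, agr_iff_res.1 (agr_of_ev_one hk (f q))]
        rcases Finset.mem_insert.1 hq with rfl | hq'
        · rw [if_pos rfl, Function.update_self]
          revert h
          cases (k • f q) n <;> cases b q <;> simp
        · rw [if_neg, hk' q hq']
          intro h'
          exact hp (hS q hq p (Finset.mem_insert_self _ _) (agr_iff_res.2 h') ▸ hq')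

theorem exists_sep_point {I : Type*} (f : I → X) (x : X) (S : Finset I) (h : ∀ p ∈ S, f p ≠ x)
    (n : ℕ) : ∃ m, n ≤ m ∧ ∀ p ∈ S, ¬ Agr m (f p) x := by
  have h1 : ∀ p, ∃ i, p ∈ S → f p i ≠ x i := by
    intro p
    by_cases hp : p ∈ S
    · obtain ⟨i, hi⟩ := Function.ne_iff.1 (h p hp)
      exact ⟨i, fun _ => hi⟩
    · exact ⟨0, fun h => absurd h hp⟩
  choose c hc using h1
  refine ⟨n + S.sup c + 1, by omega, fun p hp h' => hc p hp (h' _ ?_)⟩
  have := Finset.le_sup (f := c) hp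
  omega

/-- the points of `S` lie in different cones of level `n` -/
def Sep (n : ℕ) (S : Finset X) : Prop := ∀ x ∈ S, ∀ y ∈ S, Agr n x y → x = y

theorem Sep.mono {n m : ℕ} {S S' : Finset X} (h : Sep n S) (hn : n ≤ m) (hS : S' ⊆ S) :
    Sep m S' := fun x hx y hy h' => h x (hS hx) y (hS hy) (h'.mono hn)

theorem exists_sep (S : Finset X) (n : ℕ) : ∃ m, n ≤ m ∧ Sep m S := by
  choose c hc hc' using fun y : X => exists_sep_point id y (S.erase y)
    (fun p hp => Finset.ne_of_mem_erase hp) 0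
  refine ⟨n + S.sup c, by omega, fun x hx y hy h => ?_⟩
  by_contra hne
  refine hc' y x (Finset.mem_erase.2 ⟨hne, hx⟩) (h.mono ?_)
  have := Finset.le_sup (f := c) hy
  omega

/-- two disjoint countable dense subsets of Cantor space -/
structure Model (B : ZMod 2 → Set X) : Prop where
  count : ∀ θ, (B θ).Countable
  disj : ∀ θ θ' x, x ∈ B θ → x ∈ B θ' → θ = θ'
  dense : ∀ θ x n, ∃ y ∈ B θ, Agr n y x

/-- `g` maps each colour class of `B` into the same colour class of `B'` -/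
def Maps (g : P0) (B B' : ZMod 2 → Set X) : Prop := ∀ θ, ∀ x ∈ B θ, g • x ∈ B' θ

theorem Maps.mul {g h : P0} {B B' B'' : ZMod 2 → Set X} (hg : Maps g B' B'') (hh : Maps h B B') :
    Maps (g * h) B B'' := fun θ x hx => by rw [mul_smul]; exact hg θ _ (hh θ x hx)

theorem Maps.one (B : ZMod 2 → Set X) : Maps 1 B B := fun θ x hx => by rwa [one_smul]

/-- a stage of the back-and-forth construction -/
structure Ok (B B' : ZMod 2 → Set X) (n : ℕ) (γ : P0) (S : Finset (X × X)) : Prop where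
  col : ∀ p ∈ S, ∃ θ, p.1 ∈ B θ ∧ p.2 ∈ B' θ
  sep : ∀ p ∈ S, ∀ q ∈ S, Agr n p.1 q.1 → p = q
  agr : ∀ p ∈ S, Agr n (γ • p.1) p.2

section hom
variable {B B' : ZMod 2 → Set X}

theorem Ok.up {n : ℕ} {γ : P0} {S : Finset (X × X)} (h : Ok B B' n γ S) {m : ℕ} (hm : n ≤ m) :
    ∃ γ' : P0, ev n γ' = ev n γ ∧ Ok B B' m γ' S := by
  induction m, hm using Nat.le_induction with
  | base => exact ⟨γ, rfl, h⟩
  | succ m hm ih =>
    obtain ⟨γ', h1, h2⟩ := ih
    obtain ⟨k, hk, hk'⟩ := exists_flips m (fun p : X × X => γ' • p.1) (fun p => p.2 m) S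
      fun p hp q hq h' => h2.sep p hp q hq h'.of_smul
    refine ⟨k * γ', by rw [map_mul, ev_one_mono hm hk, one_mul, h1], h2.col,
      fun p hp q hq h' => h2.sep p hp q hq (h'.mono (by omega)), fun p hp i hi => ?_⟩
    rw [mul_smul]
    rcases Nat.lt_succ_iff_lt_or_eq.1 hi with hi | rfl
    · exact ((agr_of_ev_one hk _).trans (h2.agr p hp)) i hi
    · exact hk' p hp

theorem Ok.insert {n : ℕ} {γ : P0} {S : Finset (X × X)} (h : Ok B B' n γ S) {θ : ZMod 2}
    {x x' : X} (hx : x ∈ B θ) (hx' : x' ∈ B' θ) (hs : ∀ p ∈ S, ¬ Agr n p.1 x)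
    (ha : Agr n (γ • x) x') : Ok B B' n γ (insert (x, x') S) := by
  refine ⟨fun p hp => ?_, fun p hp q hq h' => ?_, fun p hp => ?_⟩
  · rcases Finset.mem_insert.1 hp with rfl | hp
    · exact ⟨θ, hx, hx'⟩
    · exact h.col p hp
  · rcases Finset.mem_insert.1 hp with rfl | hp <;> rcases Finset.mem_insert.1 hq with rfl | hq
    · rfl
    · exact absurd h'.symm (hs q hq)
    · exact absurd h' (hs p hp)
    · exact h.sep p hp q hq h'
  · rcases Finset.mem_insert.1 hp with rfl | hp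
    · exact ha
    · exact h.agr p hp

theorem Ok.step (hB : Model B) (hB' : Model B') {n : ℕ} {γ : P0} {S : Finset (X × X)}
    (h : Ok B B' n γ S) (t : {x : X // ∃ θ, x ∈ B θ} ⊕ {x : X // ∃ θ, x ∈ B' θ}) :
    ∃ (m : ℕ) (γ' : P0) (S' : Finset (X × X)), n < m ∧ ev n γ' = ev n γ ∧ S ⊆ S' ∧
      Ok B B' m γ' S' ∧ ∃ p ∈ S', Sum.elim (fun x => p.1 = x.1) (fun x => p.2 = x.1) t := by
  by_cases ht : ∃ p ∈ S, Sum.elim (fun x => p.1 = x.1) (fun x => p.2 = x.1) t
  · obtain ⟨γ', h1, h2⟩ := h.up (Nat.le_succ n)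
    exact ⟨n + 1, γ', S, by omega, h1, subset_rfl, h2, ht⟩
  push Not at ht
  rcases t with ⟨x, θ, hx⟩ | ⟨x', θ, hx'⟩
  · obtain ⟨m, hm, hm'⟩ := exists_sep_point Prod.fst x S ht (n + 1)
    obtain ⟨γ', h1, h2⟩ := h.up (by omega : n ≤ m)
    obtain ⟨x', hx', ha⟩ := hB'.dense θ (γ' • x) m
    exact ⟨m, γ', _, by omega, h1, Finset.subset_insert _ _, h2.insert hx hx' hm' ha.symm,
      _, Finset.mem_insert_self _ _, rfl⟩
  · obtain ⟨m, hm, hm'⟩ := exists_sep_point Prod.snd x' S ht (n + 1)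
    obtain ⟨γ', h1, h2⟩ := h.up (by omega : n ≤ m)
    obtain ⟨x, hx, ha⟩ := hB.dense θ (γ'⁻¹ • x') m
    have ha' : Agr m (γ' • x) x' := by simpa only [smul_inv_smul] using ha.smul γ'
    exact ⟨m, γ', _, by omega, h1, Finset.subset_insert _ _, h2.insert hx hx'
      (fun p hp h' => hm' p hp (((h2.agr p hp).symm.trans (h'.smul γ')).trans ha')) ha',
      _, Finset.mem_insert_self _ _, rfl⟩

theorem Model.countable (hB : Model B) : Countable {x : X // ∃ θ, x ∈ B θ} := by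
  have : (⋃ θ, B θ).Countable := Set.countable_iUnion hB.count
  refine Set.Countable.mono (fun x hx => ?_) this
  exact Set.mem_iUnion.2 hx

theorem Ok.limit (hB : Model B) (hB' : Model B') {m : ℕ} {γ : P0} {S : Finset (X × X)}
    (h : Ok B B' m γ S) :
    ∃ g : P0, ev m g = ev m γ ∧ Maps g B B' ∧ Maps g⁻¹ B' B ∧ ∀ p ∈ S, g • p.1 = p.2 := by
  have := hB.countable
  have := hB'.countable
  have : Nonempty ({x : X // ∃ θ, x ∈ B θ} ⊕ {x : X // ∃ θ, x ∈ B' θ}) := by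
    obtain ⟨y, hy, -⟩ := hB.dense 0 (fun _ => true) 0
    exact ⟨Sum.inl ⟨y, 0, hy⟩⟩
  obtain ⟨τ, hτ⟩ := exists_surjective_nat ({x : X // ∃ θ, x ∈ B θ} ⊕ {x : X // ∃ θ, x ∈ B' θ})
  let St := {s : ℕ × P0 × Finset (X × X) // Ok B B' s.1 s.2.1 s.2.2}
  have h0 : ∀ (s : St) (k : ℕ), ∃ s' : St, s.1.1 < s'.1.1 ∧ ev s.1.1 s'.1.2.1 = ev s.1.1 s.1.2.1 ∧
      s.1.2.2 ⊆ s'.1.2.2 ∧
      ∃ p ∈ s'.1.2.2, Sum.elim (fun x => p.1 = x.1) (fun x => p.2 = x.1) (τ k) := by
    intro s k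
    obtain ⟨m', γ', S', h1, h2, h3, h4, h5⟩ := s.2.step hB hB' (τ k)
    exact ⟨⟨(m', γ', S'), h4⟩, h1, h2, h3, h5⟩
  choose c hc1 hc2 hc3 hc4 using h0
  let s : ℕ → St := fun k => Nat.rec ⟨(m, γ, S), h⟩ (fun k s => c s k) k
  have hs : ∀ k, s (k + 1) = c (s k) k := fun k => rfl
  have hch : ∀ k j, k ≤ j → (s k).1.1 ≤ (s j).1.1 ∧
      ev (s k).1.1 (s j).1.2.1 = ev (s k).1.1 (s k).1.2.1 ∧ (s k).1.2.2 ⊆ (s j).1.2.2 := by
    intro k j hj
    induction j, hj using Nat.le_induction with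
    | base => exact ⟨le_rfl, rfl, subset_rfl⟩
    | succ j hj ih =>
      rw [hs]
      exact ⟨ih.1.trans (hc1 _ _).le, (ev_mono ih.1 (hc2 _ _)).trans ih.2.1,
        ih.2.2.trans (hc3 _ _)⟩
  have hlev : ∀ k, k ≤ (s k).1.1 := by
    intro k
    induction k with
    | zero => omega
    | succ k ih => rw [hs]; exact Nat.succ_le_of_lt (ih.trans_lt (hc1 _ _))
  let g : P0 := ⟨fun n => ev n (s n).1.2.1, fun n k hk => by
    rw [π_ev hk]
    exact ev_mono (hlev n) (hch n k hk).2.1⟩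
  have hg : ∀ k, ev (s k).1.1 g = ev (s k).1.1 (s k).1.2.1 := fun k => (hch k _ (hlev k)).2.1
  have hp : ∀ k, ∀ p ∈ (s k).1.2.2, g • p.1 = p.2 := by
    intro k p hp
    funext i
    have h1 := hlev (k + i + 1)
    exact ((agr_of_ev (hg (k + i + 1)) p.1).trans
      ((s (k + i + 1)).2.agr p ((hch k (k + i + 1) (by omega)).2.2 hp))) i (by omega)
  refine ⟨g, hg 0, fun θ x hx => ?_, fun θ x hx => ?_, hp 0⟩
  · obtain ⟨k, hk⟩ := hτ (Sum.inl ⟨x, θ, hx⟩)
    obtain ⟨p, h1, h2⟩ := hc4 (s k) k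
    rw [hk] at h2
    obtain ⟨θ', h3, h4⟩ := (s (k + 1)).2.col p h1
    have h5 : p.1 = x := h2
    rw [← h5, hp (k + 1) p h1, hB.disj θ θ' x hx (h5 ▸ h3)]
    exact h4
  · obtain ⟨k, hk⟩ := hτ (Sum.inr ⟨x, θ, hx⟩)
    obtain ⟨p, h1, h2⟩ := hc4 (s k) k
    rw [hk] at h2
    obtain ⟨θ', h3, h4⟩ := (s (k + 1)).2.col p h1
    have h5 : p.2 = x := h2
    rw [← h5, ← hp (k + 1) p h1, inv_smul_smul, hB'.disj θ θ' x hx (h5 ▸ h4)]
    exact h3

/-- homogeneity -/
theorem hom (hB : Model B) (hB' : Model B') (m : ℕ) (γ : P0) (S : Finset X) (p : X → X)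
    (hcol : ∀ x ∈ S, ∃ θ, x ∈ B θ ∧ p x ∈ B' θ) (hsep : Sep m S)
    (hagr : ∀ x ∈ S, Agr m (γ • x) (p x)) :
    ∃ g : P0, ev m g = ev m γ ∧ Maps g B B' ∧ Maps g⁻¹ B' B ∧ ∀ x ∈ S, g • x = p x := by
  have h : Ok B B' m γ (S.image fun x => (x, p x)) := by
    refine ⟨fun q hq => ?_, fun q hq q' hq' h => ?_, fun q hq => ?_⟩
    · obtain ⟨x, hx, rfl⟩ := Finset.mem_image.1 hq
      exact hcol x hx
    · obtain ⟨x, hx, rfl⟩ := Finset.mem_image.1 hq
      obtain ⟨y, hy, rfl⟩ := Finset.mem_image.1 hq'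
      rw [hsep x hx y hy h]
    · obtain ⟨x, hx, rfl⟩ := Finset.mem_image.1 hq
      exact hagr x hx
  obtain ⟨g, h1, h2, h3, h4⟩ := h.limit hB hB'
  exact ⟨g, h1, h2, h3, fun x hx => h4 _ (Finset.mem_image_of_mem _ hx)⟩

theorem hom0 (hB : Model B) (hB' : Model B') (m : ℕ) (γ : P0) :
    ∃ g : P0, ev m g = ev m γ ∧ Maps g B B' ∧ Maps g⁻¹ B' B := by
  obtain ⟨g, h1, h2, h3, -⟩ := hom hB hB' m γ ∅ id (by simp) (by simp [Sep]) (by simp)
  exact ⟨g, h1, h2, h3⟩

end hom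

/-- the tail equivalence class -/
def tail (x : X) : Set X := {y | {i | y i ≠ x i}.Finite}

theorem tail_symm {x y : X} (h : y ∈ tail x) : x ∈ tail y :=
  Set.Finite.subset h fun _ hi => Ne.symm hi

theorem tail_trans {x y z : X} (h : y ∈ tail x) (h' : z ∈ tail y) : z ∈ tail x :=
  (Set.Finite.union h h').subset fun i hi => by
    by_contra h1
    simp only [Set.mem_union, Set.mem_ofPred_eq, not_or, not_not] at h1
    exact hi (h1.2.trans h1.1)

theorem tail_countable (x : X) : (tail x).Countable := by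
  refine (Set.countable_range fun s : Finset ℕ => fun i => if i ∈ s then !x i else x i).mono ?_
  intro y hy
  refine ⟨Set.Finite.toFinset hy, funext fun i => ?_⟩
  simp only [Set.Finite.mem_toFinset, Set.mem_ofPred_eq]
  cases x i <;> cases y i <;> simp

theorem tail_dense (x y : X) (n : ℕ) : ∃ z ∈ tail x, Agr n z y := by
  refine ⟨fun i => if i < n then y i else x i, (Set.finite_lt_nat n).subset fun i hi => ?_,
    fun i hi => if_pos hi⟩
  by_contra h
  exact hi (if_neg h)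

theorem exists_not_mem {Y : Set X} (hY : Y.Countable) : ∃ x : X, ∀ y ∈ Y, x ∉ tail y := by
  by_contra h
  push Not at h
  have h1 : (Set.univ : Set X).Countable :=
    (hY.biUnion fun y _ => tail_countable y).mono fun x _ => by
      obtain ⟨y, hy, h'⟩ := h x
      exact Set.mem_biUnion hy h'
  rw [Set.countable_univ_iff] at h1
  obtain ⟨f, hf⟩ := exists_surjective_nat X
  obtain ⟨n, hn⟩ := hf fun i => !f i i
  have := congrFun hn n
  simp at this

theorem exists_model {Y : Set X} (hY : Y.Countable) :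
    ∃ B : ZMod 2 → Set X, Model B ∧ ∀ θ, ∀ y ∈ B θ, y ∉ Y := by
  obtain ⟨x0, h0⟩ := exists_not_mem hY
  obtain ⟨x1, h1⟩ := exists_not_mem (hY.insert x0)
  have h01 : ∀ z, z ∈ tail x0 → z ∈ tail x1 → False := fun z a b =>
    h1 x0 (Set.mem_insert _ _) (tail_trans a (tail_symm b))
  refine ⟨fun θ => tail (if θ = 0 then x0 else x1),
    ⟨fun θ => tail_countable _, fun θ θ' z a b => ?_, fun θ x n => tail_dense _ _ _⟩,
    fun θ y hy hy' => ?_⟩
  · by_cases e : θ = 0 <;> by_cases e' : θ' = 0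
    · rw [e, e']
    · simp only [if_pos e, if_neg e'] at a b
      exact (h01 z a b).elim
    · simp only [if_neg e, if_pos e'] at a b
      exact (h01 z b a).elim
    · clear a b
      revert θ θ'
      decide
  · by_cases e : θ = 0
    · simp only [if_pos e] at hy
      exact h0 y hy' (tail_symm hy)
    · simp only [if_neg e] at hy
      exact h1 y (Set.mem_insert_of_mem _ hy') (tail_symm hy)

/-- the base model -/
noncomputable def A : ZMod 2 → Set X := (exists_model Set.countable_empty).choose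

theorem hA : Model A := (exists_model Set.countable_empty).choose_spec.1

theorem exists_fresh (θ : ZMod 2) (x : X) (n : ℕ) (Y : Finset X) :
    ∃ y ∈ A θ, Agr n y x ∧ y ∉ Y := by
  obtain ⟨B, hB, hB'⟩ := exists_model Y.countable_toSet
  obtain ⟨z, hz, hz'⟩ := hB.dense 0 x n
  obtain ⟨m, hm, hm'⟩ := exists_sep_point id z Y (fun p hp e => hB' 0 z hz (e ▸ hp)) n
  obtain ⟨y, hy, hy'⟩ := hA.dense θ z m
  exact ⟨y, hy, (hy'.mono hm).trans hz', fun h => hm' y h hy'⟩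

/-- colour preserving self-embeddings -/
def N0 : Submonoid P0 where
  carrier := {g | Maps g A A}
  one_mem' := Maps.one A
  mul_mem' := Maps.mul

/-- colour preserving automorphisms -/
def H0 : Subgroup P0 where
  carrier := {g | Maps g A A ∧ Maps g⁻¹ A A}
  one_mem' := ⟨Maps.one A, by rw [inv_one]; exact Maps.one A⟩
  mul_mem' := fun {a b} ha hb => ⟨ha.1.mul hb.1, by rw [mul_inv_rev]; exact hb.2.mul ha.2⟩
  inv_mem' := fun {a} ha => ⟨ha.2, by rw [inv_inv]; exact ha.1⟩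

/-- basic open subgroups -/
def Vs (S : Finset X) (n : ℕ) : Subgroup P0 where
  carrier := {g | g ∈ H0 ∧ ev n g = 1 ∧ ∀ x ∈ S, g • x = x}
  one_mem' := ⟨H0.one_mem, map_one _, fun x _ => one_smul _ x⟩
  mul_mem' := fun {a b} ha hb => ⟨H0.mul_mem ha.1 hb.1, by rw [map_mul, ha.2.1, hb.2.1, mul_one],
    fun x hx => by rw [mul_smul, hb.2.2 x hx, ha.2.2 x hx]⟩
  inv_mem' := fun {a} ha => ⟨H0.inv_mem ha.1, by rw [map_inv, ha.2.1, inv_one],
    fun x hx => by rw [inv_smul_eq_iff, ha.2.2 x hx]⟩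

theorem Vs_mono {S S' : Finset X} {n m : ℕ} (hS : S ⊆ S') (h : n ≤ m) : Vs S' m ≤ Vs S n :=
  fun _ hg => ⟨hg.1, ev_one_mono h hg.2.1, fun x hx => hg.2.2 x (hS hx)⟩

theorem Vs_union {S S' : Finset X} {n : ℕ} {g : P0} (h : g ∈ Vs S n) (h' : g ∈ Vs S' n) :
    g ∈ Vs (S ∪ S') n :=
  ⟨h.1, h.2.1, fun x hx => (Finset.mem_union.1 hx).elim (h.2.2 x) (h'.2.2 x)⟩

theorem Vs_conj {S : Finset X} {n : ℕ} {k g : P0} (hk : k ∈ H0)
    (h : g ∈ Vs (S.image fun x => k • x) n) : k⁻¹ * g * k ∈ Vs S n :=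
  ⟨H0.mul_mem (H0.mul_mem (H0.inv_mem hk) h.1) hk,
    by rw [map_mul, map_mul, h.2.1, mul_one, ← map_mul, inv_mul_cancel, map_one],
    fun x hx => by
      rw [mul_smul, mul_smul, h.2.2 _ (Finset.mem_image_of_mem _ hx), inv_smul_smul]⟩

theorem Vs_normal {n : ℕ} {k g : P0} (hk : k ∈ H0) (h : g ∈ Vs ∅ n) : k⁻¹ * g * k ∈ Vs ∅ n :=
  Vs_conj hk (by rwa [Finset.image_empty])

/-- all points of `S` are coloured -/
def InA (S : Finset X) : Prop := ∀ x ∈ S, ∃ θ, x ∈ A θ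

theorem InA.union {S S' : Finset X} (h : InA S) (h' : InA S') : InA (S ∪ S') :=
  fun x hx => (Finset.mem_union.1 hx).elim (h x) (h' x)

theorem InA.image {S : Finset X} (h : InA S) {k : P0} (hk : k ∈ H0) :
    InA (S.image fun x => k • x) := by
  intro y hy
  obtain ⟨x, hx, rfl⟩ := Finset.mem_image.1 hy
  obtain ⟨θ, hθ⟩ := h x hx
  exact ⟨θ, hk.1 θ x hθ⟩

theorem InA.empty : InA ∅ := by simp [InA]

theorem gen {a b c : Finset X} {m : ℕ} (hin : InA (a ∪ b ∪ c)) (hsep : Sep m (a ∪ b ∪ c))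
    (hbc : ∀ x ∈ b, x ∈ c → x ∈ a) {h : P0} (hh : h ∈ Vs a m) :
    ∃ k ∈ Vs b m, k ∈ Vs a m ∧ k⁻¹ * h ∈ Vs c m := by
  obtain ⟨k, h1, h2, h3, h4⟩ := hom hA hA m 1 (a ∪ b ∪ c)
    (fun x => if x ∈ b then x else h • x) (fun x hx => by
      obtain ⟨θ, hθ⟩ := hin x hx
      refine ⟨θ, hθ, ?_⟩
      split_ifs
      · exact hθ
      · exact hh.1.1 θ x hθ) hsep (fun x _ => by
      rw [one_smul]
      split_ifs
      · exact Agr.refl _ _
      · exact (agr_of_ev_one hh.2.1 x).symm)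
  rw [map_one] at h1
  have hk : k ∈ H0 := ⟨h2, h3⟩
  refine ⟨k, ⟨hk, h1, fun x hx => ?_⟩, ⟨hk, h1, fun x hx => ?_⟩, H0.mul_mem (H0.inv_mem hk) hh.1,
    by rw [map_mul, map_inv, h1, hh.2.1, inv_one, mul_one], fun x hx => ?_⟩
  · rw [h4 x (by simp [hx]), if_pos hx]
  · rw [h4 x (by simp [hx]), hh.2.2 x hx, ite_self]
  · rw [mul_smul, inv_smul_eq_iff, h4 x (by simp [hx])]
    split_ifs with hb
    · exact hh.2.2 x (hbc x hb hx)
    · rfl

theorem move {w S : Finset X} {n : ℕ} (hin : InA (w ∪ S)) (hsep : Sep n (w ∪ S)) (Y : Finset X) :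
    ∃ k ∈ Vs w n, ∀ x ∈ S, x ∉ w → k • x ∉ Y := by
  have h0 : ∀ x : X, ∃ y : X, x ∈ w ∪ S → (∃ θ, x ∈ A θ ∧ y ∈ A θ) ∧ Agr n y x ∧
      (x ∈ w → y = x) ∧ (x ∉ w → y ∉ Y) := by
    intro x
    by_cases hx : x ∈ w ∪ S
    · obtain ⟨θ, hθ⟩ := hin x hx
      by_cases hw : x ∈ w
      · exact ⟨x, fun _ => ⟨⟨θ, hθ, hθ⟩, Agr.refl _ _, fun _ => rfl, fun h => absurd hw h⟩⟩
      · obtain ⟨y, h1, h2, h3⟩ := exists_fresh θ x n Y
        exact ⟨y, fun _ => ⟨⟨θ, hθ, h1⟩, h2, fun h => absurd h hw, fun _ => h3⟩⟩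
    · exact ⟨x, fun h => absurd h hx⟩
  choose p hp using h0
  obtain ⟨k, h1, h2, h3, h4⟩ := hom hA hA n 1 (w ∪ S) p (fun x hx => (hp x hx).1) hsep
    (fun x hx => by rw [one_smul]; exact (hp x hx).2.1.symm)
  rw [map_one] at h1
  refine ⟨k, ⟨⟨h2, h3⟩, h1, fun x hx => ?_⟩, fun x hx hw => ?_⟩
  · rw [h4 x (by simp [hx])]
    exact (hp x (by simp [hx])).2.2.1 hx
  · rw [h4 x (by simp [hx])]
    exact (hp x (by simp [hx])).2.2.2 hw

/-- a character vanishing near the identity vanishes on a level subgroup -/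
theorem nc {w S : Finset X} {n0 n' : ℕ} (hw : InA w) (hS : InA S) {d : P0 → ZMod 2}
    (hd : AddOn d (Vs w n0)) (hd' : ∀ h ∈ Vs w n0, h ∈ Vs S n' → d h = 0) :
    ∃ m, n0 ≤ m ∧ ∀ h ∈ Vs w m, d h = 0 := by
  obtain ⟨n1, hn1, hsep1⟩ := exists_sep (w ∪ S) (n0 + n')
  obtain ⟨k, hk, hk'⟩ := move (hw.union hS) hsep1 S
  have hk0 : k ∈ Vs w n0 := Vs_mono subset_rfl (by omega) hk
  obtain ⟨m, hm, hsep⟩ := exists_sep (w ∪ (S.image fun x => k • x) ∪ S) n1
  refine ⟨m, by omega, fun h hh => ?_⟩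
  obtain ⟨l, hl1, hl2, hl3⟩ := gen ((hw.union (hS.image hk.1)).union hS) hsep (by
    intro y hy hyS
    obtain ⟨x, hx, rfl⟩ := Finset.mem_image.1 hy
    by_cases hxw : x ∈ w
    · rw [hk.2.2 x hxw]; exact hxw
    · exact absurd hyS (hk' x hx hxw)) hh
  have hl0 : l ∈ Vs w n0 := Vs_mono subset_rfl (by omega) hl2
  have hh0 : h ∈ Vs w n0 := Vs_mono subset_rfl (by omega) hh
  have hx0 : l⁻¹ * h ∈ Vs w n0 := (Vs w n0).mul_mem ((Vs w n0).inv_mem hl0) hh0
  have e1 := hd l hl0 _ hx0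
  rw [mul_inv_cancel_left] at e1
  rw [e1, hd' _ hx0 (Vs_mono subset_rfl (by omega) hl3), add_zero, ← hd.conj hk0 hl0]
  exact hd' _ ((Vs w n0).mul_mem ((Vs w n0).mul_mem ((Vs w n0).inv_mem hk0) hl0) hk0)
    (Vs_mono subset_rfl (by omega) (Vs_conj hk.1 hl1))

theorem Model.smul {B : ZMod 2 → Set X} (hB : Model B) (p : P0) :
    Model fun θ => (fun x => p • x) '' B θ := by
  refine ⟨fun θ => (hB.count θ).image _, ?_, fun θ x n => ?_⟩
  · rintro θ θ' _ ⟨x, hx, rfl⟩ ⟨y, hy, e⟩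
    exact hB.disj θ θ' x hx (smul_left_cancel p e ▸ hy)
  · obtain ⟨y, hy, h⟩ := hB.dense θ (p⁻¹ • x) n
    exact ⟨_, ⟨y, hy, rfl⟩, by simpa only [smul_inv_smul] using h.smul p⟩

/-- the union of compatible translates of the base model -/
theorem exists_union (I : Finset P0) (hI : I.Nonempty)
    (hc : ∀ p ∈ I, ∀ q ∈ I, ∀ θ θ', ∀ x ∈ A θ, ∀ y ∈ A θ', p • x = q • y → θ = θ') :
    ∃ w : P0, (∀ p ∈ I, w⁻¹ * p ∈ N0) ∧ ∀ u : P0, (∀ p ∈ I, u * p ∈ N0) → u * w ∈ N0 := by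
  have hB : Model fun θ => {z | ∃ p ∈ I, ∃ x ∈ A θ, z = p • x} := by
    refine ⟨fun θ => ?_, ?_, fun θ x n => ?_⟩
    · refine (I.countable_toSet.biUnion fun p _ => (hA.smul p).count θ).mono ?_
      rintro _ ⟨p, hp, x, hx, rfl⟩
      exact Set.mem_biUnion hp ⟨x, hx, rfl⟩
    · rintro θ θ' _ ⟨p, hp, x, hx, rfl⟩ ⟨q, hq, y, hy, e⟩
      exact hc p hp q hq θ θ' x hx y hy e
    · obtain ⟨p, hp⟩ := hI
      obtain ⟨_, ⟨y, hy, rfl⟩, h⟩ := (hA.smul p).dense θ x n
      exact ⟨_, ⟨p, hp, y, hy, rfl⟩, h⟩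
  obtain ⟨w, -, h1, h2⟩ := hom0 hA hB 0 1
  refine ⟨w, fun p hp θ x hx => ?_, fun u hu θ x hx => ?_⟩
  · rw [mul_smul]
    exact h2 θ _ ⟨p, hp, x, hx, rfl⟩
  · obtain ⟨p, hp, y, hy, e⟩ := h1 θ x hx
    rw [mul_smul, e, ← mul_smul]
    exact hu p hp θ y hy

theorem compat_of {p q u : P0} (hp : u * p ∈ N0) (hq : u * q ∈ N0) :
    ∀ θ θ', ∀ x ∈ A θ, ∀ y ∈ A θ', p • x = q • y → θ = θ' := by
  intro θ θ' x hx y hy e
  refine hA.disj θ θ' _ (hp θ x hx) ?_
  rw [mul_smul, e, ← mul_smul]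
  exact hq θ' y hy

theorem compat_self (p : P0) : ∀ θ θ', ∀ x ∈ A θ, ∀ y ∈ A θ', p • x = p • y → θ = θ' :=
  compat_of (u := p⁻¹) (by rw [inv_mul_cancel]; exact N0.one_mem)
    (by rw [inv_mul_cancel]; exact N0.one_mem)

/-- characters of the monoid of colour preserving embeddings extend to the inverse limit -/
theorem chunk_N0 (d : P0 → ZMod 2) (hd : ∀ a ∈ N0, ∀ b ∈ N0, d (a * b) = d a + d b) :
    ∃ δ : P0 → ZMod 2, (∀ a b, δ (a * b) = δ a + δ b) ∧ ∀ a ∈ N0, δ a = d a := by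
  refine chunk N0 d hd (fun p q u hp hq => ?_) ?_ fun p q r s => ?_
  · obtain ⟨w, h1, h2⟩ := exists_union {p, q} (by simp) (by
      intro a ha b hb
      simp only [Finset.mem_insert, Finset.mem_singleton] at ha hb
      rcases ha with rfl | rfl <;> rcases hb with rfl | rfl
      exacts [compat_self _, compat_of hp hq, compat_of hq hp, compat_self _])
    refine ⟨w, h1 p (by simp), h1 q (by simp), fun u' hp' hq' => h2 u' fun a ha => ?_⟩
    simp only [Finset.mem_insert, Finset.mem_singleton] at ha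
    rcases ha with rfl | rfl
    exacts [hp', hq']
  · rintro p q r ⟨u1, a1, b1⟩ ⟨u2, a2, b2⟩ ⟨u3, a3, b3⟩
    obtain ⟨w, h1, -⟩ := exists_union {p, q, r} (by simp) (by
      intro a ha b hb
      simp only [Finset.mem_insert, Finset.mem_singleton] at ha hb
      rcases ha with rfl | rfl | rfl <;> rcases hb with rfl | rfl | rfl
      exacts [compat_self _, compat_of a1 b1, compat_of a3 b3, compat_of b1 a1, compat_self _,
        compat_of a2 b2, compat_of b3 a3, compat_of b2 a2, compat_self _])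
    exact ⟨w⁻¹, h1 p (by simp), h1 q (by simp), h1 r (by simp)⟩
  · have hY : (⋃ t ∈ ({p, q, r, s} : Finset P0), ⋃ θ, (fun x => t • x) '' A θ).Countable :=
      (Finset.countable_toSet _).biUnion fun t _ => Set.countable_iUnion (hA.smul t).count
    obtain ⟨B, hB, hB'⟩ := exists_model hY
    obtain ⟨c, -, hc, -⟩ := hom0 hA hB 0 1
    have key : ∀ t ∈ ({p, q, r, s} : Finset P0), ∃ u, u * t ∈ N0 ∧ u * c ∈ N0 := by
      intro t ht
      have hne : ∀ θ θ', ∀ x ∈ A θ, ∀ y ∈ A θ', t • x ≠ c • y := by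
        intro θ θ' x hx y hy e
        exact hB' θ' _ (hc θ' y hy) (Set.mem_biUnion ht (Set.mem_iUnion.2 ⟨θ, x, hx, e⟩))
      obtain ⟨w, h1, -⟩ := exists_union {t, c} (by simp) (by
        intro a ha b hb
        simp only [Finset.mem_insert, Finset.mem_singleton] at ha hb
        rcases ha with rfl | rfl <;> rcases hb with rfl | rfl
        exacts [compat_self _, fun θ θ' x hx y hy e => absurd e (hne θ θ' x hx y hy),
          fun θ θ' x hx y hy e => absurd e.symm (hne θ' θ y hy x hx), compat_self _])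
      exact ⟨w⁻¹, h1 t (by simp), h1 c (by simp)⟩
    exact ⟨c, key p (by simp), key q (by simp), key r (by simp), key s (by simp)⟩

end Pool.Agent.P.MP_859560_lc.Desc
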