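import Pool.Agent.P.MP_859560_lc.DescModel

namespace Pool.Agent.P.MP_859560_lc.Desc

open Classical Pool.Agent.P.MP_859560_lc

/-- the base model with shifted colours -/
def sh (j : ZMod 2) : ZMod 2 → Set X := fun θ => A (θ + j)

theorem model_sh (j : ZMod 2) : Model (sh j) :=
  ⟨fun _ => hA.count _, fun _ _ x h h' => add_right_cancel (hA.disj _ _ x h h'),
    fun _ => hA.dense _⟩

theorem sh_zero : sh 0 = A := funext fun θ => by rw [sh, add_zero]

theorem maps_sh_inv {g : P0} {j : ZMod 2} (h : Maps g (sh j) A) : Maps g A (sh (-j)) :=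
  fun θ x hx => h (θ + -j) x (by rwa [sh, neg_add_cancel_right])

theorem sh_eq_zero {g : P0} {j : ZMod 2} (h : Maps g A (sh j)) {x : X} (hx : ∃ θ, x ∈ A θ)
    (e : g • x = x) : j = 0 := by
  obtain ⟨θ, hθ⟩ := hx
  have := h θ x hθ
  rw [e] at this
  exact left_eq_add.1 (hA.disj _ _ x hθ this)

variable {E : Type} [AddCommGroup E] (q : E →+ ZMod 2)

/-- the monoid of pairs `(e, g)` with `g` shifting the colours by `q e` -/
def NE : Submonoid (Multiplicative E × P0) where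
  carrier := {p | Maps p.2 A (sh (q p.1.toAdd))}
  one_mem' := by
    change Maps 1 A (sh (q 0))
    rw [map_zero, sh_zero]
    exact Maps.one A
  mul_mem' := fun {a b} ha hb θ x hx => by
    have := ha _ _ (hb θ x hx)
    change (a.2 * b.2) • x ∈ A (θ + q (a.1.toAdd + b.1.toAdd))
    rw [mul_smul, map_add, add_comm (q _), ← add_assoc]
    exact this

/-- the points on which the monoid acts -/
inductive Pt (E : Type) : Type
  | pt (x : {x : X // ∃ θ, x ∈ A θ})
  | lev (n : ℕ) (φ : F)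
  | cen (e : E)

instance [Countable E] : Countable (Pt E) := by
  have := hA.countable
  have h : Function.Surjective (fun a : {x : X // ∃ θ, x ∈ A θ} ⊕ (ℕ × F) ⊕ E =>
      (match a with
        | Sum.inl x => Pt.pt x
        | Sum.inr (Sum.inl p) => Pt.lev p.1 p.2
        | Sum.inr (Sum.inr e) => Pt.cen e : Pt E)) := by
    rintro (x | ⟨n, φ⟩ | e)
    exacts [⟨Sum.inl x, rfl⟩, ⟨Sum.inr (Sum.inl (n, φ)), rfl⟩, ⟨Sum.inr (Sum.inr e), rfl⟩]
  exact h.countable

instance : Infinite (Pt E) :=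
  Infinite.of_injective (fun n : ℕ => (Pt.lev n 1 : Pt E)) fun _ _ h => (Pt.lev.inj h).1

noncomputable instance actPt : MulAction (NE q) (Pt E) where
  smul t a := match a with
    | Pt.pt x => Pt.pt ⟨t.1.2 • x.1, x.2.elim fun θ h => ⟨_, t.2 θ _ h⟩⟩
    | Pt.lev n φ => Pt.lev n (ev n t.1.2 * φ)
    | Pt.cen e => Pt.cen (t.1.1.toAdd + e)
  one_smul a := by
    rcases a with x | ⟨n, φ⟩ | e
    · exact congrArg Pt.pt (Subtype.ext (one_smul P0 x.1))
    · exact congrArg (Pt.lev n) (by change ev n 1 * φ = φ; rw [map_one, one_mul])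
    · exact congrArg Pt.cen (zero_add e)
  mul_smul s t a := by
    rcases a with x | ⟨n, φ⟩ | e
    · exact congrArg Pt.pt (Subtype.ext (mul_smul s.1.2 t.1.2 x.1))
    · exact congrArg (Pt.lev n) (by
        change ev n (s.1.2 * t.1.2) * φ = _
        rw [map_mul, mul_assoc])
    · exact congrArg Pt.cen (add_assoc _ _ e)

variable {q}

theorem smul_pt (t : NE q) (x : {x : X // ∃ θ, x ∈ A θ}) :
    t • (Pt.pt x : Pt E) = Pt.pt ⟨t.1.2 • x.1, x.2.elim fun θ h => ⟨_, t.2 θ _ h⟩⟩ := rfl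

theorem smul_lev (t : NE q) (n : ℕ) (φ : F) :
    t • (Pt.lev n φ : Pt E) = Pt.lev n (ev n t.1.2 * φ) := rfl

theorem smul_cen (t : NE q) (e : E) : t • (Pt.cen e : Pt E) = Pt.cen (t.1.1.toAdd + e) := rfl

theorem closedAct : ClosedAct (NE q) (Pt E) := by
  refine ⟨fun s t h => Subtype.ext (Prod.ext ?_ (ev_ext fun n => ?_)), fun f hf => ?_⟩
  · have := Pt.cen.inj (h (Pt.cen 0))
    rw [add_zero, add_zero] at this
    exact this
  · have := (Pt.lev.inj (h (Pt.lev n 1))).2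
    rwa [mul_one, mul_one] at this
  · choose c hc using fun a : Pt E => hf {a}
    have hc' : ∀ a, f a = c a • a := fun a => hc a a (Finset.mem_singleton_self a)
    have hlev : ∀ (t : NE q) (n : ℕ), f (Pt.lev n 1) = t • Pt.lev n 1 →
        ev n t.1.2 = ev n (c (Pt.lev n 1)).1.2 := by
      intro t n h
      have := (Pt.lev.inj (h.symm.trans (hc' _))).2
      rwa [mul_one, mul_one] at this
    have hcen : ∀ t : NE q, f (Pt.cen 0) = t • Pt.cen 0 → t.1.1 = (c (Pt.cen 0)).1.1 := by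
      intro t h
      have := Pt.cen.inj (h.symm.trans (hc' _))
      rw [add_zero, add_zero] at this
      exact this
    let g : P0 := ⟨fun n => ev n (c (Pt.lev n 1)).1.2, fun n m h => by
      obtain ⟨t, ht⟩ := hf {Pt.lev n 1, Pt.lev m 1}
      beta_reduce
      rw [← hlev t n (ht _ (by simp)), ← hlev t m (ht _ (by simp)), π_ev h]⟩
    have hg : ∀ n, ev n g = ev n (c (Pt.lev n 1)).1.2 := fun n => rfl
    have hpt : ∀ (t : NE q) (x : {x : X // ∃ θ, x ∈ A θ}), f (Pt.pt x) = t • Pt.pt x →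
        g • x.1 = t.1.2 • x.1 := by
      intro t x h
      funext i
      obtain ⟨t', ht'⟩ := hf {Pt.pt x, Pt.lev (i + 1) 1}
      have e1 := congrArg Subtype.val (Pt.pt.inj (h.symm.trans (ht' _ (by simp))))
      have e2 := (hg (i + 1)).trans (hlev t' (i + 1) (ht' _ (by simp))).symm
      simp only at e1
      rw [e1]
      exact agr_of_ev e2 x.1 i (by omega)
    refine ⟨⟨((c (Pt.cen 0)).1.1, g), fun θ x hx => ?_⟩, ?_⟩
    · obtain ⟨t, ht⟩ := hf {Pt.pt ⟨x, θ, hx⟩, Pt.cen 0}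
      have e1 := hpt t ⟨x, θ, hx⟩ (ht _ (by simp))
      simp only at e1 ⊢
      rw [e1, ← hcen t (ht _ (by simp))]
      exact t.2 θ x hx
    · rintro (x | ⟨n, φ⟩ | e)
      · rw [hc', smul_pt, smul_pt]
        exact congrArg Pt.pt (Subtype.ext (hpt _ x (hc' _)).symm)
      · obtain ⟨t, ht⟩ := hf {Pt.lev n φ, Pt.lev n 1}
        rw [ht _ (by simp), smul_lev, smul_lev, hlev t n (ht _ (by simp))]
        rfl
      · obtain ⟨t, ht⟩ := hf {Pt.cen e, Pt.cen 0}
        rw [ht _ (by simp), smul_cen, smul_cen, hcen t (ht _ (by simp))]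

theorem exists_supp (D : Finset (Pt E)) : ∃ (S : Finset X) (n : ℕ), InA S ∧
    ∀ s t : NE q, s.1.1 = t.1.1 → ev n s.1.2 = ev n t.1.2 → (∀ x ∈ S, s.1.2 • x = t.1.2 • x) →
      ∀ a ∈ D, s • a = t • a := by
  induction D using Finset.induction_on with
  | empty => exact ⟨∅, 0, InA.empty, by simp⟩
  | insert a D _ ih =>
    obtain ⟨S, n, hS, h⟩ := ih
    rcases a with x | ⟨m, φ⟩ | e
    · refine ⟨{x.1} ∪ S, n, InA.union (fun y hy => Finset.mem_singleton.1 hy ▸ x.2) hS,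
        fun s t h1 h2 h3 a ha => ?_⟩
      rcases Finset.mem_insert.1 ha with rfl | ha
      · exact congrArg Pt.pt (Subtype.ext (h3 _ (by simp)))
      · exact h s t h1 h2 (fun y hy => h3 y (Finset.mem_union_right _ hy)) a ha
    · refine ⟨S, n + m, hS, fun s t h1 h2 h3 a ha => ?_⟩
      rcases Finset.mem_insert.1 ha with rfl | ha
      · rw [smul_lev, smul_lev, ev_mono (by omega : m ≤ n + m) h2]
      · exact h s t h1 (ev_mono (by omega) h2) h3 a ha
    · refine ⟨S, n, hS, fun s t h1 h2 h3 a ha => ?_⟩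
      rcases Finset.mem_insert.1 ha with rfl | ha
      · rw [smul_cen, smul_cen, h1]
      · exact h s t h1 h2 h3 a ha

/-- an invertible pair as a unit of the monoid -/
def mkUnit (p : Multiplicative E × P0) (h : p ∈ NE q) (h' : p⁻¹ ∈ NE q) : (NE q)ˣ :=
  ⟨⟨p, h⟩, ⟨p⁻¹, h'⟩, Subtype.ext (mul_inv_cancel p), Subtype.ext (inv_mul_cancel p)⟩

theorem unit_inv (u : (NE q)ˣ) : ((u⁻¹ : (NE q)ˣ) : NE q).1 = (u : NE q).1⁻¹ :=
  eq_inv_of_mul_eq_one_left (congrArg Subtype.val u.inv_mul)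

theorem inv_mem_NE {e : Multiplicative E} {g : P0} (h : Maps g⁻¹ (sh (q e.toAdd)) A) :
    (e, g)⁻¹ ∈ NE q := by
  change Maps g⁻¹ A (sh (q (-e.toAdd)))
  rw [map_neg]
  exact maps_sh_inv h

theorem denseUnits : DenseUnits (NE q) (Pt E) := by
  intro t D
  obtain ⟨S, n, hS, h⟩ := exists_supp (q := q) D
  obtain ⟨m, hm, hsep⟩ := exists_sep S n
  obtain ⟨g, h1, h2, h3, h4⟩ := hom hA (model_sh (q t.1.1.toAdd)) m t.1.2 S (fun x => t.1.2 • x)
    (fun x hx => (hS x hx).imp fun θ hθ => ⟨hθ, t.2 θ x hθ⟩) hsep (fun x _ => Agr.refl _ _)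
  exact ⟨mkUnit (t.1.1, g) h2 (inv_mem_NE h3), h _ _ rfl (ev_mono hm h1.symm)
    fun x hx => (h4 x hx).symm⟩

variable (q)

/-- the group of invertible pairs -/
def GE : Subgroup (Multiplicative E × P0) where
  carrier := {p | p ∈ NE q ∧ p⁻¹ ∈ NE q}
  one_mem' := ⟨(NE q).one_mem, by rw [inv_one]; exact (NE q).one_mem⟩
  mul_mem' := fun {a b} ha hb => ⟨(NE q).mul_mem ha.1 hb.1, by
    rw [mul_inv_rev]; exact (NE q).mul_mem hb.2 ha.2⟩
  inv_mem' := fun {a} ha => ⟨ha.2, by rw [inv_inv]; exact ha.1⟩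

/-- the invertible pairs are the units -/
def unitsGE : GE q ≃* (NE q)ˣ where
  toFun p := mkUnit p.1 p.2.1 p.2.2
  invFun u := ⟨(u : NE q).1, (u : NE q).2, by rw [← unit_inv]; exact ((u⁻¹ : (NE q)ˣ) : NE q).2⟩
  left_inv _ := rfl
  right_inv _ := Units.ext rfl
  map_mul' _ _ := Units.ext rfl

end Pool.Agent.P.MP_859560_lc.Desc
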