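import Pool.Agent.P.MP_859560_lc.DescMonoid

namespace Pool.Agent.P.MP_859560_lc.Desc

open Classical Pool.Agent.P.MP_859560_lc

section general
variable {E : Type} [AddCommGroup E] {q : E →+ ZMod 2}
variable {W : Type*} [MulAction (NE q) W] [Countable W]

theorem supp_lev (hW : ClosedAct (NE q) W) (n : ℕ) :
    ∃ D : Finset W, ∀ t : NE q, Fixes t D → ev n t.1.2 = 1 :=
  dudley hW ((ev n).comp ((MonoidHom.snd _ _).comp (NE q).subtype))

theorem supp_pt (hW : ClosedAct (NE q) W) {x : X} (hx : ∃ θ, x ∈ A θ) :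
    ∃ D : Finset W, ∀ t : NE q, Fixes t D → t.1.2 • x = x := by
  by_contra hcon
  push Not at hcon
  have := hA.countable
  have : Nonempty {x : X // ∃ θ, x ∈ A θ} := ⟨⟨x, hx⟩⟩
  obtain ⟨a, ha⟩ := exists_surjective_nat {x : X // ∃ θ, x ∈ A θ}
  obtain ⟨v, hv⟩ := fusion' hW (fun i v => v.1.2 • x ≠ (a i).1) (by
    intro i w D
    have h1 : ∃ u : NE q, Fixes u D ∧ (w * u).1.2 • x ≠ (a i).1 := by
      by_cases h : w.1.2 • x = (a i).1
      · obtain ⟨u, hu, hu'⟩ := hcon D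
        refine ⟨u, hu, fun e => hu' (smul_left_cancel w.1.2 ?_)⟩
        rw [h, ← mul_smul]
        exact e
      · exact ⟨1, Fixes.one D, by rwa [mul_one]⟩
    obtain ⟨u, hu, hu'⟩ := h1
    obtain ⟨n, -, hn⟩ := exists_sep_point id (a i).1 {(w * u).1.2 • x} (by simpa using hu') 0
    obtain ⟨D', hD'⟩ := supp_lev hW n
    refine ⟨u, D', hu, fun r hr e => hn _ (Finset.mem_singleton_self _) ?_⟩
    rw [← e]
    change Agr n _ (((w * u).1.2 * r.1.2) • x)
    rw [mul_smul]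
    exact ((agr_of_ev_one (hD' r hr) x).smul _).symm)
  obtain ⟨θ, hθ⟩ := hx
  obtain ⟨i, hi⟩ := ha ⟨v.1.2 • x, _, v.2 θ x hθ⟩
  exact hv i (by rw [hi])

theorem supp_fin (hW : ClosedAct (NE q) W) {S : Finset X} (hS : InA S) (n : ℕ) :
    ∃ D : Finset W, ∀ t : NE q, Fixes t D →
      q t.1.1.toAdd = 0 ∧ ev n t.1.2 = 1 ∧ ∀ x ∈ S, t.1.2 • x = x := by
  obtain ⟨x0, hx0, -⟩ := hA.dense 0 (fun _ => true) 0
  obtain ⟨D0, hD0⟩ := supp_pt hW ⟨0, hx0⟩
  obtain ⟨D1, hD1⟩ := supp_lev hW n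
  choose! c hc using fun x (hx : x ∈ S) => supp_pt hW (hS x hx)
  refine ⟨D0 ∪ D1 ∪ S.biUnion c, fun t ht => ⟨sh_eq_zero t.2 ⟨0, hx0⟩ (hD0 t (ht.mono ?_)),
    hD1 t (ht.mono ?_), fun x hx => hc x hx t (ht.mono ?_)⟩⟩
  · exact Finset.subset_union_left.trans Finset.subset_union_left
  · exact Finset.subset_union_right.trans Finset.subset_union_left
  · exact (Finset.subset_biUnion_of_mem c hx).trans Finset.subset_union_right

theorem mem_NE_of_N0 {e : Multiplicative E} {g : P0} (he : q e.toAdd = 0) (hg : g ∈ N0) :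
    (e, g) ∈ NE q := by
  change Maps g A (sh (q e.toAdd))
  rw [he, sh_zero]
  exact hg

theorem mem_N0_of {t : NE q} (he : q t.1.1.toAdd = 0) : t.1.2 ∈ N0 := by
  have := t.2
  change Maps t.1.2 A (sh (q t.1.1.toAdd)) at this
  rwa [he, sh_zero] at this

theorem shift_zero_of {t : NE q} (h : t.1.2 ∈ N0) : q t.1.1.toAdd = 0 := by
  obtain ⟨x0, hx0, -⟩ := hA.dense 0 (fun _ => true) 0
  have := hA.disj _ _ _ (t.2 0 x0 hx0) (h 0 x0 hx0)
  rwa [zero_add] at this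

theorem om [Countable E] (hW : ClosedAct (NE q) W) (D : Finset W) :
    ∃ (S : Finset X) (n : ℕ), InA S ∧ ∀ g ∈ N0, ev n g = 1 → (∀ x ∈ S, g • x = x) →
      ∃ r : NE q, Fixes r D ∧ r.1.2 = g := by
  obtain ⟨F0, hF⟩ := open_mapping (closedAct (q := q)) denseUnits hW D
  obtain ⟨S, n, hS, h⟩ := exists_supp (q := q) F0
  refine ⟨S, n, hS, fun g hg h1 h2 => ?_⟩
  let t : NE q := ⟨(1, g), mem_NE_of_N0 (map_zero q) hg⟩
  obtain ⟨r, hr, hr'⟩ := hF t fun a ha => by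
    rw [h t 1 rfl (h1.trans (map_one _).symm) (fun x hx => (h2 x hx).trans (one_smul _ x).symm)
      a ha, one_smul]
  refine ⟨r, hr, ev_ext fun m => ?_⟩
  obtain ⟨D', hD'⟩ := supp_lev hW m
  have := (Pt.lev.inj (hr' (Pt.lev m 1) ⟨D', fun s hs => by
    rw [smul_lev, hD' s hs, one_mul]⟩)).2
  rwa [mul_one, mul_one] at this

end general

/-- the first projection -/
abbrev q2 : ZMod 2 × ZMod 2 →+ ZMod 2 := AddMonoidHom.fst _ _

variable {W : Type*} [MulAction (NE q2) W]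

/-- the colour preserving element with central part `ε` -/
def el (ε : ZMod 2) (g : P0) (hg : g ∈ N0) : NE q2 :=
  ⟨(Multiplicative.ofAdd (0, ε), g), mem_NE_of_N0 rfl hg⟩

/-- the lift of `g` with central part `ε` fixes `D` -/
def Fx (D : Finset W) (ε : ZMod 2) (g : P0) : Prop := ∃ hg : g ∈ N0, Fixes (el ε g hg) D

theorem el_mul (ε ε' : ZMod 2) {g g' : P0} (hg : g ∈ N0) (hg' : g' ∈ N0) :
    el ε g hg * el ε' g' hg' = el (ε + ε') (g * g') (N0.mul_mem hg hg') := rfl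

theorem el_congr {ε ε' : ZMod 2} {g g' : P0} (hg : g ∈ N0) (hg' : g' ∈ N0) (h : ε = ε')
    (h' : g = g') : el ε g hg = el ε' g' hg' := by subst h h'; rfl

theorem eq_el (t : NE q2) (h : t.1.2 ∈ N0) : t = el t.1.1.toAdd.2 t.1.2 h := by
  have := shift_zero_of h
  refine Subtype.ext (Prod.ext ?_ rfl)
  exact Prod.ext this rfl

theorem Fx.mul {D : Finset W} {ε ε' : ZMod 2} {g g' : P0} (h : Fx D ε g) (h' : Fx D ε' g') :
    Fx D (ε + ε') (g * g') :=
  ⟨N0.mul_mem h.1 h'.1, h.2.mul h'.2⟩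

theorem Fx.mono {D D' : Finset W} {ε : ZMod 2} {g : P0} (h : Fx D' ε g) (hD : D ⊆ D') :
    Fx D ε g := ⟨h.1, h.2.mono hD⟩

theorem Fx.conj {D : Finset W} {ε : ZMod 2} {g k : P0} (hk : k ∈ H0)
    (h : Fx (D.image fun y => el 0 k hk.1 • y) ε g) : Fx D ε (k⁻¹ * g * k) := by
  refine ⟨N0.mul_mem (N0.mul_mem hk.2 h.1) hk.1, fun y hy => ?_⟩
  have e : el ε (k⁻¹ * g * k) (N0.mul_mem (N0.mul_mem hk.2 h.1) hk.1) =
      el 0 k⁻¹ hk.2 * el ε g h.1 * el 0 k hk.1 := by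
    rw [el_mul, el_mul]
    exact el_congr _ _ (by rw [zero_add, add_zero]) rfl
  have e' : el 0 k⁻¹ hk.2 * el 0 k hk.1 = 1 := by
    rw [el_mul]
    exact Subtype.ext (Prod.ext rfl (inv_mul_cancel k))
  rw [e, mul_smul, mul_smul, h.2 _ (Finset.mem_image_of_mem _ hy), ← mul_smul, e', one_smul]

/-- `d` is a character on `V` describing the stabiliser of some finite subset of `W` -/
def Nice (W : Type*) [MulAction (NE q2) W] (d : P0 → ZMod 2) (V : Subgroup P0) : Prop :=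
  AddOn d V ∧ ∃ D : Finset W, ∀ ε, ∀ g ∈ V, Fx D ε g → d g = ε

theorem Nice.conj {d : P0 → ZMod 2} {S : Finset X} {n : ℕ} (h : Nice W d (Vs S n)) {k : P0}
    (hk : k ∈ H0) : Nice W (fun g => d (k⁻¹ * g * k)) (Vs (S.image fun x => k • x) n) := by
  obtain ⟨h1, D, hD⟩ := h
  refine ⟨fun a ha b hb => ?_, _, fun ε g hg h => hD ε _ (Vs_conj hk hg) (h.conj hk)⟩
  beta_reduce
  rw [← h1 _ (Vs_conj hk ha) _ (Vs_conj hk hb)]
  congr 1
  group

variable [Countable W]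

theorem om2 (hW : ClosedAct (NE q2) W) (D : Finset W) :
    ∃ (S : Finset X) (n : ℕ), InA S ∧ ∀ g ∈ N0, ev n g = 1 → (∀ x ∈ S, g • x = x) →
      ∃ ε, Fx D ε g := by
  obtain ⟨S, n, hS, h⟩ := om hW D
  refine ⟨S, n, hS, fun g hg h1 h2 => ?_⟩
  obtain ⟨r, hr, rfl⟩ := h g hg h1 h2
  exact ⟨_, hg, eq_el r hg ▸ hr⟩

theorem Nice.compare (hW : ClosedAct (NE q2) W) {d d' : P0 → ZMod 2} {S S' : Finset X}
    {n n' : ℕ} (hS : InA S) (hS' : InA S') (h : Nice W d (Vs S n)) (h' : Nice W d' (Vs S' n')) :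
    ∃ m, ∀ g ∈ Vs (S ∪ S') m, d g = d' g := by
  obtain ⟨h1, D, hD⟩ := h
  obtain ⟨h1', D', hD'⟩ := h'
  obtain ⟨S'', n'', hS'', h2⟩ := om2 hW (D ∪ D')
  have l1 : Vs (S ∪ S') (n + n') ≤ Vs S n := Vs_mono Finset.subset_union_left (by omega)
  have l2 : Vs (S ∪ S') (n + n') ≤ Vs S' n' := Vs_mono Finset.subset_union_right (by omega)
  obtain ⟨m, -, hm⟩ := nc (n0 := n + n') (n' := n'') (hS.union hS') hS''
    (d := fun g => d g - d' g) (fun a ha b hb => by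
      simp only
      rw [h1 a (l1 ha) b (l1 hb), h1' a (l2 ha) b (l2 hb)]
      ring) (fun g hg hg' => by
      obtain ⟨ε, hε⟩ := h2 g hg.1.1 hg'.2.1 hg'.2.2
      rw [hD ε g (l1 hg) (hε.mono Finset.subset_union_left),
        hD' ε g (l2 hg) (hε.mono Finset.subset_union_right), sub_self])
  exact ⟨m, fun g hg => sub_eq_zero.1 (hm g hg)⟩

theorem exists_nice0 (hW : ClosedAct (NE q2) W) :
    ∃ (S : Finset X) (n : ℕ) (d : P0 → ZMod 2), InA S ∧ Sep n S ∧ Nice W d (Vs S n) := by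
  obtain ⟨y, hy⟩ : ∃ y : W, el 1 1 N0.one_mem • y ≠ y := by
    by_contra h
    push Not at h
    have := hW.faith (el 1 1 N0.one_mem) 1 fun y => by rw [h y, one_smul]
    exact absurd (congrArg (fun t : NE q2 => t.1.1.toAdd.2) this) (by decide)
  have huniq : ∀ ε ε' g, Fx {y} ε g → Fx {y} ε' g → ε = ε' := by
    intro ε ε' g h h'
    by_contra hne
    have e : ε' = 1 + ε := by clear h h'; revert ε ε'; decide
    apply hy
    have e1 := h.2 y (Finset.mem_singleton_self y)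
    have e2 := h'.2 y (Finset.mem_singleton_self y)
    conv_lhs => rw [← e1]
    rw [← mul_smul, el_mul, el_congr _ h'.1 e.symm (one_mul g), e2]
  obtain ⟨S, n, hS, h⟩ := om2 hW {y}
  obtain ⟨m, hm, hsep⟩ := exists_sep S n
  have h1 : ∀ g ∈ Vs S m, ∃ ε, Fx {y} ε g := fun g hg =>
    h g hg.1.1 (ev_one_mono hm hg.2.1) hg.2.2
  choose! d hd using h1
  exact ⟨S, m, d, hS, hsep, fun a ha b hb => huniq _ _ _ (hd _ ((Vs S m).mul_mem ha hb))
    ((hd a ha).mul (hd b hb)), {y}, fun ε g hg h => huniq _ _ _ (hd g hg) h⟩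

theorem exists_nice_level (hW : ClosedAct (NE q2) W) :
    ∃ (m : ℕ) (d : P0 → ZMod 2), Nice W d (Vs ∅ m) := by
  obtain ⟨S0, n, d0, hS0, hsep0, h0⟩ := exists_nice0 hW
  obtain ⟨k1, hk1, hk1'⟩ := move (w := ∅) (S := S0) (n := n) (by rwa [Finset.empty_union])
    (by rwa [Finset.empty_union]) S0
  obtain ⟨k2, hk2, hk2'⟩ := move (w := ∅) (S := S0) (n := n) (by rwa [Finset.empty_union])
    (by rwa [Finset.empty_union]) (S0 ∪ S0.image fun x => k1 • x)
  have h1 := h0.conj hk1.1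
  have h2 := h0.conj hk2.1
  have hS1 := hS0.image hk1.1
  have hS2 := hS0.image hk2.1
  set S1 := S0.image fun x => k1 • x with e1
  set S2 := S0.image fun x => k2 • x with e2
  have d01 : ∀ x ∈ S1, x ∉ S0 := by
    intro y hy
    obtain ⟨x, hx, rfl⟩ := Finset.mem_image.1 hy
    exact hk1' x hx (Finset.notMem_empty x)
  have d2 : ∀ x ∈ S2, x ∉ S0 ∪ S1 := by
    intro y hy
    obtain ⟨x, hx, rfl⟩ := Finset.mem_image.1 hy
    exact hk2' x hx (Finset.notMem_empty x)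
  obtain ⟨m01, c01⟩ := h0.compare hW hS0 hS1 h1
  obtain ⟨m02, c02⟩ := h0.compare hW hS0 hS2 h2
  obtain ⟨m12, c12⟩ := h1.compare hW hS1 hS2 h2
  obtain ⟨m, hm, hsep⟩ := exists_sep (S0 ∪ S1 ∪ S2) (n + m01 + m02 + m12)
  have hin : InA (S0 ∪ S1 ∪ S2) := (hS0.union hS1).union hS2
  have G : ∀ a b c : Finset X, a ∪ b ∪ c ⊆ S0 ∪ S1 ∪ S2 → (∀ x ∈ b, x ∈ c → x ∈ a) →
      ∀ h ∈ Vs a m, ∃ k ∈ Vs b m, k ∈ Vs a m ∧ k⁻¹ * h ∈ Vs c m := fun a b c hs hbc h hh =>
    gen (fun x hx => hin x (hs hx)) (hsep.mono le_rfl hs) hbc hh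
  obtain ⟨d, hd, hd'⟩ := triangle (Vs ∅ m) (Vs S0 m) (Vs S1 m) (Vs S2 m) _ _ _
    (h0.1.mono (Vs_mono subset_rfl (by omega))) (h1.1.mono (Vs_mono subset_rfl (by omega)))
    (h2.1.mono (Vs_mono subset_rfl (by omega)))
    (fun a ha hb => c01 a (Vs_mono subset_rfl (by omega) (Vs_union ha hb)))
    (fun a ha hb => c02 a (Vs_mono subset_rfl (by omega) (Vs_union ha hb)))
    (fun a ha hb => c12 a (Vs_mono subset_rfl (by omega) (Vs_union ha hb)))
    (fun a ha => by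
      obtain ⟨k, a1, -, a3⟩ := G ∅ S2 (S0 ∪ S1) (by intro x; simp; tauto)
        (fun x hx hx' => absurd hx' (d2 x hx)) a ha
      exact ⟨k, a1, Vs_mono Finset.subset_union_left le_rfl a3,
        Vs_mono Finset.subset_union_right le_rfl a3⟩)
    (fun a ha => G S0 S2 S1 (by intro x; simp; tauto)
      (fun x hx hx' => absurd (Finset.mem_union_right _ hx') (d2 x hx)) a ha)
    (fun a ha => G S1 S2 S0 (by intro x; simp; tauto)
      (fun x hx hx' => absurd (Finset.mem_union_left _ hx') (d2 x hx)) a ha)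
    (fun a ha => by
      obtain ⟨k, a1, a2, a3⟩ := G S2 S0 S1 (by intro x; simp; tauto)
        (fun x hx hx' => absurd hx (d01 x hx')) a ha
      exact ⟨k, a2, a1, a3⟩)
  obtain ⟨D, hD⟩ := h2.2
  obtain ⟨D', hD'⟩ := supp_fin hW hS2 0
  refine ⟨m, d, hd, D ∪ D', fun ε g hg h => ?_⟩
  have hg2 : g ∈ Vs S2 m := ⟨hg.1, hg.2.1, (hD' _ (h.2.mono Finset.subset_union_right)).2.2⟩
  rw [hd' g hg hg2]
  exact hD ε g (Vs_mono subset_rfl (by omega) hg2) (h.mono Finset.subset_union_left)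

theorem exists_section (m : ℕ) :
    ∃ s : F →* P0, (∀ φ, s φ ∈ H0) ∧ ∀ φ, ev m (s φ) = π m φ := by
  choose c hc1 hc2 using fun v : List Bool => hom0 hA hA m (ι (FreeGroup.of v))
  refine ⟨FreeGroup.lift c, fun φ => ?_, fun φ => ?_⟩
  · refine FreeGroup.induction_on φ ?_ ?_ ?_ ?_
    · rw [map_one]; exact H0.one_mem
    · intro v; rw [FreeGroup.lift_apply_of]; exact hc2 v
    · intro v h; rw [map_inv]; exact H0.inv_mem h
    · intro a b ha hb; rw [map_mul]; exact H0.mul_mem ha hb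
  · have : (ev m).comp (FreeGroup.lift c) = π m := by
      ext v
      rw [MonoidHom.comp_apply, FreeGroup.lift_apply_of, hc1, ev_ι]
    exact DFunLike.congr_fun this φ

theorem exists_nice_H0 (hW : ClosedAct (NE q2) W) : ∃ d : P0 → ZMod 2, Nice W d H0 := by
  obtain ⟨m, d, hd⟩ := exists_nice_level hW
  obtain ⟨s, hs, hs'⟩ := exists_section m
  have h1 : ∀ v : List Bool, ∃ n, ∀ g ∈ Vs ∅ n,
      d ((s (FreeGroup.of v))⁻¹ * g * s (FreeGroup.of v)) = d g := by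
    intro v
    have h2 := hd.conj (hs (FreeGroup.of v))
    rw [Finset.image_empty] at h2
    simpa only [Finset.empty_union] using h2.compare hW InA.empty InA.empty hd
  choose c hc using h1
  let m' := m + (List.finite_length_lt Bool m).toFinset.sup c
  have hm' : Vs ∅ m' ≤ Vs ∅ m := Vs_mono subset_rfl (by omega)
  let K : Subgroup P0 :=
    { carrier := {k | k ∈ H0 ∧ ∀ g ∈ Vs ∅ m', d (k⁻¹ * g * k) = d g}
      one_mem' := ⟨H0.one_mem, fun g _ => by rw [inv_one, one_mul, mul_one]⟩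
      mul_mem' := fun {a b} ha hb => ⟨H0.mul_mem ha.1 hb.1, fun g hg => by
        rw [← ha.2 g hg, ← hb.2 _ (Vs_normal ha.1 hg)]
        congr 1
        group⟩
      inv_mem' := fun {a} ha => ⟨H0.inv_mem ha.1, fun g hg => by
        rw [← ha.2 _ (Vs_normal (H0.inv_mem ha.1) hg)]
        congr 1
        group⟩ }
  have hK1 : ∀ k ∈ Vs ∅ m, k ∈ K := fun k hk => ⟨hk.1, fun g hg => hd.1.conj hk (hm' hg)⟩
  have hK2 : ∀ φ, s φ ∈ K := by
    intro φ
    refine FreeGroup.induction_on φ ?_ ?_ ?_ ?_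
    · rw [map_one]; exact K.one_mem
    · intro v
      by_cases hv : v.length < m
      · refine ⟨hs _, fun g hg => hc v g (Vs_mono subset_rfl ?_ hg)⟩
        have := Finset.le_sup (f := c) ((List.finite_length_lt Bool m).mem_toFinset.2 hv)
        omega
      · exact hK1 _ ⟨hs _, by rw [hs', π_of, if_neg hv], by simp⟩
    · intro v h; rw [map_inv]; exact K.inv_mem h
    · intro a b ha hb; rw [map_mul]; exact K.mul_mem ha hb
  have hdec : ∀ (n : ℕ) (s : F →* P0), (∀ φ, s φ ∈ H0) → (∀ φ, ev n (s φ) = π n φ) →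
      ∀ k ∈ H0, k * (s (ev n k))⁻¹ ∈ Vs ∅ n := fun n s hs hs' k hk =>
    ⟨H0.mul_mem hk (H0.inv_mem (hs _)), by
      rw [map_mul, map_inv, hs', π_ev le_rfl, mul_inv_cancel], by simp⟩
  have hK3 : ∀ k ∈ H0, k ∈ K := fun k hk => by
    have := K.mul_mem (hK1 _ (hdec m s hs hs' k hk)) (hK2 (ev m k))
    rwa [inv_mul_cancel_right] at this
  obtain ⟨s', ht, ht'⟩ := exists_section m'
  obtain ⟨D, hD⟩ := hd.2
  obtain ⟨D', hD'⟩ := supp_lev hW m'
  refine ⟨fun k => d (k * (s' (ev m' k))⁻¹), fun a ha b hb => ?_, D ∪ D', fun ε g hg h => ?_⟩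
  · have a1 := hdec m' s' ht ht' a ha
    have b1 := hdec m' s' ht ht' b hb
    have k1 := H0.inv_mem (ht (ev m' a))
    simp only
    rw [← (hK3 _ k1).2 _ b1, ← hd.1 _ (hm' a1) _ (hm' (Vs_normal k1 b1)), map_mul, map_mul]
    congr 1
    group
  · have e : ev m' g = 1 := hD' _ (h.2.mono Finset.subset_union_right)
    simp only
    rw [e, map_one, inv_one, mul_one]
    exact hD ε g (hm' ⟨hg, e, by simp⟩) (h.mono Finset.subset_union_left)

theorem exists_delta (hW : ClosedAct (NE q2) W) (hd : DenseUnits (NE q2) W) :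
    ∃ δ : P0 → ZMod 2, (∀ a b, δ (a * b) = δ a + δ b) ∧ ∃ D : Finset W,
      ∀ t : NE q2, Fixes t D → t.1.1.toAdd = (0, δ t.1.2) := by
  have two : ∀ x : ZMod 2, x + x = 0 := by decide
  obtain ⟨d, hd1, D, hD⟩ := exists_nice_H0 hW
  obtain ⟨D', hD'⟩ := supp_fin hW InA.empty 0
  have hH : ∀ g : (NE q2)ˣ, (g : NE q2).1.1.toAdd.1 = 0 → (g : NE q2).1.2 ∈ H0 := by
    intro g hg
    refine ⟨mem_N0_of hg, ?_⟩
    have h1 : q2 ((g⁻¹ : (NE q2)ˣ) : NE q2).1.1.toAdd = 0 := by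
      rw [unit_inv]
      exact neg_eq_zero.2 hg
    have := mem_N0_of h1
    rwa [unit_inv] at this
  obtain ⟨c, hc1, hc2, hc3⟩ := ext_hom hd (D ∪ D') (fun t => t.1.1.toAdd.1) (fun _ _ => rfl)
    (fun t ht => (hD' t (ht.mono Finset.subset_union_right)).1)
    (fun g => (g : NE q2).1.1.toAdd.2 + d (g : NE q2).1.2) (fun g g' hg hg' => by
      have := hd1 _ (hH g hg) _ (hH g' hg')
      change (g : NE q2).1.1.toAdd.2 + (g' : NE q2).1.1.toAdd.2 +
        d ((g : NE q2).1.2 * (g' : NE q2).1.2) = _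
      rw [this]
      ring) (fun g hg => by
      have h1 := hH g (hD' _ (hg.mono Finset.subset_union_right)).1
      rw [hD _ _ h1 ⟨h1.1, eq_el _ h1.1 ▸ hg.mono Finset.subset_union_left⟩, two])
  obtain ⟨δ, hδ, hδ'⟩ := chunk_N0 (fun g => if h : g ∈ N0 then c (el 0 g h) else 0) (by
    intro a ha b hb
    simp only [dif_pos ha, dif_pos hb, dif_pos (N0.mul_mem ha hb)]
    rw [← hc1 _ _ rfl rfl, el_mul, add_zero])
  refine ⟨δ, hδ, D ∪ D', fun t ht => ?_⟩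
  have h0 := (hD' t (ht.mono Finset.subset_union_right)).1
  have h1 := mem_N0_of h0
  refine Prod.ext h0 ?_
  let ε := t.1.1.toAdd.2
  have hz : el ε 1 N0.one_mem * el ε 1 N0.one_mem = 1 := by
    rw [el_mul]
    exact Subtype.ext (Prod.ext (congrArg (fun a => Multiplicative.ofAdd ((0 : ZMod 2), a))
      (two ε)) (mul_one 1))
  have h2 := hc3 ⟨_, _, hz, hz⟩ rfl
  have h3 := hc1 (el ε 1 N0.one_mem) (el 0 t.1.2 h1) rfl rfl
  rw [el_mul, el_congr _ h1 (add_zero ε) (one_mul _), ← eq_el t h1, hc2 t ht] at h3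
  change c (el ε 1 N0.one_mem) = ε + d 1 at h2
  rw [h2, hd1.one, add_zero] at h3
  change ε = δ t.1.2
  rw [hδ' _ h1, dif_pos h1]
  linear_combination (exp := 1) two ε + h3

/-- the twisting automorphism -/
def twist (δ : P0 → ZMod 2) (hδ : ∀ a b, δ (a * b) = δ a + δ b) : NE q2 ≃* NE q2 where
  toFun t := ⟨(Multiplicative.ofAdd (t.1.1.toAdd.1, t.1.1.toAdd.2 + δ t.1.2), t.1.2), t.2⟩
  invFun t := ⟨(Multiplicative.ofAdd (t.1.1.toAdd.1, t.1.1.toAdd.2 - δ t.1.2), t.1.2), t.2⟩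
  left_inv t := Subtype.ext (Prod.ext (Prod.ext rfl (add_sub_cancel_right _ _)) rfl)
  right_inv t := Subtype.ext (Prod.ext (Prod.ext rfl (sub_add_cancel _ _)) rfl)
  map_mul' s t := Subtype.ext (Prod.ext (Prod.ext rfl (by
    change s.1.1.toAdd.2 + t.1.1.toAdd.2 + δ (s.1.2 * t.1.2) =
      s.1.1.toAdd.2 + δ s.1.2 + (t.1.1.toAdd.2 + δ t.1.2)
    rw [hδ]
    ring)) rfl)

theorem exists_twist (hW : ClosedAct (NE q2) W) (hd : DenseUnits (NE q2) W) :
    ∃ σ : NE q2 ≃* NE q2,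
      (∀ y : W, ∃ D : Finset (Pt (ZMod 2 × ZMod 2)), ∀ t : NE q2, Fixes t D → σ t • y = y) ∧
      ∀ a : Pt (ZMod 2 × ZMod 2), ∃ D : Finset W, ∀ t : NE q2, Fixes (σ t) D → t • a = a := by
  obtain ⟨δ, hδ, D, hD⟩ := exists_delta hW hd
  refine ⟨twist δ hδ, fun y => ?_, fun a => ?_⟩
  · obtain ⟨S, n, hS, h⟩ := om hW (insert y D)
    refine ⟨insert (Pt.cen 0) (insert (Pt.lev n 1)
      (S.attach.image fun x => Pt.pt ⟨x.1, hS x.1 x.2⟩)), fun t ht => ?_⟩
    have e0 : t.1.1.toAdd = 0 := by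
      have := Pt.cen.inj (ht (Pt.cen 0) (by simp))
      rwa [add_zero] at this
    have e1 : ev n t.1.2 = 1 := by
      have := (Pt.lev.inj (ht (Pt.lev n 1) (by simp))).2
      rwa [mul_one] at this
    obtain ⟨r, hr, hr'⟩ := h t.1.2 (mem_N0_of (by rw [e0, map_zero])) e1 fun x hx =>
      congrArg Subtype.val (Pt.pt.inj (ht (Pt.pt ⟨x, hS x hx⟩) (Finset.mem_insert_of_mem
        (Finset.mem_insert_of_mem (Finset.mem_image_of_mem
          (fun x : S => (Pt.pt ⟨x.1, hS x.1 x.2⟩ : Pt (ZMod 2 × ZMod 2)))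
          (Finset.mem_attach S ⟨x, hx⟩))))))
    have e2 : twist δ hδ t = r := by
      refine Subtype.ext (Prod.ext ?_ hr'.symm)
      change (t.1.1.toAdd.1, t.1.1.toAdd.2 + δ t.1.2) = r.1.1.toAdd
      rw [hD r (hr.mono (Finset.subset_insert _ _)), e0, hr']
      simp
    rw [e2]
    exact hr y (Finset.mem_insert_self _ _)
  · obtain ⟨S, n, hS, h⟩ := exists_supp (q := q2) {a}
    obtain ⟨D', hD'⟩ := supp_fin hW hS n
    refine ⟨D ∪ D', fun t ht => ?_⟩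
    have h1 := hD _ (ht.mono Finset.subset_union_left)
    obtain ⟨-, h2, h3⟩ := hD' _ (ht.mono Finset.subset_union_right)
    have h4 : t.1.1.toAdd = 0 :=
      Prod.ext (Prod.ext_iff.1 h1).1 (add_eq_right.1 (Prod.ext_iff.1 h1).2)
    rw [h t 1 h4 (h2.trans (map_one _).symm) (fun x hx => (h3 x hx).trans (one_smul _ x).symm)
      a (Finset.mem_singleton_self a), one_smul]

end Pool.Agent.P.MP_859560_lc.Desc
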