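import Mathlib

namespace Pool.Agent.P.MP_859560_lc

variable {Ω : Type*} [TopologicalSpace Ω]

/-- The topology of pointwise convergence on `Ω^Ω` (the product topology). -/
@[reducible] def endTop (Ω : Type*) [TopologicalSpace Ω] : TopologicalSpace (Function.End Ω) :=
  (Pi.topologicalSpace : TopologicalSpace (Ω → Ω))

/-- The subspace topology on the symmetric group `S_Ω ⊆ Ω^Ω`. -/
@[reducible] def permTop (Ω : Type*) [TopologicalSpace Ω] : TopologicalSpace (Equiv.Perm Ω) :=
  TopologicalSpace.induced (fun g : Equiv.Perm Ω => (g : Ω → Ω)) Pi.topologicalSpace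

/-- The subspace topology on a permutation group. -/
@[reducible] def groupTop (G : Subgroup (Equiv.Perm Ω)) : TopologicalSpace G :=
  TopologicalSpace.induced Subtype.val (permTop Ω)

/-- The subspace topology on a transformation monoid. -/
@[reducible] def monoidTop (S : Submonoid (Function.End Ω)) : TopologicalSpace S :=
  TopologicalSpace.induced Subtype.val (endTop Ω)

/-- `G` is a closed subgroup of `S_Ω`. -/
def IsClosedGroup (G : Subgroup (Equiv.Perm Ω)) : Prop :=
  @IsClosed _ (permTop Ω) (G : Set (Equiv.Perm Ω))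

/-- `S` is a closed submonoid of `Ω^Ω`. -/
def IsClosedMonoid (S : Submonoid (Function.End Ω)) : Prop :=
  @IsClosed _ (endTop Ω) (S : Set (Function.End Ω))

/-- `G` is reconstructible with respect to the closed subgroups of `S_Ω`. -/
def GroupReconstructible (G : Subgroup (Equiv.Perm Ω)) : Prop :=
  ∀ H : Subgroup (Equiv.Perm Ω), IsClosedGroup H → Nonempty (G ≃* H) →
    ∃ e : G ≃* H, @IsHomeomorph _ _ (groupTop G) (groupTop H) e

/-- `S` is reconstructible with respect to the closed submonoids of `Ω^Ω`. -/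
def MonoidReconstructible (S : Submonoid (Function.End Ω)) : Prop :=
  ∀ T : Submonoid (Function.End Ω), IsClosedMonoid T → Nonempty (S ≃* T) →
    ∃ e : S ≃* T, @IsHomeomorph _ _ (monoidTop S) (monoidTop T) e

/-- The closure of `G` in `Ω^Ω`, as a set of maps. -/
def closureSet (G : Subgroup (Equiv.Perm Ω)) : Set (Function.End Ω) :=
  @closure _ (endTop Ω) {f : Function.End Ω | ∃ g ∈ G, f = (g : Ω → Ω)}

theorem mem_closure_iff_finset' [DiscreteTopology Ω] (A : Set (Ω → Ω)) (f : Ω → Ω) :
    f ∈ closure A ↔ ∀ F : Finset Ω, ∃ g ∈ A, ∀ a ∈ F, f a = g a := by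
  rw [mem_closure_iff_nhds]
  constructor
  · intro h F
    have hU : {g : Ω → Ω | ∀ a ∈ F, f a = g a} ∈ nhds f := by
      have : {g : Ω → Ω | ∀ a ∈ F, f a = g a} = Set.pi (F : Set Ω) fun a => {f a} := by
        ext g; simp [eq_comm]
      rw [this]
      exact set_pi_mem_nhds F.finite_toSet fun a _ => (isOpen_discrete _).mem_nhds rfl
    obtain ⟨g, hg, hg'⟩ := h _ hU
    exact ⟨g, hg', hg⟩
  · intro h U hU
    rw [nhds_pi, Filter.mem_pi] at hU
    obtain ⟨I, hI, t, ht, hsub⟩ := hU
    obtain ⟨g, hg, hg'⟩ := h hI.toFinset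
    refine ⟨g, hsub fun a ha => ?_, hg⟩
    rw [← hg' a (hI.mem_toFinset.2 ha)]
    exact mem_of_mem_nhds (ht a)

theorem mem_closure_iff_finset [DiscreteTopology Ω] (A : Set (Function.End Ω))
    (f : Function.End Ω) :
    f ∈ @closure _ (endTop Ω) A ↔ ∀ F : Finset Ω, ∃ g ∈ A, ∀ a ∈ F, f a = g a :=
  mem_closure_iff_finset' A f

/-- The closure of `G` in `Ω^Ω`, as a submonoid of `Ω^Ω`. -/
def closureMonoid [DiscreteTopology Ω] (G : Subgroup (Equiv.Perm Ω)) :
    Submonoid (Function.End Ω) where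
  carrier := closureSet G
  one_mem' := @subset_closure _ (endTop Ω) _ _ ⟨1, G.one_mem, rfl⟩
  mul_mem' := by
    classical
    intro f f' hf hf'
    rw [closureSet, mem_closure_iff_finset] at hf hf' ⊢
    intro F
    obtain ⟨_, ⟨g', hg', rfl⟩, h'⟩ := hf' F
    obtain ⟨_, ⟨g, hg, rfl⟩, h⟩ := hf (F.image f')
    refine ⟨_, ⟨g * g', G.mul_mem hg hg', rfl⟩, fun a ha => ?_⟩
    change f (f' a) = g (g' a)
    rw [h _ (Finset.mem_image_of_mem _ ha), h' a ha]

end Pool.Agent.P.MP_859560_lc
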